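import Pool.Agent.R429.DM.Geo
import Pool.Agent.W263.BSD.Lap

/-! Subexponential weighted sums and a zero: the weight vanishes near `1`, then everywhere. -/

set_option autoImplicit false

namespace Pool.Agent.R429.DM

open MeasureTheory Filter Topology Set Complex
open Pool.Agent.W263.BSD (LInt lapC lapC_differentiableAt)

variable {c : ℕ → ℝ} {G Φ : ℂ → ℂ} {K : ℝ → ℝ} {M : ℝ}

/-- exponential growth of the weighted sums with exponent at most `y`, up to null sets -/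
def Grow (c : ℕ → ℝ) (K : ℝ → ℝ) (y : ℝ) : Prop :=
  ∀ ε : ℝ, 0 < ε → ∃ C : ℝ, ∀ᵐ T : ℝ, 0 < T → |sK c K T| ≤ C * Real.exp ((y + ε) * T)

theorem lint_of_grow (hc : CD c) (hK : Measurable K) {y : ℝ} (h : Grow c K y) :
    ∀ w > y, LInt (sK c K) w := by
  intro w hw
  obtain ⟨C, hC⟩ := h ((w - y) / 2) (by linarith)
  unfold LInt
  refine Integrable.mono' (g := fun T => C * Real.exp (-((w - y) / 2 * T))) ?_ ?_ ?_
  · exact (exp_int (by linarith) 0).1.const_mul C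
  · exact ((measurable_sK hc hK).mul (by fun_prop)).aestronglyMeasurable
  · refine (ae_restrict_iff' measurableSet_Ioi).2 ?_
    filter_upwards [hC] with T hT hT0
    rw [norm_mul, Real.norm_eq_abs, Real.norm_eq_abs, abs_of_pos (Real.exp_pos _)]
    calc |sK c K T| * Real.exp (-(w * T)) ≤
          C * Real.exp ((y + (w - y) / 2) * T) * Real.exp (-(w * T)) :=
          mul_le_mul_of_nonneg_right (hT hT0) (Real.exp_pos _).le
      _ = C * Real.exp (-((w - y) / 2 * T)) := by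
          rw [mul_assoc, ← Real.exp_add]; congr 2; ring

/-- the logarithmic derivative near the ray, without the pole -/
theorem exists_rho (E : ED c G Φ) {z₀ : ℂ} (h0 : 0 < z₀.re) {η : ℝ} (hη : 0 < η)
    (hη2 : η ≤ 1 / 2) (hre : ∀ ζ ∈ cone η, z₀.re / 2 * ζ.re ≤ (z₀ * ζ).re)
    (hnz : ∀ ζ ∈ cone η, ζ ≠ 1 → Φ (z₀ * ζ) ≠ 0) :
    ∃ (m : ℕ) (ρ : ℂ → ℂ) (C R : ℝ), (Φ z₀ = 0 ↔ m ≠ 0) ∧ DifferentiableOn ℂ ρ (cone η) ∧
      (∀ ζ : ℂ, 1 < (z₀ * ζ).re → ζ ≠ 1 → z₀ * ζ * DD c (z₀ * ζ) = m / (ζ - 1) + ρ ζ) ∧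
      ∀ z ∈ cone η, R ≤ ‖z‖ → ‖ρ z‖ ≤ C / ‖z‖ := by
  have hη1 : η ≤ 1 := by linarith
  have hz0 : z₀ ≠ 0 := fun h => by rw [h] at h0; simp at h0
  set Ψ : ℂ → ℂ := fun ζ => Φ (z₀ * ζ) with hΨ
  have hΨd : Differentiable ℂ Ψ := E.Φd.comp (by fun_prop)
  have hconere : ∀ ζ ∈ cone η, 0 < ζ.re := fun ζ hζ => by have := hζ.1; linarith
  have hpos : ∀ ζ ∈ cone η, 0 < (z₀ * ζ).re := fun ζ hζ => by
    have h1 := hre ζ hζ
    have h2 := hconere ζ hζ
    have : 0 < z₀.re / 2 * ζ.re := by positivity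
    linarith
  -- the order at `1`
  have htop : analyticOrderAt Ψ 1 ≠ ⊤ := by
    intro h
    rw [analyticOrderAt_eq_top] at h
    have h1 : AnalyticOnNhd ℂ Ψ univ := fun z _ => hΨd.analyticAt z
    have h2 := h1.eqOn_zero_of_preconnected_of_eventuallyEq_zero isPreconnected_univ
      (mem_univ _) h
    have h3 : Ψ ((2 / z₀.re : ℝ) : ℂ) = 0 := h2 (mem_univ _)
    refine E.ne_zero ?_ h3
    rw [Complex.re_mul_ofReal]
    field_simp
    norm_num
  obtain ⟨m, hm⟩ := ENat.ne_top_iff_exists.mp htop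
  obtain ⟨g, hga, hg1, hgeq⟩ := ((hΨd.analyticAt 1).analyticOrderAt_eq_natCast).1 hm.symm
  have hm0 : Φ z₀ = 0 ↔ m ≠ 0 := by
    have hΨ1 : Ψ 1 = Φ z₀ := by rw [hΨ]; simp
    rw [← hΨ1]
    constructor
    · intro hz
      rintro rfl
      have h1 : analyticOrderAt Ψ 1 = 0 := by rw [← hm]; rfl
      rw [(hΨd.analyticAt 1).analyticOrderAt_eq_zero] at h1
      exact h1 hz
    · intro hm'
      by_contra hz
      refine hm' ?_
      have h1 := (hΨd.analyticAt 1).analyticOrderAt_eq_zero.2 hz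
      rw [← hm] at h1
      exact_mod_cast h1
  -- the logarithmic derivative without its pole
  set q : ℂ → ℂ := fun ζ => if ζ = 1 then deriv g 1 / g 1 else deriv Ψ ζ / Ψ ζ - m / (ζ - 1) with hq
  have hΨ' : ∀ ζ, DifferentiableAt ℂ (deriv Ψ) ζ := fun ζ => (hΨd.analyticAt ζ).deriv.differentiableAt
  have hqd : ∀ ζ ∈ cone η, DifferentiableAt ℂ q ζ := by
    intro ζ hζ
    by_cases h1 : ζ = 1
    · have hev : q =ᶠ[𝓝 ζ] fun ζ => deriv g ζ / g ζ := by
        rw [h1]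
        have hga' : ∀ᶠ z in 𝓝 (1 : ℂ), AnalyticAt ℂ g z := hga.eventually_analyticAt
        have hg0 : ∀ᶠ z in 𝓝 (1 : ℂ), g z ≠ 0 := hga.continuousAt.eventually_ne hg1
        have hgeq' : ∀ᶠ z in 𝓝 (1 : ℂ), ∀ᶠ w in 𝓝 z, Ψ w = (w - 1) ^ m • g w := hgeq.eventually_nhds
        filter_upwards [hga', hg0, hgeq'] with z hz1 hz2 hz3
        rw [hq]
        simp only
        split_ifs with h2
        · rw [h2]
        · have h3 : z - 1 ≠ 0 := sub_ne_zero.2 h2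
          have h4 : HasDerivAt (fun w : ℂ => (w - 1) ^ m * g w)
              (((m : ℂ) * (z - 1) ^ (m - 1) * 1) * g z + (z - 1) ^ m * deriv g z) z :=
            (((hasDerivAt_id z).sub_const 1).pow m).mul hz1.differentiableAt.hasDerivAt
          have h5 : deriv Ψ z = ((m : ℂ) * (z - 1) ^ (m - 1) * 1) * g z + (z - 1) ^ m * deriv g z := by
            rw [← h4.deriv]
            exact Filter.EventuallyEq.deriv_eq (hz3.mono fun w hw => by rw [hw, smul_eq_mul])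
          have h6 : Ψ z = (z - 1) ^ m * g z := by rw [hz3.self_of_nhds, smul_eq_mul]
          rw [h5, h6]
          rcases Nat.eq_zero_or_pos m with hm00 | hm00
          · rw [hm00]
            simp
          have h7 : (z - 1) ^ m = (z - 1) ^ (m - 1) * (z - 1) := by
            rw [← pow_succ]; congr 1; omega
          have h8 : (z - 1) ^ (m - 1) ≠ 0 := pow_ne_zero _ h3
          rw [h7]
          field_simp
          ring
      rw [hev.differentiableAt_iff, h1]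
      exact hga.deriv.differentiableAt.div hga.differentiableAt hg1
    · have hev : q =ᶠ[𝓝 ζ] fun ζ => deriv Ψ ζ / Ψ ζ - m / (ζ - 1) := by
        filter_upwards [isOpen_ne.mem_nhds h1] with z hz
        rw [hq]
        simp only
        rw [if_neg hz]
      rw [hev.differentiableAt_iff]
      refine ((hΨ' ζ).div (hΨd ζ) (hnz ζ hζ h1)).sub ?_
      exact DifferentiableAt.div (by fun_prop) (by fun_prop) (sub_ne_zero.2 h1)
  -- the derivative of the correction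
  have hGd : ∀ w : ℂ, 0 < w.re → DifferentiableAt ℂ (deriv G) w := by
    intro w hw
    have hopen : IsOpen {z : ℂ | 0 < z.re} := isOpen_lt continuous_const Complex.continuous_re
    have h1 : AnalyticAt ℂ G w := by
      have : DifferentiableOn ℂ G {z : ℂ | 0 < z.re} := fun z hz => (E.Gd z hz).differentiableWithinAt
      exact this.analyticAt (hopen.mem_nhds hw)
    exact h1.deriv.differentiableAt
  set ρ : ℂ → ℂ := fun ζ => m + ζ * q ζ - z₀ * ζ * deriv G (z₀ * ζ) with hρ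
  have hρd : DifferentiableOn ℂ ρ (cone η) := by
    intro ζ hζ
    refine DifferentiableAt.differentiableWithinAt ?_
    have h1 : DifferentiableAt ℂ (fun ζ : ℂ => deriv G (z₀ * ζ)) ζ :=
      DifferentiableAt.comp (g := deriv G) (f := fun ζ : ℂ => z₀ * ζ) ζ (hGd _ (hpos ζ hζ))
        (by fun_prop)
    have h2 := hqd ζ hζ
    exact (((differentiableAt_id.mul h2).const_add _)).sub ((by fun_prop : DifferentiableAt ℂ
      (fun ζ : ℂ => z₀ * ζ) ζ).mul h1)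
  -- the identity to the right of one
  have hE : ∀ ζ : ℂ, 1 < (z₀ * ζ).re → ζ ≠ 1 → z₀ * ζ * DD c (z₀ * ζ) = m / (ζ - 1) + ρ ζ := by
    intro ζ h1 h2
    have h3 : ζ - 1 ≠ 0 := sub_ne_zero.2 h2
    rw [← E.logder h1, hρ, hq]
    simp only
    rw [if_neg h2]
    have h4 : deriv Ψ ζ = deriv Φ (z₀ * ζ) * z₀ := by
      have h5 : HasDerivAt (fun ζ : ℂ => z₀ * ζ) (z₀ * 1) ζ := (hasDerivAt_id ζ).const_mul z₀
      have h6 : HasDerivAt Ψ (deriv Φ (z₀ * ζ) * (z₀ * 1)) ζ :=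
        HasDerivAt.comp ζ (h₂ := Φ) (h := fun ζ : ℂ => z₀ * ζ) (E.Φd (z₀ * ζ)).hasDerivAt h5
      rw [h6.deriv, mul_one]
    rw [h4]
    have h7 : Ψ ζ = Φ (z₀ * ζ) := rfl
    have h8 : Φ (z₀ * ζ) ≠ 0 := E.ne_zero h1
    rw [h7]
    field_simp
    ring
  -- decay
  obtain ⟨B, hB0, hB⟩ := DD_le E.cd
  have hζn : ∀ ζ ∈ cone η, ‖ζ‖ ≤ 2 * ζ.re := by
    intro ζ hζ
    have h1 := Complex.norm_le_abs_re_add_abs_im ζ
    have h2 := hconere ζ hζ
    rw [abs_of_pos h2] at h1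
    have h3 : |ζ.im| < η * ζ.re := hζ.2
    nlinarith
  set R : ℝ := 16 / z₀.re + 2 with hR
  set C : ℝ := 64 * ‖z₀‖ * B / z₀.re ^ 2 + 2 * m with hC
  have hdec : ∀ z ∈ cone η, R ≤ ‖z‖ → ‖ρ z‖ ≤ C / ‖z‖ := by
    intro ζ hζ hRζ
    have h1 := hζn ζ hζ
    have h2 := hre ζ hζ
    have h3 : z₀.re * ‖ζ‖ / 4 ≤ (z₀ * ζ).re := by nlinarith
    have h4 : 16 ≤ z₀.re * ‖ζ‖ := by
      have : 16 / z₀.re ≤ ‖ζ‖ := by linarith
      rw [div_le_iff₀ h0] at this
      linarith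
    have h16 : 0 < 16 / z₀.re := by positivity
    have h5 : 2 ≤ ‖ζ‖ := by linarith
    have h6 : z₀.re * ‖ζ‖ / 8 ≤ (z₀ * ζ).re - 2 := by linarith
    have h7 : 2 < (z₀ * ζ).re := by linarith
    have hζ0 : 0 < ‖ζ‖ := by linarith
    have hζ1 : ζ ≠ 1 := by
      rintro rfl
      norm_num at h5
    have h8 := hE ζ (by linarith) hζ1
    have h9 : ρ ζ = z₀ * ζ * DD c (z₀ * ζ) - m / (ζ - 1) := by rw [h8]; ring
    have h10 : ‖ζ‖ / 2 ≤ ‖ζ - 1‖ := by
      have := norm_sub_norm_le ζ 1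
      rw [norm_one] at this
      linarith
    rw [h9]
    have h11 : ‖(m : ℂ) / (ζ - 1)‖ ≤ 2 * m / ‖ζ‖ := by
      rw [norm_div, Complex.norm_natCast]
      have : (m : ℝ) / ‖ζ - 1‖ ≤ m / (‖ζ‖ / 2) := by
        apply div_le_div_of_nonneg_left (by positivity) (by positivity) h10
      refine this.trans (le_of_eq ?_)
      field_simp
    have h12 : ‖z₀ * ζ * DD c (z₀ * ζ)‖ ≤ 64 * ‖z₀‖ * B / z₀.re ^ 2 / ‖ζ‖ := by
      rw [norm_mul, norm_mul]
      have e1 := hB _ h7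
      have e2 : B / ((z₀ * ζ).re - 2) ^ 2 ≤ B / (z₀.re * ‖ζ‖ / 8) ^ 2 := by
        apply div_le_div_of_nonneg_left hB0 (by positivity)
        gcongr
      calc ‖z₀‖ * ‖ζ‖ * ‖DD c (z₀ * ζ)‖ ≤ ‖z₀‖ * ‖ζ‖ * (B / (z₀.re * ‖ζ‖ / 8) ^ 2) := by
            gcongr
            exact e1.trans e2
        _ = 64 * ‖z₀‖ * B / z₀.re ^ 2 / ‖ζ‖ := by field_simp; ring
    calc ‖z₀ * ζ * DD c (z₀ * ζ) - m / (ζ - 1)‖ ≤ _ := norm_sub_le _ _
      _ ≤ 64 * ‖z₀‖ * B / z₀.re ^ 2 / ‖ζ‖ + 2 * m / ‖ζ‖ := add_le_add h12 h11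
      _ = C / ‖ζ‖ := by rw [hC]; ring
  exact ⟨m, ρ, C, R, hm0, hρd, hE, hdec⟩

/-- **a zero forces the weight to vanish near `1`** (the transform converges) -/
theorem claimL (E : ED c G Φ) {z₀ : ℂ} (h0 : 0 < z₀.re) (hz : Φ z₀ = 0) {η : ℝ} (hη : 0 < η)
    (hη2 : η ≤ 1 / 2) (hre : ∀ ζ ∈ cone η, z₀.re / 2 * ζ.re ≤ (z₀ * ζ).re) {y : ℝ}
    (hre2 : ∀ ζ ∈ cone η, y < (z₀ * ζ).re)
    (hnz : ∀ ζ ∈ cone η, ζ ≠ 1 → Φ (z₀ * ζ) ≠ 0) (hK : Measurable K) (hM : ∀ u, |K u| ≤ M)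
    (hL : ∀ w > y, LInt (sK c K) w) : ∀ᵐ u : ℝ, u ∈ Ioo (1 - η) 1 → K u = 0 := by
  have hη1 : η ≤ 1 := by linarith
  have hz0 : z₀ ≠ 0 := fun h => by rw [h] at h0; simp at h0
  have hconere : ∀ ζ ∈ cone η, 0 < ζ.re := fun ζ hζ => by have := hζ.1; linarith
  obtain ⟨m, ρ, C, R, hm0', hρd, hE, hdec⟩ := exists_rho E h0 hη hη2 hre hnz
  have hm0 : m ≠ 0 := hm0'.1 hz
  -- the transform
  set A : ℂ → ℂ := fun ζ => z₀ * ζ * lapC (sK c K) (z₀ * ζ) with hA
  have hAd : DifferentiableOn ℂ A (cone η) := by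
    intro ζ hζ
    refine DifferentiableAt.differentiableWithinAt ?_
    have h1 : DifferentiableAt ℂ (lapC (sK c K)) (z₀ * ζ) :=
      lapC_differentiableAt (measurable_sK E.cd hK) hL (hre2 ζ hζ)
    have h2 : DifferentiableAt ℂ (fun ζ : ℂ => z₀ * ζ) ζ := by fun_prop
    exact h2.mul (DifferentiableAt.comp (g := lapC (sK c K)) (f := fun ζ : ℂ => z₀ * ζ) ζ h1 h2)
  refine core hK hM hη hη1 hAd hρd hdec (m := (m : ℂ)) (by exact_mod_cast hm0) fun s hs => ?_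
  have hss : s * s = 1 := by rcases hs with rfl | rfl <;> norm_num
  have hopen1 : IsOpen {w : ℂ | 1 < (z₀ * w).re} :=
    isOpen_lt continuous_const (Complex.continuous_re.comp (by fun_prop))
  have hopen2 : IsOpen (half η s) := by
    refine (isOpen_lt continuous_const continuous_re).inter ?_
    exact (isOpen_lt continuous_const (continuous_const.mul continuous_im)).inter
      (isOpen_lt (continuous_const.mul continuous_im) (continuous_const.mul continuous_re))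
  set r : ℝ := 4 / z₀.re + 1 with hr
  have hr0 : 0 < r := by positivity
  set ζ₁ : ℂ := (r : ℂ) + ((s * (η / 2 * r) : ℝ) : ℂ) * I with hζ₁
  have hζre : ζ₁.re = r := by simp [hζ₁]
  have hζim : ζ₁.im = s * (η / 2 * r) := by simp [hζ₁]
  have hmem : ζ₁ ∈ half η s := by
    refine ⟨?_, ?_, ?_⟩
    · rw [hζre, hr]; have : 0 < 4 / z₀.re := by positivity
      linarith
    · rw [hζim, ← mul_assoc, hss]; positivity
    · rw [hζre, hζim, ← mul_assoc, hss]; nlinarith [mul_pos hη hr0]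
  have hmem1 : 1 < (z₀ * ζ₁).re := by
    have h1 := hre ζ₁ (half_subset hs hmem)
    rw [hζre] at h1
    have h2 : z₀.re / 2 * r = 2 + z₀.re / 2 := by rw [hr]; field_simp; ring
    linarith
  refine ⟨ζ₁, hmem, ?_⟩
  filter_upwards [hopen1.mem_nhds hmem1, hopen2.mem_nhds hmem] with w hw1 hw2
  have hwc : w ∈ cone η := half_subset hs hw2
  have hwim := half_im hw2
  have hw1' : 1 < (z₀ * w).re := hw1
  rw [hA]
  simp only
  unfold lapC
  rw [lap_eq E.cd hK hM hw1', ← integral_const_mul]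
  have hR1 : Integrable (fun u : ℝ => (m : ℂ) * ((K u : ℂ) * (w - u)⁻¹))
      (volume.restrict (Ioc (0 : ℝ) 1)) := by
    refine Integrable.const_mul ?_ _
    have hM0 : 0 ≤ M := (abs_nonneg _).trans (hM 0)
    have hd : 0 < |w.im| := abs_pos.2 hwim
    refine Integrable.of_bound ?_ (M * |w.im|⁻¹) (ae_of_all _ fun u => ?_)
    · refine Measurable.aestronglyMeasurable ?_
      fun_prop
    · rw [norm_mul, Complex.norm_real, Real.norm_eq_abs, norm_inv]
      have h1 : |(w - (u : ℂ)).im| ≤ ‖w - u‖ := Complex.abs_im_le_norm _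
      have h2 : (w - (u : ℂ)).im = w.im := by simp
      rw [h2] at h1
      exact mul_le_mul (hM u) (inv_anti₀ hd h1) (by positivity) hM0
  have hR2 := reg_int (cone_open η) (fun w hw u hu => cone_div hη1 hw hu) (zero_notMem_cone hη1)
    hρd hdec hK hM hwc
  rw [← integral_const_mul, ← integral_add hR1 hR2]
  refine integral_congr_ae ((ae_restrict_iff' measurableSet_Ioc).2 (ae_of_all _ fun u hu => ?_))
  simp only
  have hu0 : (u : ℂ) ≠ 0 := Complex.ofReal_ne_zero.2 hu.1.ne'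
  have h1 : z₀ * w / u = z₀ * (w / u) := by ring
  have hwu : w / (u : ℂ) ∈ cone η := cone_div hη1 hwc hu
  have h2 : 1 < (z₀ * (w / (u : ℂ))).re := by
    rw [← h1, Complex.div_ofReal_re, lt_div_iff₀ hu.1]
    nlinarith [hu.2]
  have hwne : w - u ≠ 0 := fun h => by
    have := congrArg Complex.im h
    simp at this
    exact hwim this
  have h3 : w / (u : ℂ) ≠ 1 := by
    intro h
    rw [div_eq_one_iff_eq hu0] at h
    exact hwne (sub_eq_zero.2 h)
  have h4 := hE _ h2 h3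
  have h5 : (m : ℂ) / (w / u - 1) = m * u / (w - u) := by
    have : w / (u : ℂ) - 1 = (w - u) / u := by field_simp
    rw [this, div_div_eq_mul_div]
  rw [h5] at h4
  have h6 : z₀ * w * ((K u : ℂ) * ((u ^ 2)⁻¹ : ℝ) * DD c (z₀ * w / u)) =
      (K u : ℂ) * ((u⁻¹ : ℝ) : ℂ) * (z₀ * (w / u) * DD c (z₀ * (w / u))) := by
    rw [h1]
    push_cast
    field_simp
  rw [h6, h4]
  push_cast
  field_simp

/-- **a zero forces the weight to vanish near `1`** -/
theorem claim (E : ED c G Φ) {z₀ : ℂ} (h0 : 0 < z₀.re) (hz : Φ z₀ = 0) {η : ℝ} (hη : 0 < η)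
    (hη2 : η ≤ 1 / 2) (hre : ∀ ζ ∈ cone η, z₀.re / 2 * ζ.re ≤ (z₀ * ζ).re) {y : ℝ}
    (hre2 : ∀ ζ ∈ cone η, y < (z₀ * ζ).re)
    (hnz : ∀ ζ ∈ cone η, ζ ≠ 1 → Φ (z₀ * ζ) ≠ 0) (hK : Measurable K) (hM : ∀ u, |K u| ≤ M)
    (hg : Grow c K y) : ∀ᵐ u : ℝ, u ∈ Ioo (1 - η) 1 → K u = 0 :=
  claimL E h0 hz hη hη2 hre hre2 hnz hK hM (lint_of_grow E.cd hK hg)

end Pool.Agent.R429.DM
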