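import Mathlib

/-! Multiplicative convolutions and Laplace transforms. -/

set_option autoImplicit false

namespace Pool.Agent.R429.DM

open MeasureTheory Filter Topology Set Complex

/-- the weighted sum: `∑ c_p K(log p / T)` over the `p` with `log p ≤ T` -/
noncomputable def tm (c : ℕ → ℝ) (K : ℝ → ℝ) (p : ℕ) (T : ℝ) : ℝ :=
  if Real.log p ≤ T then c p * K (Real.log p / T) else 0

noncomputable def sK (c : ℕ → ℝ) (K : ℝ → ℝ) (T : ℝ) : ℝ := ∑' p : ℕ, tm c K p T

/-- the Dirichlet series `∑ c_p log p e^{-z log p}` -/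
noncomputable def DD (c : ℕ → ℝ) (z : ℂ) : ℂ :=
  ∑' p : ℕ, ((c p * Real.log p : ℝ) : ℂ) * exp (-(z * Real.log p))

/-- the assumptions on the coefficients -/
structure CD (c : ℕ → ℝ) : Prop where
  one : ∀ p, c p ≠ 0 → 1 ≤ Real.log p
  sum : ∀ σ : ℝ, 1 < σ → Summable fun p : ℕ => |c p| * Real.exp (-(σ * Real.log p))

variable {c : ℕ → ℝ} {K : ℝ → ℝ} {M : ℝ}

theorem tm_support (hc : CD c) (T : ℝ) : ∀ p, p ∉ Finset.range (⌊Real.exp T⌋₊ + 1) → tm c K p T = 0 := by
  intro p hp
  rw [Finset.mem_range, not_lt] at hp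
  unfold tm
  by_cases h0 : c p = 0
  · simp [h0]
  · rw [if_neg]
    intro h
    have h1 := hc.one p h0
    have hp0 : 0 < p := by
      rcases Nat.eq_zero_or_pos p with h2 | h2
      · rw [h2] at h1
        norm_num at h1
      · exact h2
    have hp1 : (0 : ℝ) < p := by exact_mod_cast hp0
    have h2 : (p : ℝ) ≤ Real.exp T := (Real.log_le_iff_le_exp hp1).1 h
    have h3 : p ≤ ⌊Real.exp T⌋₊ := Nat.le_floor h2
    omega

theorem sK_eq (hc : CD c) (T : ℝ) :
    sK c K T = ∑ p ∈ Finset.range (⌊Real.exp T⌋₊ + 1), tm c K p T :=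
  tsum_eq_sum (tm_support hc T)

theorem tm_hasSum (hc : CD c) (T : ℝ) : HasSum (fun p => tm c K p T) (sK c K T) := by
  rw [sK_eq hc]
  exact hasSum_sum_of_ne_finset_zero (tm_support hc T)

theorem measurable_tm (hK : Measurable K) (p : ℕ) : Measurable fun T => tm c K p T := by
  unfold tm
  refine Measurable.ite measurableSet_Ici ?_ measurable_const
  exact (hK.comp (measurable_const.div measurable_id)).const_mul _

theorem measurable_sK (hc : CD c) (hK : Measurable K) : Measurable (sK c K) := by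
  have h : ∀ T, Tendsto (fun n : ℕ => ∑ p ∈ Finset.range n, tm c K p T) atTop (𝓝 (sK c K T)) :=
    fun T => (tm_hasSum hc T).tendsto_sum_nat
  exact measurable_of_tendsto_metrizable
    (fun n => Finset.measurable_sum _ fun p _ => measurable_tm hK p) (tendsto_pi_nhds.2 h)

theorem norm_exp_le {w : ℂ} {T : ℝ} : ‖exp (-(w * T))‖ = Real.exp (-(w.re * T)) := by
  rw [Complex.norm_exp]
  congr 1
  simp

theorem exp_int {σ : ℝ} (hσ : 0 < σ) (l : ℝ) :
    IntegrableOn (fun T => Real.exp (-(σ * T))) (Ioi l) ∧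
      ∫ T in Ioi l, Real.exp (-(σ * T)) = Real.exp (-(σ * l)) / σ := by
  have h1 : (fun T : ℝ => Real.exp (-(σ * T))) = fun T => Real.exp (-σ * T) := by
    funext T; congr 1; ring
  rw [h1]
  refine ⟨integrableOn_exp_mul_Ioi (by linarith) l, ?_⟩
  rw [integral_exp_mul_Ioi (by linarith)]
  rw [show -σ * l = -(σ * l) by ring]
  rw [neg_div_neg_eq]

/-- first form of the Laplace transform -/
theorem lap_hasSum (hc : CD c) (hK : Measurable K) (hM : ∀ u, |K u| ≤ M) {w : ℂ} (hw : 1 < w.re) :
    HasSum (fun p => ∫ T in Ioi (0 : ℝ), (tm c K p T : ℂ) * exp (-(w * T)))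
      (∫ T in Ioi (0 : ℝ), (sK c K T : ℂ) * exp (-(w * T))) := by
  have hM0 : 0 ≤ M := (abs_nonneg _).trans (hM 0)
  have hσ : 0 < w.re := by linarith
  have hbd : ∀ p : ℕ, ∀ T : ℝ, ‖(tm c K p T : ℂ) * exp (-(w * T))‖ ≤
      (Ici (Real.log p)).indicator (fun T => |c p| * M * Real.exp (-(w.re * T))) T := by
    intro p T
    rw [norm_mul, Complex.norm_real, Real.norm_eq_abs, norm_exp_le]
    unfold tm
    by_cases h : Real.log p ≤ T
    · rw [if_pos h, indicator_of_mem (mem_Ici.2 h), abs_mul]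
      refine mul_le_mul_of_nonneg_right ?_ (Real.exp_pos _).le
      exact mul_le_mul_of_nonneg_left (hM _) (abs_nonneg _)
    · rw [if_neg h, indicator_of_notMem (by simpa using h)]
      simp
  have hmeas : ∀ p : ℕ, AEStronglyMeasurable (fun T : ℝ => (tm c K p T : ℂ) * exp (-(w * T)))
      (volume.restrict (Ioi 0)) := by
    intro p
    have h1 : Measurable fun T : ℝ => (tm c K p T : ℂ) := Complex.measurable_ofReal.comp (measurable_tm hK p)
    exact (h1.mul (by fun_prop)).aestronglyMeasurable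
  have hind : ∀ p : ℕ, IntegrableOn ((Ici (Real.log p)).indicator
      (fun T => |c p| * M * Real.exp (-(w.re * T)))) (Ioi 0) := by
    intro p
    have h1 : IntegrableOn (fun T => |c p| * M * Real.exp (-(w.re * T))) (Ici (Real.log p)) := by
      rw [integrableOn_Ici_iff_integrableOn_Ioi]
      exact (exp_int hσ (Real.log p)).1.const_mul _
    exact (h1.integrable_indicator measurableSet_Ici).integrableOn
  have hint : ∀ p : ℕ, IntegrableOn (fun T : ℝ => (tm c K p T : ℂ) * exp (-(w * T))) (Ioi 0) := by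
    intro p
    exact Integrable.mono' (hind p) (hmeas p) (ae_of_all _ (hbd p))
  have hval : ∀ p : ℕ, ∫ T in Ioi (0 : ℝ), ‖(tm c K p T : ℂ) * exp (-(w * T))‖ ≤
      |c p| * Real.exp (-(w.re * Real.log p)) * (M / w.re) := by
    intro p
    refine (integral_mono_of_nonneg (ae_of_all _ fun _ => norm_nonneg _) (hind p)
      (ae_of_all _ (hbd p))).trans ?_
    have hl : 0 ≤ Real.log p := Real.log_natCast_nonneg p
    have h2 : ∫ T in Ioi (0 : ℝ), (Ici (Real.log p)).indicator
        (fun T => |c p| * M * Real.exp (-(w.re * T))) T ≤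
        ∫ T in Ici (Real.log p), |c p| * M * Real.exp (-(w.re * T)) := by
      rw [← integral_indicator measurableSet_Ici]
      refine setIntegral_le_integral ?_ (ae_of_all _ fun T => ?_)
      · have h1 : IntegrableOn (fun T => |c p| * M * Real.exp (-(w.re * T))) (Ici (Real.log p)) := by
          rw [integrableOn_Ici_iff_integrableOn_Ioi]
          exact (exp_int hσ (Real.log p)).1.const_mul _
        exact h1.integrable_indicator measurableSet_Ici
      · refine indicator_nonneg (fun T _ => ?_) T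
        positivity
    refine h2.trans (le_of_eq ?_)
    rw [integral_Ici_eq_integral_Ioi, integral_const_mul, (exp_int hσ _).2]
    ring
  have hsum : Summable fun p => ∫ T in Ioi (0 : ℝ), ‖(tm c K p T : ℂ) * exp (-(w * T))‖ :=
    Summable.of_nonneg_of_le (fun p => integral_nonneg fun _ => norm_nonneg _) hval
      ((hc.sum _ hw).mul_right _)
  have h := hasSum_integral_of_summable_integral_norm hint hsum
  have e : ∫ T in Ioi (0 : ℝ), (sK c K T : ℂ) * exp (-(w * T)) =
      ∫ T in Ioi (0 : ℝ), ∑' p, (tm c K p T : ℂ) * exp (-(w * T)) := by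
    refine integral_congr_ae (ae_of_all _ fun T => ?_)
    simp only
    rw [tsum_mul_right]
    congr 1
    have := (tm_hasSum (K := K) hc T)
    exact ((Complex.hasSum_ofReal.2 this).tsum_eq).symm
  rw [e]
  exact h

/-- change of variables -/
theorem change {l : ℝ} (hl : 0 < l) (K : ℝ → ℝ) (w : ℂ) :
    ∫ T in Ioi (0 : ℝ), (if l ≤ T then (K (l / T) : ℂ) * exp (-(w * T)) else 0) =
      ∫ u in Ioc (0 : ℝ) 1, (K u : ℂ) * ((l / u ^ 2 : ℝ) : ℂ) * exp (-(w * (l / u : ℝ))) := by
  set g : ℝ → ℂ := fun T => if l ≤ T then (K (l / T) : ℂ) * exp (-(w * T)) else 0 with hg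
  have h1 : ∫ T in Ioi (0 : ℝ), g T = l • ∫ y in Ioi (0 : ℝ), g (l * y) := by
    have := integral_comp_mul_left_Ioi g 0 hl
    rw [mul_zero] at this
    rw [this, smul_smul, mul_inv_cancel₀ hl.ne', one_smul]
  have h2 := integral_comp_rpow_Ioi (fun y => g (l * y)) (p := -1) (by norm_num)
  have h3 := (integral_smul (μ := volume.restrict (Ioi (0 : ℝ))) l
    (fun x : ℝ => (|(-1 : ℝ)| * x ^ ((-1 : ℝ) - 1)) • g (l * x ^ (-1 : ℝ))))
  rw [h1, ← h2, ← h3]
  rw [← integral_indicator measurableSet_Ioc, ← integral_indicator measurableSet_Ioi]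
  refine integral_congr_ae (ae_of_all _ fun u => ?_)
  by_cases hu : 0 < u
  · rw [indicator_of_mem (mem_Ioi.2 hu)]
    have e1 : u ^ (-1 : ℝ) = u⁻¹ := Real.rpow_neg_one u
    have e2 : u ^ ((-1 : ℝ) - 1) = (u ^ 2)⁻¹ := by
      rw [show (-1 : ℝ) - 1 = -((2 : ℕ) : ℝ) by norm_num, Real.rpow_neg hu.le, Real.rpow_natCast]
    rw [e1, e2, hg]
    simp only
    have e3 : l * u⁻¹ = l / u := by rw [div_eq_mul_inv]
    rw [e3]
    by_cases hu1 : u ≤ 1
    · rw [indicator_of_mem (mem_Ioc.2 ⟨hu, hu1⟩), if_pos (by rw [le_div_iff₀ hu]; nlinarith)]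
      have e4 : l / (l / u) = u := by field_simp
      rw [e4]
      simp only [Complex.real_smul]
      push_cast
      rw [abs_neg, abs_one]
      push_cast
      ring
    · rw [indicator_of_notMem (fun h => hu1 h.2), if_neg]
      · simp
      · rw [le_div_iff₀ hu, not_le]
        push Not at hu1
        nlinarith
  · rw [indicator_of_notMem (by simpa using hu), indicator_of_notMem (fun h => hu h.1)]

theorem sq_exp_le {δ : ℝ} (hδ : 0 < δ) (y : ℝ) (hy : 0 ≤ y) :
    y ^ 2 * Real.exp (-(δ * y)) ≤ 2 / δ ^ 2 := by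
  have h1 : (δ * y) ^ 2 / 2 ≤ Real.exp (δ * y) := by
    have := Real.quadratic_le_exp_of_nonneg (mul_nonneg hδ.le hy)
    nlinarith [mul_nonneg hδ.le hy]
  rw [Real.exp_neg, ← div_eq_mul_inv, div_le_div_iff₀ (Real.exp_pos _) (by positivity)]
  nlinarith

/-- **The Laplace transform of the weighted sums.** -/
theorem lap_eq (hc : CD c) (hK : Measurable K) (hM : ∀ u, |K u| ≤ M) {w : ℂ} (hw : 1 < w.re) :
    ∫ T in Ioi (0 : ℝ), (sK c K T : ℂ) * exp (-(w * T)) =
      ∫ u in Ioc (0 : ℝ) 1, (K u : ℂ) * ((u ^ 2)⁻¹ : ℝ) * DD c (w / u) := by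
  have hM0 : 0 ≤ M := (abs_nonneg _).trans (hM 0)
  set F : ℕ → ℝ → ℂ := fun p u => (c p : ℂ) * ((K u : ℂ) * ((Real.log p / u ^ 2 : ℝ) : ℂ) *
    exp (-(w * (Real.log p / u : ℝ)))) with hF
  have h1 := lap_hasSum hc hK hM hw
  have hterm : ∀ p : ℕ, ∫ T in Ioi (0 : ℝ), (tm c K p T : ℂ) * exp (-(w * T)) =
      ∫ u in Ioc (0 : ℝ) 1, F p u := by
    intro p
    rw [hF]
    simp only
    rw [integral_const_mul]
    by_cases h0 : c p = 0
    · have : ∀ T : ℝ, (tm c K p T : ℂ) * exp (-(w * T)) = 0 := fun T => by unfold tm; simp [h0]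
      simp_rw [this]
      simp [h0]
    · have hl : 0 < Real.log p := lt_of_lt_of_le zero_lt_one (hc.one p h0)
      rw [← change hl K w, ← integral_const_mul]
      refine integral_congr_ae (ae_of_all _ fun T => ?_)
      simp only
      unfold tm
      split_ifs
      · push_cast; ring
      · simp
  simp_rw [hterm] at h1
  -- second summation
  set δ : ℝ := (w.re - 1) / 2 with hδ
  have hδ0 : 0 < δ := by rw [hδ]; linarith
  set C : ℝ := 2 / δ ^ 2 with hC
  have hC0 : 0 ≤ C := by positivity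
  have hb : ∀ p : ℕ, ∀ u ∈ Ioc (0 : ℝ) 1, ‖F p u‖ ≤
      |c p| * Real.exp (-((1 + δ) * Real.log p)) * (M * C) := by
    intro p u hu
    rw [hF]
    simp only
    rw [norm_mul, norm_mul, norm_mul, Complex.norm_real, Complex.norm_real, Complex.norm_real,
      Real.norm_eq_abs, Real.norm_eq_abs, Real.norm_eq_abs, norm_exp_le]
    by_cases h0 : c p = 0
    · rw [h0]; simp
    · have hl1 := hc.one p h0
      have hl : 0 < Real.log p := by linarith
      set l := Real.log p
      set y := l / u with hy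
      have hyl : l ≤ y := by
        rw [hy, le_div_iff₀ hu.1]
        nlinarith [hu.2]
      have hy0 : 0 ≤ y := hl.le.trans hyl
      have e1 : |l / u ^ 2| ≤ y ^ 2 := by
        rw [abs_of_nonneg (by have := hu.1; positivity), hy, div_pow]
        refine div_le_div_of_nonneg_right ?_ (by positivity)
        nlinarith
      have e2 : Real.exp (-(w.re * y)) = Real.exp (-(δ * y)) * Real.exp (-((1 + δ) * y)) := by
        rw [← Real.exp_add]
        congr 1
        rw [hδ]
        ring
      have e3 : Real.exp (-((1 + δ) * y)) ≤ Real.exp (-((1 + δ) * l)) := by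
        apply Real.exp_le_exp.2
        nlinarith
      calc |c p| * (|K u| * |l / u ^ 2| * Real.exp (-(w.re * y)))
          ≤ |c p| * (M * y ^ 2 * (Real.exp (-(δ * y)) * Real.exp (-((1 + δ) * l)))) := by
            rw [e2]
            have := hM u
            gcongr
        _ = |c p| * Real.exp (-((1 + δ) * l)) * (M * (y ^ 2 * Real.exp (-(δ * y)))) := by ring
        _ ≤ |c p| * Real.exp (-((1 + δ) * l)) * (M * C) := by
            have := sq_exp_le hδ0 y hy0
            gcongr
  have hFm : ∀ p, AEStronglyMeasurable (F p) (volume.restrict (Ioc (0 : ℝ) 1)) := by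
    intro p
    rw [hF]
    simp only
    refine Measurable.aestronglyMeasurable ?_
    fun_prop
  have hFi : ∀ p, Integrable (F p) (volume.restrict (Ioc (0 : ℝ) 1)) := by
    intro p
    refine Integrable.of_bound (hFm p) (|c p| * Real.exp (-((1 + δ) * Real.log p)) * (M * C)) ?_
    exact (ae_restrict_iff' measurableSet_Ioc).2 (ae_of_all _ (hb p))
  have hsum : Summable fun p => ∫ u in Ioc (0 : ℝ) 1, ‖F p u‖ := by
    refine Summable.of_nonneg_of_le (fun p => integral_nonneg fun _ => norm_nonneg _) (fun p => ?_)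
      ((hc.sum (1 + δ) (by linarith)).mul_right (M * C))
    have e1 : ∫ u in Ioc (0 : ℝ) 1, ‖F p u‖ ≤ ∫ _u in Ioc (0 : ℝ) 1,
        |c p| * Real.exp (-((1 + δ) * Real.log p)) * (M * C) := by
      refine setIntegral_mono_on (hFi p).norm (integrable_const _) measurableSet_Ioc (hb p)
    refine e1.trans (le_of_eq ?_)
    simp
  have h2 := hasSum_integral_of_summable_integral_norm hFi hsum
  rw [h1.unique h2]
  refine integral_congr_ae (ae_of_all _ fun u => ?_)
  simp only
  unfold DD
  rw [← tsum_mul_left]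
  refine tsum_congr fun p => ?_
  rw [hF]
  simp only
  simp only [Complex.ofReal_mul, Complex.ofReal_div, Complex.ofReal_inv, Complex.ofReal_pow]
  have : w * ((Real.log p : ℂ) / u) = w / u * Real.log p := by ring
  rw [this]
  ring

end Pool.Agent.R429.DM
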