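import Pool.Agent.R429.DM.Stieltjes
import Pool.Agent.Helper123.CRX.Param

/-! The jump of a convolution along a ray. -/

set_option autoImplicit false

namespace Pool.Agent.R429.DM

open MeasureTheory Filter Topology Set Complex Metric

variable {K : ℝ → ℝ} {M : ℝ}

/-- the bound for the regular part -/
theorem reg_bound {Ω : Set ℂ} (hΩ : IsOpen Ω) (hcone : ∀ w ∈ Ω, ∀ u ∈ Ioc (0 : ℝ) 1, w / u ∈ Ω)
    (h0 : (0 : ℂ) ∉ Ω) {ρ : ℂ → ℂ} (hρ : DifferentiableOn ℂ ρ Ω) {C R : ℝ}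
    (hC : ∀ z ∈ Ω, R ≤ ‖z‖ → ‖ρ z‖ ≤ C / ‖z‖) {w₀ : ℂ} (hw : w₀ ∈ Ω) :
    ∃ δ B : ℝ, 0 < δ ∧ 0 ≤ B ∧ closedBall w₀ δ ⊆ Ω ∧ ∀ w ∈ closedBall w₀ δ, ∀ u ∈ Ioc (0 : ℝ) 1,
      ‖((u⁻¹ : ℝ) : ℂ) * ρ (w / u)‖ ≤ B := by
  obtain ⟨δ, hδ, hball⟩ := Metric.nhds_basis_closedBall.mem_iff.1 (hΩ.mem_nhds hw)
  -- lower bound for the modulus
  obtain ⟨b, hb, hbw⟩ : ∃ b : ℝ, 0 < b ∧ ∀ w ∈ closedBall w₀ δ, b ≤ ‖w‖ := by
    obtain ⟨x, hx, hxm⟩ := (isCompact_closedBall w₀ δ).exists_isMinOn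
      ⟨w₀, mem_closedBall_self hδ.le⟩ continuous_norm.continuousOn
    refine ⟨‖x‖, norm_pos_iff.2 fun h => h0 (h ▸ hball hx), fun w hw => hxm hw⟩
  set R' : ℝ := max R 1 with hR'
  have hR'1 : 1 ≤ R' := le_max_right _ _
  set u₀ : ℝ := min 1 (b / R') with hu₀
  have hu0 : 0 < u₀ := lt_min one_pos (by positivity)
  -- the compact part
  obtain ⟨C₂, hC₂⟩ : ∃ C₂ : ℝ, ∀ w ∈ closedBall w₀ δ, ∀ u ∈ Icc u₀ 1, ‖ρ (w / (u : ℝ))‖ ≤ C₂ := by
    have hcomp : IsCompact (closedBall w₀ δ ×ˢ Icc u₀ 1) :=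
      (isCompact_closedBall w₀ δ).prod isCompact_Icc
    have hcont : ContinuousOn (fun q : ℂ × ℝ => ρ (q.1 / (q.2 : ℝ))) (closedBall w₀ δ ×ˢ Icc u₀ 1) := by
      refine hρ.continuousOn.comp (f := fun q : ℂ × ℝ => q.1 / ((q.2 : ℝ) : ℂ)) (t := Ω) ?_ ?_
      · refine ContinuousOn.div continuous_fst.continuousOn
          (Complex.continuous_ofReal.comp continuous_snd).continuousOn fun q hq => ?_
        have : 0 < q.2 := hu0.trans_le hq.2.1
        exact Complex.ofReal_ne_zero.2 this.ne'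
      · intro q hq
        exact hcone _ (hball hq.1) _ ⟨hu0.trans_le hq.2.1, hq.2.2⟩
    obtain ⟨C₂, h⟩ := hcomp.exists_bound_of_continuousOn hcont
    exact ⟨C₂, fun w hw u hu => h (w, u) ⟨hw, hu⟩⟩
  have hC₂0 : 0 ≤ C₂ := by
    have h1 : (1 : ℝ) ∈ Icc u₀ 1 := ⟨min_le_left _ _, le_rfl⟩
    exact (norm_nonneg _).trans (hC₂ w₀ (mem_closedBall_self hδ.le) 1 h1)
  set B : ℝ := |C| / b + C₂ / u₀ with hB
  have hB0 : 0 ≤ B := by positivity
  have hbound : ∀ w ∈ closedBall w₀ δ, ∀ u ∈ Ioc (0 : ℝ) 1,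
      ‖((u⁻¹ : ℝ) : ℂ) * ρ (w / u)‖ ≤ B := by
    intro w hw' u hu
    rw [norm_mul, Complex.norm_real, Real.norm_eq_abs, abs_of_pos (inv_pos.2 hu.1)]
    by_cases huu : u ≤ u₀
    · have h1 : R' ≤ ‖w / (u : ℂ)‖ := by
        rw [norm_div, Complex.norm_real, Real.norm_eq_abs, abs_of_pos hu.1, le_div_iff₀ hu.1]
        have h2 : u ≤ b / R' := huu.trans (min_le_right _ _)
        rw [le_div_iff₀ (by linarith)] at h2
        linarith [hbw w hw', mul_comm u R']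
      have h2 := hC _ (hcone w (hball hw') u hu) ((le_max_left _ _).trans h1)
      have h3 : C / ‖w / (u : ℂ)‖ ≤ |C| * u / b := by
        rw [norm_div, Complex.norm_real, Real.norm_eq_abs, abs_of_pos hu.1]
        have hwp : 0 < ‖w‖ := hb.trans_le (hbw w hw')
        calc C / (‖w‖ / u) ≤ |C| / (‖w‖ / u) :=
              div_le_div_of_nonneg_right (le_abs_self C) (by have := hu.1; positivity)
          _ = |C| * u / ‖w‖ := by field_simp
          _ ≤ |C| * u / b :=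
              div_le_div_of_nonneg_left (by have := hu.1; positivity) hb (hbw w hw')
      calc u⁻¹ * ‖ρ (w / u)‖ ≤ u⁻¹ * (|C| * u / b) := by
            have := hu.1
            gcongr
            exact h2.trans h3
        _ = |C| / b := by have := hu.1; field_simp
        _ ≤ B := by rw [hB]; have : 0 ≤ C₂ / u₀ := by positivity
                    linarith
    · push Not at huu
      have h1 := hC₂ w hw' u ⟨huu.le, hu.2⟩
      calc u⁻¹ * ‖ρ (w / u)‖ ≤ u₀⁻¹ * C₂ := by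
            have := hu.1
            gcongr
        _ = C₂ / u₀ := by rw [div_eq_mul_inv, mul_comm]
        _ ≤ B := by rw [hB]; have : 0 ≤ |C| / b := by positivity
                    linarith
  exact ⟨δ, B, hδ, hB0, hball, hbound⟩

/-- measurability of the regular part -/
theorem reg_meas {Ω : Set ℂ} (hcone : ∀ w ∈ Ω, ∀ u ∈ Ioc (0 : ℝ) 1, w / u ∈ Ω)
    {ρ : ℂ → ℂ} (hρ : DifferentiableOn ℂ ρ Ω) (hK : Measurable K) {w : ℂ} (hw : w ∈ Ω) :
    AEStronglyMeasurable (fun u : ℝ => (K u : ℂ) * ((u⁻¹ : ℝ) : ℂ) * ρ (w / u))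
      (volume.restrict (Ioc (0 : ℝ) 1)) := by
  have h1 : ContinuousOn (fun u : ℝ => ρ (w / (u : ℂ))) (Ioc 0 1) := by
    refine hρ.continuousOn.comp (f := fun u : ℝ => w / ((u : ℝ) : ℂ)) (t := Ω) ?_ ?_
    · refine ContinuousOn.div continuousOn_const Complex.continuous_ofReal.continuousOn fun u hu => ?_
      exact Complex.ofReal_ne_zero.2 hu.1.ne'
    · intro u hu
      exact hcone _ hw _ hu
  refine AEStronglyMeasurable.mul ?_ (h1.aestronglyMeasurable measurableSet_Ioc)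
  refine Measurable.aestronglyMeasurable ?_
  fun_prop

/-- the regular part is integrable -/
theorem reg_int {Ω : Set ℂ} (hΩ : IsOpen Ω) (hcone : ∀ w ∈ Ω, ∀ u ∈ Ioc (0 : ℝ) 1, w / u ∈ Ω)
    (h0 : (0 : ℂ) ∉ Ω) {ρ : ℂ → ℂ} (hρ : DifferentiableOn ℂ ρ Ω) {C R : ℝ}
    (hC : ∀ z ∈ Ω, R ≤ ‖z‖ → ‖ρ z‖ ≤ C / ‖z‖) (hK : Measurable K) (hM : ∀ u, |K u| ≤ M)
    {w : ℂ} (hw : w ∈ Ω) :
    Integrable (fun u : ℝ => (K u : ℂ) * ((u⁻¹ : ℝ) : ℂ) * ρ (w / u))
      (volume.restrict (Ioc (0 : ℝ) 1)) := by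
  have hM0 : 0 ≤ M := (abs_nonneg _).trans (hM 0)
  obtain ⟨δ, B, hδ, hB0, hball, hbound⟩ := reg_bound hΩ hcone h0 hρ hC hw
  refine Integrable.of_bound (reg_meas hcone hρ hK hw) (M * B) ?_
  refine (ae_restrict_iff' measurableSet_Ioc).2 (ae_of_all _ fun u hu => ?_)
  rw [mul_assoc, norm_mul, Complex.norm_real, Real.norm_eq_abs]
  exact mul_le_mul (hM u) (hbound w (mem_closedBall_self hδ.le) u hu) (norm_nonneg _) hM0

/-- the regular part is holomorphic -/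
theorem reg_diff {Ω : Set ℂ} (hΩ : IsOpen Ω) (hcone : ∀ w ∈ Ω, ∀ u ∈ Ioc (0 : ℝ) 1, w / u ∈ Ω)
    (h0 : (0 : ℂ) ∉ Ω) {ρ : ℂ → ℂ} (hρ : DifferentiableOn ℂ ρ Ω) {C R : ℝ}
    (hC : ∀ z ∈ Ω, R ≤ ‖z‖ → ‖ρ z‖ ≤ C / ‖z‖) (hK : Measurable K) (hM : ∀ u, |K u| ≤ M)
    {w₀ : ℂ} (hw : w₀ ∈ Ω) :
    DifferentiableAt ℂ (fun w => ∫ u in Ioc (0 : ℝ) 1, (K u : ℂ) * ((u⁻¹ : ℝ) : ℂ) * ρ (w / u)) w₀ := by
  have hM0 : 0 ≤ M := (abs_nonneg _).trans (hM 0)
  obtain ⟨δ, B, hδ, hB0, hball, hbound⟩ := reg_bound hΩ hcone h0 hρ hC hw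
  refine Pool.Agent.Helper123.CRX.differentiableAt_integral (δ := δ) (bound := fun _ => M * B) hδ
    ?_ ?_ ?_ (integrable_const _)
  · refine (ae_restrict_iff' measurableSet_Ioc).2 (ae_of_all _ fun u hu w hw' => ?_)
    have h1 : DifferentiableAt ℂ ρ (w / u) :=
      (hρ _ (hcone w (hball (ball_subset_closedBall hw')) u hu)).differentiableAt
        (hΩ.mem_nhds (hcone w (hball (ball_subset_closedBall hw')) u hu))
    have h2 : DifferentiableAt ℂ (fun w : ℂ => w / (u : ℂ)) w := by fun_prop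
    have h3 : DifferentiableAt ℂ (fun w : ℂ => ρ (w / (u : ℂ))) w :=
      DifferentiableAt.comp (g := ρ) (f := fun w : ℂ => w / (u : ℂ)) w h1 h2
    exact (h3.const_mul _).differentiableWithinAt
  · intro w hw'
    exact reg_meas hcone hρ hK (hball (ball_subset_closedBall hw'))
  · refine (ae_restrict_iff' measurableSet_Ioc).2 (ae_of_all _ fun u hu w hw' => ?_)
    rw [mul_assoc, norm_mul, Complex.norm_real, Real.norm_eq_abs]
    exact mul_le_mul (hM u) (hbound w (ball_subset_closedBall hw') u hu) (norm_nonneg _) hM0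

/-- the Stieltjes transform is holomorphic off the real line -/
theorem stj_diff (hK : Measurable K) (hM : ∀ u, |K u| ≤ M) {w₀ : ℂ} (hw : w₀.im ≠ 0) :
    DifferentiableAt ℂ (fun w : ℂ => ∫ u in Ioc (0 : ℝ) 1, (K u : ℂ) * (w - u)⁻¹) w₀ := by
  have hM0 : 0 ≤ M := (abs_nonneg _).trans (hM 0)
  set δ : ℝ := |w₀.im| / 2 with hδ
  have hδ0 : 0 < δ := by have := abs_pos.2 hw; positivity
  have hlow : ∀ w ∈ ball w₀ δ, ∀ u : ℝ, δ ≤ ‖w - u‖ := by
    intro w hw' u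
    rw [mem_ball, dist_eq_norm] at hw'
    have h1 : |(w - w₀).im| ≤ ‖w - w₀‖ := Complex.abs_im_le_norm _
    have h2 : |(w - u).im| ≤ ‖w - u‖ := Complex.abs_im_le_norm _
    rw [Complex.sub_im] at h1
    have h3 : (w - (u : ℂ)).im = w.im := by simp
    rw [h3] at h2
    have h4 : |w₀.im| ≤ |w.im| + |w.im - w₀.im| := by
      have := abs_sub_abs_le_abs_sub w₀.im w.im
      rw [abs_sub_comm] at this
      linarith
    linarith
  refine Pool.Agent.Helper123.CRX.differentiableAt_integral (δ := δ) (bound := fun _ => M * δ⁻¹) hδ0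
    ?_ ?_ ?_ (integrable_const _)
  · refine ae_of_all _ fun u w hw' => ?_
    have h1 : w - u ≠ 0 := fun h => by
      have := hlow w hw' u
      rw [h, norm_zero] at this
      linarith
    have h2 : DifferentiableAt ℂ (fun w : ℂ => (w - (u : ℂ))⁻¹) w :=
      DifferentiableAt.inv (by fun_prop) h1
    exact (h2.const_mul _).differentiableWithinAt
  · intro w hw'
    refine Measurable.aestronglyMeasurable ?_
    fun_prop
  · refine ae_of_all _ fun u w hw' => ?_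
    rw [norm_mul, Complex.norm_real, Real.norm_eq_abs, norm_inv]
    have h1 := hlow w hw' u
    exact mul_le_mul (hM u) (inv_anti₀ hδ0 h1) (by positivity) hM0

/-- the thin cone around the ray `[1, ∞)`, with a margin to the left of `1` -/
def cone (η : ℝ) : Set ℂ := {ζ | 1 - η < ζ.re ∧ |ζ.im| < η * ζ.re}

theorem cone_open (η : ℝ) : IsOpen (cone η) :=
  (isOpen_lt continuous_const continuous_re).inter
    (isOpen_lt continuous_im.abs (continuous_const.mul continuous_re))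

theorem cone_div {η : ℝ} (hη1 : η ≤ 1) {w : ℂ} (hw : w ∈ cone η) {u : ℝ}
    (hu : u ∈ Ioc (0 : ℝ) 1) : w / u ∈ cone η := by
  obtain ⟨h1, h2⟩ := hw
  have hr : 0 < w.re := by linarith
  have e1 : (w / (u : ℂ)).re = w.re / u := by simp
  have e2 : (w / (u : ℂ)).im = w.im / u := by simp
  have h3 : w.re ≤ w.re / u := by rw [le_div_iff₀ hu.1]; nlinarith [hu.2]
  refine ⟨?_, ?_⟩
  · show 1 - η < (w / (u : ℂ)).re
    rw [e1]; linarith
  · show |(w / (u : ℂ)).im| < η * (w / (u : ℂ)).re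
    rw [e1, e2, abs_div, abs_of_pos hu.1, ← mul_div_assoc]
    exact div_lt_div_of_pos_right h2 hu.1

theorem zero_notMem_cone {η : ℝ} (hη1 : η ≤ 1) : (0 : ℂ) ∉ cone η := by
  rintro ⟨h1, -⟩
  simp at h1
  linarith

/-- a point of the upper or the lower half of the cone -/
def half (η s : ℝ) : Set ℂ := {ζ | 1 - η < ζ.re ∧ 0 < s * ζ.im ∧ s * ζ.im < η * ζ.re}

theorem half_convex (η s : ℝ) : Convex ℝ (half η s) := by
  have h1 : Convex ℝ {ζ : ℂ | 1 - η < ζ.re} := (convex_halfSpace_re_gt (1 - η))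
  have h2 : Convex ℝ {ζ : ℂ | 0 < s * ζ.im} := by
    have : {ζ : ℂ | 0 < s * ζ.im} = {ζ : ℂ | 0 < (s • Complex.imLm) ζ} := by
      ext ζ; simp
    rw [this]
    exact convex_halfSpace_gt (s • Complex.imLm).isLinear 0
  have h3 : Convex ℝ {ζ : ℂ | s * ζ.im < η * ζ.re} := by
    have : {ζ : ℂ | s * ζ.im < η * ζ.re} = {ζ : ℂ | (s • Complex.imLm - η • Complex.reLm) ζ < 0} := by
      ext ζ
      simp
    rw [this]
    exact convex_halfSpace_lt (s • Complex.imLm - η • Complex.reLm).isLinear 0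
  exact h1.inter (h2.inter h3)

theorem half_subset {η s : ℝ} (hs : s = 1 ∨ s = -1) : half η s ⊆ cone η := by
  rintro ζ ⟨h1, h2, h3⟩
  refine ⟨h1, ?_⟩
  rcases hs with rfl | rfl
  · rw [abs_of_pos (by linarith)]; linarith
  · rw [abs_of_neg (by linarith)]; linarith

theorem half_im {η s : ℝ} {ζ : ℂ} (h : ζ ∈ half η s) : ζ.im ≠ 0 := by
  intro h0
  have := h.2.1
  rw [h0, mul_zero] at this
  exact lt_irrefl _ this

/-- **The jump.** -/
theorem core (hK : Measurable K) (hM : ∀ u, |K u| ≤ M) {η : ℝ} (hη : 0 < η) (hη1 : η ≤ 1)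
    {A ρ : ℂ → ℂ} (hA : DifferentiableOn ℂ A (cone η)) (hρ : DifferentiableOn ℂ ρ (cone η))
    {C R : ℝ} (hC : ∀ z ∈ cone η, R ≤ ‖z‖ → ‖ρ z‖ ≤ C / ‖z‖) {m : ℂ} (hm : m ≠ 0)
    (heq : ∀ s : ℝ, s = 1 ∨ s = -1 → ∃ ζ ∈ half η s, ∀ᶠ w in 𝓝 ζ,
      A w = m * (∫ u in Ioc (0 : ℝ) 1, (K u : ℂ) * (w - u)⁻¹) +
        ∫ u in Ioc (0 : ℝ) 1, (K u : ℂ) * ((u⁻¹ : ℝ) : ℂ) * ρ (w / u)) :
    ∀ᵐ u : ℝ, u ∈ Ioo (1 - η) 1 → K u = 0 := by
  set S : ℂ → ℂ := fun w => ∫ u in Ioc (0 : ℝ) 1, (K u : ℂ) * (w - u)⁻¹ with hS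
  set G : ℂ → ℂ := fun w => ∫ u in Ioc (0 : ℝ) 1, (K u : ℂ) * ((u⁻¹ : ℝ) : ℂ) * ρ (w / u) with hG
  have hGd : ∀ w ∈ cone η, DifferentiableAt ℂ G w := fun w hw =>
    reg_diff (cone_open η) (fun w hw u hu => cone_div hη1 hw hu) (zero_notMem_cone hη1) hρ hC hK hM hw
  have hAd : ∀ w ∈ cone η, DifferentiableAt ℂ A w := fun w hw =>
    (hA w hw).differentiableAt ((cone_open η).mem_nhds hw)
  have hid : ∀ s : ℝ, s = 1 ∨ s = -1 → ∀ w ∈ half η s, m * S w = A w - G w := by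
    intro s hs w hw
    obtain ⟨ζ, hζ, hev⟩ := heq s hs
    have hop : IsOpen (half η s) := by
      refine (isOpen_lt continuous_const continuous_re).inter ?_
      exact (isOpen_lt continuous_const (continuous_const.mul continuous_im)).inter
        (isOpen_lt (continuous_const.mul continuous_im) (continuous_const.mul continuous_re))
    have h1 : AnalyticOnNhd ℂ (fun w => m * S w) (half η s) := by
      refine DifferentiableOn.analyticOnNhd (fun w hw => ?_) hop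
      exact ((stj_diff hK hM (half_im hw)).const_mul m).differentiableWithinAt
    have h2 : AnalyticOnNhd ℂ (fun w => A w - G w) (half η s) := by
      refine DifferentiableOn.analyticOnNhd (fun w hw => ?_) hop
      exact ((hAd w (half_subset hs hw)).sub (hGd w (half_subset hs hw))).differentiableWithinAt
    have h3 := h1.eqOn_of_preconnected_of_eventuallyEq h2 (half_convex η s).isPreconnected hζ (by
      filter_upwards [hev] with z hz
      rw [hz]
      ring)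
    exact h3 hw
  refine ae_zero_of_pois hK hM (by linarith) fun x hx => ?_
  -- continuity at the point `x` of the cone
  have hxc : (x : ℂ) ∈ cone η := by
    refine ⟨by simpa using hx.1, ?_⟩
    have hx0 : 0 < x := by linarith [hx.1]
    have : 0 < η * x := by positivity
    simpa using this
  set H : ℂ → ℂ := fun w => A w - G w with hH
  have hHc : ContinuousAt H x := ((hAd _ hxc).sub (hGd _ hxc)).continuousAt
  have hlim : ∀ s : ℝ, Tendsto (fun ε : ℝ => H (x + s * ε * I)) (𝓝[>] 0) (𝓝 (H x)) := by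
    intro s
    refine hHc.tendsto.comp ?_
    have h1 : Tendsto (fun ε : ℝ => (x : ℂ) + s * ε * I) (𝓝 0) (𝓝 ((x : ℂ) + s * (0 : ℝ) * I)) := by
      have : Continuous fun ε : ℝ => (x : ℂ) + s * ε * I := by fun_prop
      exact this.tendsto 0
    have h2 : (x : ℂ) + s * (0 : ℝ) * I = x := by simp
    rw [h2] at h1
    exact h1.mono_left nhdsWithin_le_nhds
  have hmem : ∀ s : ℝ, s = 1 ∨ s = -1 → ∀ᶠ ε : ℝ in 𝓝[>] 0, (x : ℂ) + s * ε * I ∈ half η s := by
    intro s hs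
    have hx0 : 0 < x := by linarith [hx.1]
    filter_upwards [self_mem_nhdsWithin, Ioo_mem_nhdsGT (show (0 : ℝ) < η * x by positivity)]
      with ε hε hε2
    have hss : s * s = 1 := by rcases hs with rfl | rfl <;> norm_num
    have e1 : ((x : ℂ) + s * ε * I).re = x := by simp
    have e2 : ((x : ℂ) + s * ε * I).im = s * ε := by simp
    refine ⟨?_, ?_, ?_⟩
    · rw [e1]; exact hx.1
    · rw [e2, ← mul_assoc, hss, one_mul]; exact hε
    · rw [e1, e2, ← mul_assoc, hss, one_mul]; exact hε2.2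
  have hdiff : Tendsto (fun ε : ℝ => H (x + (1 : ℝ) * ε * I) - H (x + (-1 : ℝ) * ε * I)) (𝓝[>] 0)
      (𝓝 0) := by
    have := (hlim 1).sub (hlim (-1))
    rwa [sub_self] at this
  have hpois : ∀ᶠ ε : ℝ in 𝓝[>] 0, H (x + (1 : ℝ) * ε * I) - H (x + (-1 : ℝ) * ε * I) =
      m * (-2 * I) * (pois K x ε : ℂ) := by
    filter_upwards [hmem 1 (Or.inl rfl), hmem (-1) (Or.inr rfl), self_mem_nhdsWithin] with ε h1 h2 hε
    have hε' : (0 : ℝ) < ε := hε
    have k1 : H (x + (1 : ℝ) * ε * I) = m * S (x + (1 : ℝ) * ε * I) :=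
      (hid 1 (Or.inl rfl) _ h1).symm
    have k2 : H (x + (-1 : ℝ) * ε * I) = m * S (x + (-1 : ℝ) * ε * I) :=
      (hid (-1) (Or.inr rfl) _ h2).symm
    rw [k1, k2, ← mul_sub, mul_assoc m (-2 * I)]
    refine congrArg (fun z => m * z) ?_
    rw [hS]
    simp only
    have hint : ∀ s : ℝ, s = 1 ∨ s = -1 → Integrable (fun u : ℝ => (K u : ℂ) *
        ((x : ℂ) + (s : ℝ) * ε * I - u)⁻¹) (volume.restrict (Ioc (0 : ℝ) 1)) := by
      intro s hs
      have hne : ∀ u : ℝ, ε ≤ ‖(x : ℂ) + (s : ℝ) * ε * I - u‖ := by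
        intro u
        have h3 : |((x : ℂ) + (s : ℝ) * ε * I - u).im| ≤ _ := Complex.abs_im_le_norm _
        have h4 : ((x : ℂ) + (s : ℝ) * ε * I - u).im = s * ε := by simp
        rw [h4, abs_mul, abs_of_pos hε'] at h3
        rcases hs with rfl | rfl
        · simpa using h3
        · simpa using h3
      refine Integrable.of_bound ?_ (M * ε⁻¹) (ae_of_all _ fun u => ?_)
      · refine Measurable.aestronglyMeasurable ?_
        fun_prop
      · rw [norm_mul, Complex.norm_real, Real.norm_eq_abs, norm_inv]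
        have hM0 : 0 ≤ M := (abs_nonneg _).trans (hM 0)
        exact mul_le_mul (hM u) (inv_anti₀ hε' (hne u)) (by positivity) hM0
    rw [← integral_sub (hint 1 (Or.inl rfl)) (hint (-1) (Or.inr rfl))]
    unfold pois
    rw [← integral_complex_ofReal, ← integral_const_mul]
    refine integral_congr_ae (ae_of_all _ fun u => ?_)
    simp only
    have e1 : ((x : ℂ) + ((1 : ℝ) : ℂ) * ε * I - u) = (x : ℂ) - u + ε * I := by push_cast; ring
    have e2 : ((x : ℂ) + ((-1 : ℝ) : ℂ) * ε * I - u) = (x : ℂ) - u - ε * I := by push_cast; ring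
    rw [e1, e2]
    have n1 : (x : ℂ) - u + ε * I ≠ 0 := by
      intro h
      have := congrArg Complex.im h
      simp at this
      linarith
    have n2 : (x : ℂ) - u - ε * I ≠ 0 := by
      intro h
      have := congrArg Complex.im h
      simp at this
      linarith
    have n3 : (((x - u) ^ 2 + ε ^ 2 : ℝ) : ℂ) = ((x : ℂ) - u + ε * I) * ((x : ℂ) - u - ε * I) := by
      push_cast
      linear_combination ((ε : ℂ) ^ 2) * Complex.I_sq
    have n4 : ((K u * (ε / ((x - u) ^ 2 + ε ^ 2)) : ℝ) : ℂ) =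
        (K u : ℂ) * ((ε : ℂ) * ((((x - u) ^ 2 + ε ^ 2 : ℝ) : ℂ))⁻¹) := by
      push_cast
      rw [div_eq_mul_inv]
    rw [n4, n3, mul_inv, ← mul_sub]
    have n5 : ((x : ℂ) - u + ε * I)⁻¹ - ((x : ℂ) - u - ε * I)⁻¹ =
        (-2 * ε * I) * (((x : ℂ) - u + ε * I)⁻¹ * ((x : ℂ) - u - ε * I)⁻¹) := by
      field_simp
      ring
    rw [n5]
    ring
  have h5 : Tendsto (fun ε : ℝ => m * (-2 * I) * (pois K x ε : ℂ)) (𝓝[>] 0) (𝓝 0) :=
    hdiff.congr' hpois
  have hmI : m * (-2 * I) ≠ 0 := by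
    refine mul_ne_zero hm ?_
    simp
  have h6 := h5.const_mul (m * (-2 * I))⁻¹
  rw [mul_zero] at h6
  have h7 : Tendsto (fun ε : ℝ => (pois K x ε : ℂ)) (𝓝[>] 0) (𝓝 0) := by
    refine h6.congr fun ε => ?_
    rw [← mul_assoc, inv_mul_cancel₀ hmI, one_mul]
  have h8 := (Complex.continuous_re.tendsto 0).comp h7
  simpa [Function.comp_def] using h8

end Pool.Agent.R429.DM
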