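import Pool.Agent.R429.DM.Scale
import Pool.Agent.W189.ML.Final

/-! Weighted Birch and Swinnerton-Dyer sums of an elliptic curve. -/

set_option autoImplicit false

namespace Pool.Agent.R429.DM

open MeasureTheory Filter Topology Set Complex Classical
open Pool.Agent.W263.BSD Pool.Agent.W189.ML

variable {a b : ℤ} {F : ℂ → ℂ} {K : ℝ → ℝ} {M : ℝ}

/-- `∑_{p ≤ X, p ∤ 2Δ} K (log p / log X) log ((N_p + 1) / p)` -/
noncomputable def wtd (a b : ℤ) (K : ℝ → ℝ) (X : ℝ) : ℝ :=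
  ∑ p ∈ (Finset.range (⌊X⌋₊ + 1)).filter (GoodPrime a b),
    K (Real.log p / Real.log X) * Real.log (((pointCount a b p : ℝ) + 1) / p)

theorem cf_cd (a b : ℤ) : CD (cf a b) where
  one := by
    intro p hp
    unfold cf at hp
    by_cases hS : p ∈ SS a b
    · have h25 : (25 : ℝ) ≤ p := by exact_mod_cast hS.2
      rw [Real.le_log_iff_exp_le (by linarith)]
      have := Real.exp_one_lt_d9
      linarith
    · rw [if_neg hS] at hp
      exact absurd rfl hp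
  sum := Pool.Agent.W187.UR.cf_sum a b

theorem ed (hF : IsLSeries a b F) : ED (cf a b) (GG (SS a b) (Ap a b)) (PhiF a b F) where
  cd := cf_cd a b
  Gd := (sdata (eData a b)).Gd
  Φd := PhiF_differentiable hF
  eq := fun _ hw => exp_eq (eData a b) hw (PhiF_hasProd hF hw)

/-- the small primes -/
noncomputable def smp (a b : ℤ) (K : ℝ → ℝ) (X : ℝ) : ℝ :=
  ∑ p ∈ Finset.range 25, if GoodPrime a b p ∧ p ≤ ⌊X⌋₊ then K (Real.log p / Real.log X) * lp a b p else 0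

theorem wtd_eq {X : ℝ} (hX : 1 < X) : wtd a b K X = sK (cf a b) K (Real.log X) + smp a b K X := by
  have hX0 : 0 < X := by linarith
  set T := Real.log X with hT
  have hT0 : 0 < T := Real.log_pos hX
  have hexp : Real.exp T = X := Real.exp_log hX0
  set n := ⌊X⌋₊ with hn
  rw [sK_eq (cf_cd a b), hexp, ← hn]
  unfold wtd smp
  rw [Finset.sum_filter, ← hn, ← hT]
  have h1 : ∑ p ∈ Finset.range 25, (if GoodPrime a b p ∧ p ≤ n then K (Real.log p / T) * lp a b p else 0) =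
      ∑ p ∈ Finset.range (n + 1), if GoodPrime a b p ∧ p < 25 then K (Real.log p / T) * lp a b p else 0 := by
    rw [← Finset.sum_filter, ← Finset.sum_filter]
    refine Finset.sum_congr ?_ fun _ _ => rfl
    ext p
    simp only [Finset.mem_filter, Finset.mem_range]
    constructor
    · rintro ⟨h1, h2, h3⟩
      exact ⟨by omega, h2, h1⟩
    · rintro ⟨h1, h2, h3⟩
      exact ⟨h3, h2, by omega⟩
  rw [h1, ← Finset.sum_add_distrib]
  refine Finset.sum_congr rfl fun p hp => ?_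
  rw [Finset.mem_range] at hp
  unfold tm cf
  by_cases hg : GoodPrime a b p
  · have hp1 : 1 ≤ p := hg.1.one_le
    have hpX : (p : ℝ) ≤ X := by
      have h2 : (p : ℝ) ≤ (n : ℝ) := by exact_mod_cast (by omega : p ≤ n)
      exact h2.trans (Nat.floor_le hX0.le)
    have hlog : Real.log p ≤ T := Real.log_le_log (by exact_mod_cast hp1) hpX
    by_cases h25 : 25 ≤ p
    · have hS : p ∈ SS a b := ⟨hg, h25⟩
      rw [if_pos hg, if_pos hS, if_pos hlog, if_neg (by omega), cc_eq_lp hp1, add_zero]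
      unfold Pool.Agent.W263.BSD.lp
      ring
    · have hS : p ∉ SS a b := fun h => h25 h.2
      rw [if_pos hg, if_neg hS, if_pos hlog, if_pos ⟨hg, by omega⟩]
      unfold Pool.Agent.W263.BSD.lp
      rw [zero_mul, zero_add]
  · have hS : p ∉ SS a b := fun h => hg h.1
    have hn2 : ¬ (GoodPrime a b p ∧ p < 25) := fun h => hg h.1
    rw [if_neg hg, if_neg hS, if_neg hn2, add_zero]
    split_ifs
    · rw [zero_mul]
    · rfl

theorem smp_le (a b : ℤ) (hM : ∀ u, |K u| ≤ M) : ∃ B : ℝ, 0 ≤ B ∧ ∀ X : ℝ, |smp a b K X| ≤ B := by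
  have hM0 : 0 ≤ M := (abs_nonneg _).trans (hM 0)
  refine ⟨∑ p ∈ Finset.range 25, M * |lp a b p|, by positivity, fun X => ?_⟩
  unfold smp
  refine (Finset.abs_sum_le_sum_abs _ _).trans (Finset.sum_le_sum fun p _ => ?_)
  split_ifs
  · rw [abs_mul]
    exact mul_le_mul_of_nonneg_right (hM _) (abs_nonneg _)
  · rw [abs_zero]
    positivity

/-- boundedness of the sums on compact sets -/
theorem sK_bdd {c : ℕ → ℝ} (hc : CD c) (hM : ∀ u, |K u| ≤ M) (T₀ : ℝ) :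
    ∃ B : ℝ, 0 ≤ B ∧ ∀ T ≤ T₀, |sK c K T| ≤ B := by
  have hM0 : 0 ≤ M := (abs_nonneg _).trans (hM 0)
  refine ⟨∑ p ∈ Finset.range (⌊Real.exp T₀⌋₊ + 1), |c p| * M, by positivity, fun T hT => ?_⟩
  rw [sK_eq hc]
  refine (Finset.abs_sum_le_sum_abs _ _).trans ?_
  have h1 : Finset.range (⌊Real.exp T⌋₊ + 1) ⊆ Finset.range (⌊Real.exp T₀⌋₊ + 1) := by
    refine Finset.range_subset_range.2 ?_
    have := Nat.floor_mono (Real.exp_le_exp.2 hT)
    omega
  refine (Finset.sum_le_sum fun p _ => ?_).trans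
    (Finset.sum_le_sum_of_subset_of_nonneg h1 fun p _ _ => by positivity)
  unfold tm
  split_ifs
  · rw [abs_mul]
    exact mul_le_mul_of_nonneg_left (hM _) (abs_nonneg _)
  · rw [abs_zero]
    positivity

/-- the growth hypothesis in terms of `X` -/
theorem grow_of_wtd (hM : ∀ u, |K u| ≤ M) {y : ℝ} (hy : 0 ≤ y)
    (h : ∀ ε : ℝ, 0 < ε → ∃ X₀ : ℝ, ∀ᵐ X : ℝ, X₀ ≤ X → |wtd a b K X| ≤ X ^ (y + ε)) :
    Grow (cf a b) K y := by
  intro ε hε
  obtain ⟨X₀, hX₀⟩ := h ε hε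
  obtain ⟨B₁, hB₁, hs⟩ := smp_le (K := K) a b hM
  obtain ⟨B₂, hB₂, hk⟩ := sK_bdd (cf_cd a b) hM (Real.log (max X₀ 2))
  refine ⟨1 + B₁ + B₂, ?_⟩
  have hnull : volume {T : ℝ | ¬ (X₀ ≤ Real.exp T → |wtd a b K (Real.exp T)| ≤ Real.exp T ^ (y + ε))} = 0 := by
    rw [ae_iff] at hX₀
    set N : Set ℝ := {X | ¬ (X₀ ≤ X → |wtd a b K X| ≤ X ^ (y + ε))} with hN
    have h1 : {T : ℝ | ¬ (X₀ ≤ Real.exp T → |wtd a b K (Real.exp T)| ≤ Real.exp T ^ (y + ε))} ⊆
        Real.log '' (N ∩ Ioi 0) := by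
      intro T hT
      exact ⟨Real.exp T, ⟨hT, Real.exp_pos T⟩, Real.log_exp T⟩
    refine measure_mono_null h1 ?_
    refine addHaar_image_eq_zero_of_differentiableOn_of_addHaar_eq_zero volume ?_
      (measure_mono_null inter_subset_left hX₀)
    intro v hv
    exact (Real.differentiableAt_log (ne_of_gt hv.2)).differentiableWithinAt
  have hae : ∀ᵐ T : ℝ, X₀ ≤ Real.exp T → |wtd a b K (Real.exp T)| ≤ Real.exp T ^ (y + ε) := by
    rw [ae_iff]; exact hnull
  filter_upwards [hae] with T hT hT0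
  have he1 : 1 ≤ Real.exp ((y + ε) * T) := by
    rw [Real.one_le_exp_iff]; positivity
  by_cases hc : Real.log (max X₀ 2) ≤ T
  · have h2 : max X₀ 2 ≤ Real.exp T :=
      (Real.log_le_iff_le_exp (lt_of_lt_of_le two_pos (le_max_right _ _))).1 hc
    have h3 := hT ((le_max_left _ _).trans h2)
    have h4 : 1 < Real.exp T := by
      have := (le_max_right X₀ 2).trans h2
      linarith
    have h5 := wtd_eq (a := a) (b := b) (K := K) h4
    rw [Real.log_exp] at h5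
    have h6 : sK (cf a b) K T = wtd a b K (Real.exp T) - smp a b K (Real.exp T) := by rw [h5]; ring
    rw [h6]
    have h7 : Real.exp T ^ (y + ε) = Real.exp ((y + ε) * T) := by
      rw [← Real.exp_mul]; congr 1; ring
    rw [h7] at h3
    have h8 := hs (Real.exp T)
    calc |wtd a b K (Real.exp T) - smp a b K (Real.exp T)| ≤
        |wtd a b K (Real.exp T)| + |smp a b K (Real.exp T)| := abs_sub _ _
      _ ≤ Real.exp ((y + ε) * T) + B₁ := add_le_add h3 h8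
      _ ≤ (1 + B₁ + B₂) * Real.exp ((y + ε) * T) := by nlinarith
  · push Not at hc
    have h2 := hk T hc.le
    nlinarith

/-- **Omega theorem**: the growth of a weighted sum bounds the zeros. -/
theorem wtd_zero_free (hF : IsLSeries a b F) (hK : Measurable K) (hM : ∀ u, |K u| ≤ M) {y β : ℝ}
    (hy : 0 ≤ y) (hβ0 : 0 < β) (hβ1 : β ≤ 1) (hz : ∀ᵐ u : ℝ, u ∈ Ioo β 1 → K u = 0)
    (hnz : ∀ δ : ℝ, 0 < δ → ¬ ∀ᵐ u : ℝ, u ∈ Ioo (β - δ) β → K u = 0)
    (h : ∀ ε : ℝ, 0 < ε → ∃ X₀ : ℝ, ∀ᵐ X : ℝ, X₀ ≤ X → |wtd a b K X| ≤ X ^ (β * y + ε)) :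
    ∀ s : ℂ, 1 + y < s.re → F s ≠ 0 := by
  intro s hs h0
  have h1 := abs_main (ed hF) hy hβ0 hβ1 hK hM hz hnz
    (grow_of_wtd hM (by positivity) h) (s - 1) (by simp; linarith)
  refine h1 ?_
  unfold PhiF
  rw [show (1 : ℂ) + (s - 1) = s by ring, h0, zero_mul]

/-- the version for a weight that does not vanish almost everywhere -/
theorem wtd_zero_free_zero (hF : IsLSeries a b F) (hK : Measurable K) (hM : ∀ u, |K u| ≤ M)
    (hK0 : ¬ ∀ᵐ u : ℝ, u ∈ Ioc (0 : ℝ) 1 → K u = 0)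
    (h : ∀ ε : ℝ, 0 < ε → ∃ X₀ : ℝ, ∀ᵐ X : ℝ, X₀ ≤ X → |wtd a b K X| ≤ X ^ ε) :
    ∀ s : ℂ, 1 < s.re → F s ≠ 0 := by
  obtain ⟨β, h0, h1, h2, h3⟩ := exists_beta hK0
  intro s hs
  refine wtd_zero_free hF hK hM le_rfl h0 h1 h2 h3 (fun ε hε => ?_) s (by linarith)
  rw [mul_zero, zero_add]
  exact h ε hε

end Pool.Agent.R429.DM
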