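import Pool.Agent.R429.DM.Order2

/-! The order of vanishing from any weight that has a limit at zero. -/

set_option autoImplicit false

namespace Pool.Agent.R429.DM

open MeasureTheory Filter Topology Set Complex Metric
open Pool.Agent.W263.BSD (LInt lapC lapC_differentiableAt lap lapC_ofReal ell ell_lap_limit ell_nonneg
  ell_LInt ell_meas lap_nonneg)

variable {c : ℕ → ℝ} {G Φ : ℂ → ℂ} {K : ℝ → ℝ} {M : ℝ}

/-- the error term -/
theorem I_err (E : ED c G Φ) (hΦ : ∀ z : ℂ, 0 < z.re → Φ z ≠ 0) {B : ℝ}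
    (hG : ∀ w : ℂ, 0 < w.re → ‖w‖ ≤ 5 * w.re → ‖G w‖ ≤ B) {m : ℕ}
    (hm : analyticOrderAt Φ 0 = m) (hM : ∀ u, |K u| ≤ M)
    (h0 : Tendsto K (𝓝[>] 0) (𝓝 0)) {ε : ℝ} (hε : 0 < ε) : ∃ C : ℝ, 0 ≤ C ∧ ∀ w : ℝ, 0 < w → w < 1 →
      ‖∫ u in Ioc (0 : ℝ) 1, (K u : ℂ) * ((u⁻¹ : ℝ) : ℂ) * EE G Φ (w / u)‖ ≤
        ε * (-Real.log w) + C := by
  have hM0 : 0 ≤ M := (abs_nonneg _).trans (hM 0)
  obtain ⟨C₁, hC₁, hC₁'⟩ := EE_bdd E hΦ hG hm
  set ε' : ℝ := ε / (C₁ + 1) with hε'
  have hε'0 : 0 < ε' := by positivity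
  have h1 : ∀ᶠ u in 𝓝[>] (0 : ℝ), |K u| ≤ ε' := by
    have h2 := h0.abs
    rw [abs_zero] at h2
    exact (h2.eventually_lt_const hε'0).mono fun u hu => hu.le
  rw [eventually_nhdsWithin_iff, Metric.eventually_nhds_iff] at h1
  obtain ⟨δ, hδ, h2⟩ := h1
  refine ⟨M * C₁ + M * C₁ / δ, by positivity, fun w hw hw1 => ?_⟩
  set f : ℝ → ℂ := fun u => (K u : ℂ) * ((u⁻¹ : ℝ) : ℂ) * EE G Φ (w / u) with hf
  -- the dominating function
  have hEw : ∀ u : ℝ, 0 < u → ‖EE G Φ ((w : ℂ) / u)‖ ≤ C₁ ∧ ‖EE G Φ ((w : ℂ) / u)‖ ≤ C₁ / (w / u) := by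
    intro u hu
    have e : ((w / u : ℝ) : ℂ) = (w : ℂ) / u := by push_cast; rfl
    have := hC₁' (w / u) (by positivity)
    rwa [e] at this
  by_cases hfi : IntegrableOn f (Ioc 0 1)
  · have hsplit : ∫ u in Ioc (0 : ℝ) 1, f u = (∫ u in Ioc (0 : ℝ) w, f u) + ∫ u in Ioc w 1, f u := by
      rw [← setIntegral_union (Ioc_disjoint_Ioc_of_le le_rfl) measurableSet_Ioc
        (hfi.mono_set (Ioc_subset_Ioc_right hw1.le)) (hfi.mono_set (Ioc_subset_Ioc_left hw.le)),
        Ioc_union_Ioc_eq_Ioc hw.le hw1.le]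
    have h3 : ‖∫ u in Ioc (0 : ℝ) w, f u‖ ≤ M * C₁ := by
      have := norm_setIntegral_le_of_norm_le_const (μ := volume) (s := Ioc (0 : ℝ) w) (f := f)
        (C := M * C₁ / w) (by simp) (fun u hu => by
          rw [hf]
          simp only
          rw [norm_mul, norm_mul, Complex.norm_real, Complex.norm_real, Real.norm_eq_abs,
            Real.norm_eq_abs, abs_of_pos (inv_pos.2 hu.1)]
          have h4 := (hEw u hu.1).2
          have h5 := hM u
          have := hu.1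
          calc |K u| * u⁻¹ * ‖EE G Φ ((w : ℂ) / u)‖ ≤ M * u⁻¹ * (C₁ / (w / u)) := by gcongr
            _ = M * C₁ / w := by field_simp)
      refine this.trans (le_of_eq ?_)
      rw [Measure.real, Real.volume_Ioc, ENNReal.toReal_ofReal (by linarith)]
      field_simp
      ring
    have hinv : IntervalIntegrable (fun u : ℝ => u⁻¹) volume w 1 := by
      refine ContinuousOn.intervalIntegrable ?_
      rw [uIcc_of_le hw1.le]
      exact ContinuousOn.inv₀ continuousOn_id fun u hu => by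
        have : 0 < u := by linarith [hu.1]
        exact this.ne'
    have hgi : IntervalIntegrable (fun u : ℝ => ε * u⁻¹ + M * C₁ / δ) volume w 1 :=
      (hinv.const_mul ε).add intervalIntegrable_const
    have h6 := intervalIntegral.norm_integral_le_of_norm_le (f := f)
      (g := fun u => ε * u⁻¹ + M * C₁ / δ) (a := w) (b := 1) (μ := volume) hw1.le
      (ae_of_all _ fun u hu => by
        have hu0 : 0 < u := by linarith [hu.1]
        have h4 := (hEw u hu0).1
        rw [hf]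
        simp only
        rw [norm_mul, norm_mul, Complex.norm_real, Complex.norm_real, Real.norm_eq_abs,
          Real.norm_eq_abs, abs_of_pos (inv_pos.2 hu0)]
        by_cases hc : u < δ
        · have h5 : |K u| ≤ ε' := h2 (by rw [dist_eq_norm, sub_zero, Real.norm_eq_abs, abs_of_pos hu0]
                                         exact hc) hu0
          have h7 : ε' * C₁ ≤ ε := by
            rw [hε', div_mul_eq_mul_div, div_le_iff₀ (by positivity)]
            nlinarith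
          calc |K u| * u⁻¹ * ‖EE G Φ ((w : ℂ) / u)‖ ≤ ε' * u⁻¹ * C₁ := by gcongr
            _ = ε' * C₁ * u⁻¹ := by ring
            _ ≤ ε * u⁻¹ := by gcongr
            _ ≤ ε * u⁻¹ + M * C₁ / δ := by
                have : 0 ≤ M * C₁ / δ := by positivity
                linarith
        · push Not at hc
          have h5 : u⁻¹ ≤ δ⁻¹ := inv_anti₀ hδ hc
          have h8 := hM u
          calc |K u| * u⁻¹ * ‖EE G Φ ((w : ℂ) / u)‖ ≤ M * δ⁻¹ * C₁ := by gcongr
            _ = M * C₁ / δ := by rw [div_eq_mul_inv]; ring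
            _ ≤ ε * u⁻¹ + M * C₁ / δ := by
                have : 0 ≤ ε * u⁻¹ := by positivity
                linarith) hgi
    rw [intervalIntegral.integral_add (hinv.const_mul ε) intervalIntegrable_const,
      intervalIntegral.integral_const_mul, integral_inv_of_pos hw one_pos,
      intervalIntegral.integral_const, Real.log_div one_ne_zero hw.ne', Real.log_one,
      intervalIntegral.integral_of_le hw1.le] at h6
    rw [hsplit]
    refine (norm_add_le _ _).trans ?_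
    have h7 : (1 - w) • (M * C₁ / δ) ≤ M * C₁ / δ := by
      rw [smul_eq_mul]
      have : 0 ≤ M * C₁ / δ := by positivity
      nlinarith
    linarith
  · have h3 : ∫ u in Ioc (0 : ℝ) 1, f u = 0 := integral_undef hfi
    rw [h3, norm_zero]
    have h4 : 0 ≤ -Real.log w := by
      have := Real.log_nonpos hw.le hw1.le
      linarith
    positivity

/-- **an Abelian theorem** -/
theorem abel {S : ℝ → ℝ} (hL : ∀ w > 0, LInt S w) {ρ : ℝ} {ε B : ℝ}
    (h : ∀ᵐ T : ℝ, 0 < T → |S T - ρ * ell T| ≤ ε * ell T + B) {w : ℝ} (hw : 0 < w) :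
    |w * lap S w - ρ * (w * lap ell w)| ≤ ε * (w * lap ell w) + B := by
  have hexp : LInt (fun _ => B) w := by
    unfold LInt
    exact (exp_int hw 0).1.const_mul B
  have h1 : LInt (fun T => S T - ρ * ell T) w := (hL w hw).sub ((ell_LInt hw).const_mul ρ)
  have h2 : LInt (fun T => ε * ell T + B) w := ((ell_LInt hw).const_mul ε).add hexp
  have e1 : w * lap S w - ρ * (w * lap ell w) = w * lap (fun T => S T - ρ * ell T) w := by
    rw [Pool.Agent.W263.BSD.lap_sub (hL w hw) ((ell_LInt hw).const_mul ρ),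
      Pool.Agent.W263.BSD.lap_const_mul]
    ring
  have e2 : ε * (w * lap ell w) + B = w * lap (fun T => ε * ell T + B) w := by
    rw [Pool.Agent.W263.BSD.lap_add ((ell_LInt hw).const_mul ε) hexp,
      Pool.Agent.W263.BSD.lap_const_mul]
    have : lap (fun _ => B) w = B * (1 / w) := by
      unfold lap
      rw [integral_const_mul, (exp_int hw 0).2]
      simp
    rw [this]
    field_simp
  rw [e1, e2, abs_mul, abs_of_pos hw]
  refine mul_le_mul_of_nonneg_left ?_ hw.le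
  unfold lap
  rw [← Real.norm_eq_abs]
  refine norm_integral_le_of_norm_le h2 ?_
  refine (ae_restrict_iff' measurableSet_Ioi).2 ?_
  filter_upwards [h] with T hT hT0
  rw [norm_mul, Real.norm_eq_abs, Real.norm_eq_abs, abs_of_pos (Real.exp_pos _)]
  exact mul_le_mul_of_nonneg_right (hT hT0) (Real.exp_pos _).le

/-- the order of vanishing -/
theorem order_eq (E : ED c G Φ) (hΦ : ∀ z : ℂ, 0 < z.re → Φ z ≠ 0) {B : ℝ}
    (hG : ∀ w : ℂ, 0 < w.re → ‖w‖ ≤ 5 * w.re → ‖G w‖ ≤ B) {m : ℕ}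
    (hm : analyticOrderAt Φ 0 = m) (hK : Measurable K) (hM : ∀ u, |K u| ≤ M) {κ : ℝ}
    (hκ : Tendsto K (𝓝[>] 0) (𝓝 κ)) {ρ : ℝ}
    (h : ∀ ε : ℝ, 0 < ε → ∃ B : ℝ, 0 ≤ B ∧ ∀ᵐ T : ℝ, 0 < T → |sK c K T - ρ * ell T| ≤ ε * ell T + B)
    (hL : ∀ w > 0, LInt (sK c K) w) : ρ = κ * m := by
  by_contra hne
  have hd : 0 < |ρ - κ * m| := abs_pos.2 (sub_ne_zero.2 hne)
  set ε : ℝ := |ρ - κ * m| / 4 with hε
  have hε0 : 0 < ε := by positivity
  -- the weight minus its limit
  set K₀ : ℝ → ℝ := fun u => K u - κ with hK₀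
  have hM₀ : ∀ u, |K₀ u| ≤ M + |κ| := fun u => by
    rw [hK₀]
    simp only
    calc |K u - κ| ≤ |K u| + |κ| := abs_sub _ _
      _ ≤ _ := by have := hM u; linarith
  have h00 : Tendsto K₀ (𝓝[>] 0) (𝓝 0) := by
    have := hκ.sub_const κ
    rwa [sub_self] at this
  obtain ⟨C₁, hC₁, h1⟩ := I_one E hΦ hG hm
  obtain ⟨C₂, hC₂, h2⟩ := I_err E hΦ hG hm hM₀ h00 hε0
  obtain ⟨B₁, hB₁, h3⟩ := h ε hε0
  -- the transform
  have h4 : ∀ w : ℝ, 0 < w → w < 1 → |w * lap (sK c K) w + κ * m * Real.log w| ≤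
      ε * (-Real.log w) + (C₂ + |κ| * C₁) := by
    intro w hw hw1
    have e1 := lap_sect E hΦ hK hM hL (real_mem_sect hw)
    rw [lapC_ofReal] at e1
    have e2 : ∫ u in Ioc (0 : ℝ) 1, (K u : ℂ) * ((u⁻¹ : ℝ) : ℂ) * EE G Φ (w / u) =
        (∫ u in Ioc (0 : ℝ) 1, (K₀ u : ℂ) * ((u⁻¹ : ℝ) : ℂ) * EE G Φ (w / u)) +
          κ * ∫ u in Ioc (0 : ℝ) 1, ((u⁻¹ : ℝ) : ℂ) * EE G Φ (w / u) := by
      rw [← integral_const_mul, ← integral_add]
      · refine integral_congr_ae (ae_of_all _ fun u => ?_)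
        simp only [hK₀]
        push_cast
        ring
      · exact EE_int E hΦ (hK.sub_const κ) hM₀ hw
      · exact (EE_int_one E hΦ hw).const_mul _
    have e3 : ((w * lap (sK c K) w + κ * m * Real.log w : ℝ) : ℂ) =
        (∫ u in Ioc (0 : ℝ) 1, (K₀ u : ℂ) * ((u⁻¹ : ℝ) : ℂ) * EE G Φ (w / u)) +
          κ * ((∫ u in Ioc (0 : ℝ) 1, ((u⁻¹ : ℝ) : ℂ) * EE G Φ (w / u)) + m * (Real.log w : ℂ)) := by
      rw [Complex.ofReal_add, Complex.ofReal_mul, Complex.ofReal_mul (κ * m), Complex.ofReal_mul κ,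
        Complex.ofReal_natCast, e1, e2]
      ring
    have e4 : |w * lap (sK c K) w + κ * m * Real.log w| =
        ‖((w * lap (sK c K) w + κ * m * Real.log w : ℝ) : ℂ)‖ := by
      rw [Complex.norm_real, Real.norm_eq_abs]
    rw [e4, e3]
    refine (norm_add_le _ _).trans ?_
    rw [norm_mul, Complex.norm_real, Real.norm_eq_abs]
    have h5 := h1 w hw hw1
    have h6 := h2 w hw hw1
    have h7 : |κ| * ‖(∫ u in Ioc (0 : ℝ) 1, ((u⁻¹ : ℝ) : ℂ) * EE G Φ (w / u)) +
      m * (Real.log w : ℂ)‖ ≤ |κ| * C₁ := mul_le_mul_of_nonneg_left h5 (abs_nonneg _)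
    linarith
  -- comparison with `ell`
  have h5 : ∀ᶠ w : ℝ in 𝓝[>] 0, |w * lap ell w + Real.log w| ≤ 2 := by
    have e1 := ell_lap_limit
    have e2 : (-Real.eulerMascheroniConstant : ℝ) ∈ Ioo (-1 : ℝ) 0 := by
      have := Real.one_half_lt_eulerMascheroniConstant
      have := Real.eulerMascheroniConstant_lt_two_thirds
      constructor <;> linarith
    filter_upwards [e1.eventually (Ioo_mem_nhds e2.1 e2.2)] with w hw
    rw [abs_le]
    constructor <;> linarith [hw.1, hw.2]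
  have h6 : ∀ᶠ w : ℝ in 𝓝[>] 0, |ρ - κ * m| * (-Real.log w) ≤
      2 * ε * (-Real.log w) + (C₂ + |κ| * C₁ + 2 * ε + B₁ + 2 * |ρ|) := by
    filter_upwards [h5, Ioo_mem_nhdsGT (show (0 : ℝ) < 1 by norm_num)] with w hw1 hw2
    have hw0 := hw2.1
    have h7 := abel hL h3 hw0
    have h8 := h4 w hw0 hw2.2
    set L := w * lap ell w with hL'
    set A := w * lap (sK c K) w with hA
    set l := Real.log w with hl
    have hl0 : l < 0 := Real.log_neg hw0 hw2.2
    have h9 : (ρ - κ * m) * l = (A + κ * m * l) * (-1) + (A - ρ * L) + ρ * (L + l) := by ring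
    have h10 : |ρ - κ * m| * (-l) = |(ρ - κ * m) * l| := by
      rw [abs_mul, abs_of_neg hl0]
    rw [h10, h9]
    have h11 : |(A + κ * m * l) * (-1) + (A - ρ * L) + ρ * (L + l)| ≤
        |A + κ * m * l| + |A - ρ * L| + |ρ| * |L + l| := by
      refine (abs_add_le _ _).trans ?_
      rw [abs_mul ρ]
      refine add_le_add ((abs_add_le _ _).trans ?_) le_rfl
      rw [abs_mul, abs_neg, abs_one, mul_one]
    have h12 : L ≤ -l + 2 := by
      have := (abs_le.1 hw1).2
      linarith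
    have h13 : |ρ| * |L + l| ≤ 2 * |ρ| := by
      have := mul_le_mul_of_nonneg_left hw1 (abs_nonneg ρ)
      linarith
    have h14 : ε * L ≤ ε * (-l) + 2 * ε := by nlinarith
    linarith
  have h7 : Tendsto (fun w : ℝ => -Real.log w) (𝓝[>] 0) atTop :=
    tendsto_neg_atBot_atTop.comp Real.tendsto_log_nhdsGT_zero
  set D : ℝ := C₂ + |κ| * C₁ + 2 * ε + B₁ + 2 * |ρ| with hD
  have h8 := (h7.eventually_gt_atTop (D / (2 * ε))).and h6
  obtain ⟨w, hw1, hw2⟩ := h8.exists
  have h9 : D < 2 * ε * (-Real.log w) := by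
    rw [div_lt_iff₀ (by positivity)] at hw1
    linarith
  have h10 : |ρ - κ * m| = 4 * ε := by rw [hε]; ring
  rw [h10] at hw2
  linarith

end Pool.Agent.R429.DM
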