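import Pool.Agent.R429.DM.Crv
import Pool.Agent.R429.DM.Order3

/-! Goldfeld's theorem for arbitrary weights. -/

set_option autoImplicit false

namespace Pool.Agent.R429.DM

open MeasureTheory Filter Topology Set Complex Classical
open Pool.Agent.W263.BSD Pool.Agent.W189.ML

variable {a b : ℤ} {F : ℂ → ℂ} {K : ℝ → ℝ} {M : ℝ}

/-- null sets under `exp` -/
theorem ae_exp {P : ℝ → Prop} (h : ∀ᵐ X : ℝ, P X) : ∀ᵐ T : ℝ, P (Real.exp T) := by
  rw [ae_iff] at h ⊢
  have h1 : {T : ℝ | ¬ P (Real.exp T)} ⊆ Real.log '' ({X | ¬ P X} ∩ Ioi 0) := by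
    intro T hT
    exact ⟨Real.exp T, ⟨hT, Real.exp_pos T⟩, Real.log_exp T⟩
  refine measure_mono_null h1 ?_
  refine addHaar_image_eq_zero_of_differentiableOn_of_addHaar_eq_zero volume ?_
    (measure_mono_null inter_subset_left h)
  intro v hv
  exact (Real.differentiableAt_log (ne_of_gt hv.2)).differentiableWithinAt

theorem phi_order (hF : IsLSeries a b F) {m : ℕ} (hm : analyticOrderAt F 1 = m) :
    analyticOrderAt (PhiF a b F) 0 = m := by
  obtain ⟨g, hga, hg1, hgeq⟩ := ((hF.1.analyticAt 1).analyticOrderAt_eq_natCast).1 hm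
  have hPa : AnalyticAt ℂ (PhiF a b F) 0 := (PhiF_differentiable hF).analyticAt 0
  rw [hPa.analyticOrderAt_eq_natCast]
  have hsh : AnalyticAt ℂ (fun w : ℂ => g (1 + w)) 0 := by
    refine AnalyticAt.fun_comp (g := g) (f := fun w : ℂ => 1 + w) ?_ (by fun_prop)
    simpa using hga
  refine ⟨fun w => g (1 + w) * small a b w, hsh.mul (small_differentiable.analyticAt 0), ?_, ?_⟩
  · have := small_ne_zero_real (a := a) (b := b) (w := 0) le_rfl
    refine mul_ne_zero (by simpa using hg1) (by simpa using this)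
  · have h2 : Tendsto (fun w : ℂ => 1 + w) (𝓝 (0 : ℂ)) (𝓝 1) := by
      have : Continuous fun w : ℂ => 1 + w := by fun_prop
      have := this.tendsto 0
      rwa [add_zero] at this
    filter_upwards [h2.eventually hgeq] with w hw
    unfold PhiF
    rw [hw]
    simp only [smul_eq_mul]
    ring

/-- **Goldfeld's theorem for arbitrary weights.** -/
theorem wtd_order (hF : IsLSeries a b F) (hK : Measurable K) (hM : ∀ u, |K u| ≤ M) {κ : ℝ}
    (hκ : Tendsto K (𝓝[>] 0) (𝓝 κ)) (hK0 : ¬ ∀ᵐ u : ℝ, u ∈ Ioc (0 : ℝ) 1 → K u = 0) {ρ : ℝ}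
    (h : ∀ ε : ℝ, 0 < ε → ∃ X₀ : ℝ, ∀ᵐ X : ℝ, X₀ ≤ X →
      |wtd a b K X - ρ * Real.log (Real.log X)| ≤ ε * Real.log (Real.log X)) :
    (∀ s : ℂ, 1 < s.re → F s ≠ 0) ∧ ∃ m : ℕ, analyticOrderAt F 1 = m ∧ ρ = κ * m := by
  have hgrow : ∀ ε : ℝ, 0 < ε → ∃ X₀ : ℝ, ∀ᵐ X : ℝ, X₀ ≤ X → |wtd a b K X| ≤ X ^ (0 + ε) := by
    intro ε hε
    obtain ⟨X₀, hX₀⟩ := h 1 one_pos
    have h1 : (fun X : ℝ => Real.log (Real.log X)) =o[atTop] fun X => X ^ ε := by
      have e1 : (fun X : ℝ => Real.log (Real.log X)) =O[atTop] fun X => Real.log X := by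
        refine Asymptotics.IsBigO.of_bound 1 ?_
        filter_upwards [eventually_ge_atTop (Real.exp 1)] with X hX
        have hl : 1 ≤ Real.log X := by
          rw [Real.le_log_iff_exp_le (lt_of_lt_of_le (Real.exp_pos 1) hX)]
          exact hX
        have h2 : 0 ≤ Real.log (Real.log X) := Real.log_nonneg hl
        rw [Real.norm_eq_abs, Real.norm_eq_abs, abs_of_nonneg h2, abs_of_nonneg (by linarith), one_mul]
        exact (Real.log_le_sub_one_of_pos (by linarith)).trans (by linarith)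
      exact e1.trans_isLittleO (isLittleO_log_rpow_atTop hε)
    have h2 := h1.def (show (0 : ℝ) < 1 / (|ρ| + 1) by positivity)
    obtain ⟨X₁, hX₁⟩ := (h2.and (eventually_ge_atTop (Real.exp 1))).exists_forall_of_atTop
    refine ⟨max X₀ X₁, ?_⟩
    filter_upwards [hX₀] with X hX hXX
    have h3 := hX ((le_max_left _ _).trans hXX)
    obtain ⟨h4, h5⟩ := hX₁ X ((le_max_right _ _).trans hXX)
    have hX0 : 0 < X := lt_of_lt_of_le (Real.exp_pos 1) h5
    have hl : 1 ≤ Real.log X := by
      rw [Real.le_log_iff_exp_le hX0]; exact h5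
    have h6 : 0 ≤ Real.log (Real.log X) := Real.log_nonneg hl
    rw [Real.norm_eq_abs, Real.norm_eq_abs, abs_of_nonneg h6,
      abs_of_pos (Real.rpow_pos_of_pos hX0 _)] at h4
    rw [zero_add]
    have h7 : |wtd a b K X| ≤ |wtd a b K X - ρ * Real.log (Real.log X)| +
        |ρ * Real.log (Real.log X)| := by
      have := abs_add_le (wtd a b K X - ρ * Real.log (Real.log X)) (ρ * Real.log (Real.log X))
      rwa [sub_add_cancel] at this
    rw [abs_mul, abs_of_nonneg h6] at h7
    have h8 : (|ρ| + 1) * Real.log (Real.log X) ≤ X ^ ε := by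
      have := mul_le_mul_of_nonneg_left h4 (show 0 ≤ |ρ| + 1 by positivity)
      refine this.trans (le_of_eq ?_)
      field_simp
    linarith
  have hg := grow_of_wtd (a := a) (b := b) hM le_rfl hgrow
  have E := ed hF
  have hΦ := abs_cor E hK hM hK0 hg
  refine ⟨fun s hs h0 => hΦ (s - 1) (by simp; linarith) ?_, ?_⟩
  · unfold PhiF
    rw [show (1 : ℂ) + (s - 1) = s by ring, h0, zero_mul]
  obtain ⟨m, hm⟩ := order_finite_all hF 1
  refine ⟨m, hm, ?_⟩
  obtain ⟨B, hB⟩ := (sdata (eData a b)).Gb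
  have hL := lint_of_grow E.cd hK hg
  refine order_eq E hΦ hB (phi_order hF hm) hK hM hκ (fun ε hε => ?_) hL
  obtain ⟨X₀, hX₀⟩ := h ε hε
  obtain ⟨B₁, hB₁, hs⟩ := smp_le (K := K) a b hM
  set T₀ : ℝ := max (Real.log (max X₀ 2)) 2 with hT₀
  obtain ⟨B₂, hB₂, hk⟩ := sK_bdd (cf_cd a b) hM T₀
  refine ⟨B₁ + |ρ| + B₂ + |ρ| * ell T₀, ?_, ?_⟩
  · have := ell_nonneg (show (0 : ℝ) ≤ T₀ from le_trans zero_le_two (le_max_right _ _))
    positivity
  filter_upwards [ae_exp hX₀] with T hT hT0
  have he := ell_nonneg hT0.le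
  have he0 := ell_nonneg (show (0 : ℝ) ≤ T₀ from le_trans zero_le_two (le_max_right _ _))
  by_cases hc : T₀ ≤ T
  · have hT2 : 2 ≤ T := (le_max_right _ _).trans hc
    have h2 : max X₀ 2 ≤ Real.exp T :=
      (Real.log_le_iff_le_exp (lt_of_lt_of_le two_pos (le_max_right _ _))).1
        ((le_max_left _ _).trans hc)
    have h3 := hT ((le_max_left _ _).trans h2)
    have h4 : 1 < Real.exp T := by
      have := (le_max_right X₀ 2).trans h2
      linarith
    have h5 := wtd_eq (a := a) (b := b) (K := K) h4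
    rw [Real.log_exp] at h5 h3
    have h6 : sK (cf a b) K T - ρ * ell T = (wtd a b K (Real.exp T) - ρ * Real.log T) -
        smp a b K (Real.exp T) - ρ * (ell T - Real.log T) := by rw [h5]; ring
    have h7 := hs (Real.exp T)
    have h8 : |ell T - Real.log T| ≤ 1 := by
      have e1 := ell_le hT2
      have e2 : Real.log T ≤ ell T := by
        unfold ell
        exact Real.log_le_log (by linarith) (by linarith [Real.exp_pos 1])
      rw [abs_le]
      constructor <;> linarith
    have h9 : Real.log T ≤ ell T := by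
      unfold ell
      exact Real.log_le_log (by linarith) (by linarith [Real.exp_pos 1])
    rw [h6]
    calc |wtd a b K (Real.exp T) - ρ * Real.log T - smp a b K (Real.exp T) -
          ρ * (ell T - Real.log T)| ≤
        |wtd a b K (Real.exp T) - ρ * Real.log T - smp a b K (Real.exp T)| +
          |ρ * (ell T - Real.log T)| := abs_sub _ _
      _ ≤ |wtd a b K (Real.exp T) - ρ * Real.log T| + |smp a b K (Real.exp T)| +
          |ρ * (ell T - Real.log T)| := by
          gcongr
          exact abs_sub _ _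
      _ ≤ ε * Real.log T + B₁ + |ρ| * 1 := by
          rw [abs_mul ρ]
          gcongr
      _ ≤ ε * ell T + (B₁ + |ρ| + B₂ + |ρ| * ell T₀) := by
          have e1 : ε * Real.log T ≤ ε * ell T := mul_le_mul_of_nonneg_left h9 hε.le
          have e2 : 0 ≤ |ρ| * ell T₀ := by positivity
          linarith
  · push Not at hc
    have h2 := hk T hc.le
    have h3 : ell T ≤ ell T₀ := ell_mono hT0.le hc.le
    calc |sK (cf a b) K T - ρ * ell T| ≤ |sK (cf a b) K T| + |ρ * ell T| := abs_sub _ _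
      _ ≤ B₂ + |ρ| * ell T₀ := by
          rw [abs_mul, abs_of_nonneg (by linarith : 0 ≤ ell T)]
          gcongr
      _ ≤ ε * ell T + (B₁ + |ρ| + B₂ + |ρ| * ell T₀) := by
          have e1 : 0 ≤ ε * ell T := by positivity
          have e2 : 0 ≤ |ρ| := abs_nonneg _
          linarith

end Pool.Agent.R429.DM
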