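import Pool.Agent.R429.DM.Conv
import Pool.Agent.R429.DM.Core
import Pool.Agent.W187.UR.Np

/-! The logarithmic derivative of an Euler product. -/

set_option autoImplicit false

namespace Pool.Agent.R429.DM

open MeasureTheory Filter Topology Set Complex
open Pool.Agent.W189.ML (ser)
open Pool.Agent.W187.UR (ser_analytic)

variable {c : ℕ → ℝ} {G Φ : ℂ → ℂ}

theorem DD_le (hc : CD c) : ∃ B : ℝ, 0 ≤ B ∧ ∀ z : ℂ, 2 < z.re → ‖DD c z‖ ≤ B / (z.re - 2) ^ 2 := by
  set S : ℝ := ∑' p : ℕ, |c p| * Real.exp (-(2 * Real.log p)) with hS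
  have hs := hc.sum 2 (by norm_num)
  have hS0 : 0 ≤ S := tsum_nonneg fun p => by positivity
  refine ⟨S * 2, by positivity, fun z hz => ?_⟩
  have hx : 0 < z.re - 2 := by linarith
  have h1 : HasSum (fun p : ℕ => |c p| * Real.exp (-(2 * Real.log p)) * (2 / (z.re - 2) ^ 2))
      (S * (2 / (z.re - 2) ^ 2)) := hs.hasSum.mul_right _
  have h2 : ‖DD c z‖ ≤ S * (2 / (z.re - 2) ^ 2) := by
    refine tsum_of_norm_bounded h1 fun p => ?_
    by_cases h0 : c p = 0
    · simp [h0]
    · have hl := hc.one p h0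
      have hl0 : 0 ≤ Real.log p := by linarith
      rw [norm_mul, Complex.norm_real, Real.norm_eq_abs, norm_exp_le, abs_mul, abs_of_nonneg hl0]
      have e1 : Real.exp (-(z.re * Real.log p)) =
          Real.exp (-(2 * Real.log p)) * Real.exp (-((z.re - 2) * Real.log p)) := by
        rw [← Real.exp_add]; congr 1; ring
      have e2 := sq_exp_le hx (Real.log p) hl0
      have e3 : Real.log p * Real.exp (-((z.re - 2) * Real.log p)) ≤ 2 / (z.re - 2) ^ 2 := by
        refine le_trans ?_ e2
        have : Real.log p ≤ Real.log p ^ 2 := by nlinarith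
        exact mul_le_mul_of_nonneg_right this (Real.exp_pos _).le
      rw [e1]
      have e4 : 0 ≤ |c p| * Real.exp (-(2 * Real.log p)) := by positivity
      calc |c p| * Real.log p * (Real.exp (-(2 * Real.log p)) * Real.exp (-((z.re - 2) * Real.log p)))
          = |c p| * Real.exp (-(2 * Real.log p)) * (Real.log p * Real.exp (-((z.re - 2) * Real.log p))) := by
            ring
        _ ≤ |c p| * Real.exp (-(2 * Real.log p)) * (2 / (z.re - 2) ^ 2) :=
            mul_le_mul_of_nonneg_left e3 e4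
  refine h2.trans (le_of_eq ?_)
  ring

theorem ser_deriv (hc : CD c) {w : ℂ} (hw : 1 < w.re) :
    HasDerivAt (ser (fun p : ℕ => Real.log p) c) (-(DD c w)) w := by
  have hd : DifferentiableAt ℂ (ser (fun p : ℕ => Real.log p) c) w :=
    (ser_analytic (fun p => Real.log_natCast_nonneg p) hc.sum hw).differentiableAt
  set σ : ℝ := (1 + w.re) / 2 with hσ
  have hσ1 : 1 < σ := by rw [hσ]; linarith
  have hσw : σ < w.re := by rw [hσ]; linarith
  have hopen : IsOpen {z : ℂ | σ < z.re} := isOpen_lt continuous_const Complex.continuous_re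
  have h1 := Complex.hasSum_deriv_of_summable_norm
    (F := fun (p : ℕ) (z : ℂ) => (c p : ℂ) * exp (-(z * Real.log p))) (hc.sum σ hσ1)
    (fun i => Differentiable.differentiableOn (by fun_prop)) hopen
    (fun i z hz => by
      rw [norm_mul, Complex.norm_real, Real.norm_eq_abs, norm_exp_le]
      refine mul_le_mul_of_nonneg_left ?_ (abs_nonneg _)
      apply Real.exp_le_exp.2
      have hz' : σ < z.re := hz
      have := Real.log_natCast_nonneg i
      nlinarith) (show w ∈ {z : ℂ | σ < z.re} from hσw)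
  have h2 : deriv (ser (fun p : ℕ => Real.log p) c) w = -(DD c w) := by
    have h3 := h1.tsum_eq
    have h4 : (fun z => ∑' i : ℕ, (c i : ℂ) * exp (-(z * Real.log i))) =
        ser (fun p : ℕ => Real.log p) c := rfl
    rw [h4] at h3
    rw [← h3]
    unfold DD
    rw [← tsum_neg]
    refine tsum_congr fun p => ?_
    have h5 : HasDerivAt (fun z : ℂ => (c p : ℂ) * exp (-(z * Real.log p)))
        ((c p : ℂ) * (exp (-(w * Real.log p)) * (-(1 * Real.log p)))) w :=
      (((hasDerivAt_id w).mul_const _).neg.cexp).const_mul _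
    rw [h5.deriv]
    push_cast
    ring
  rw [← h2]
  exact hd.hasDerivAt

/-- the data of an Euler product -/
structure ED (c : ℕ → ℝ) (G Φ : ℂ → ℂ) : Prop where
  cd : CD c
  Gd : ∀ w : ℂ, 0 < w.re → DifferentiableAt ℂ G w
  Φd : Differentiable ℂ Φ
  eq : ∀ w : ℂ, 1 < w.re → exp (G w - ser (fun p : ℕ => Real.log p) c w) = Φ w

theorem ED.ne_zero (E : ED c G Φ) {w : ℂ} (hw : 1 < w.re) : Φ w ≠ 0 := by
  rw [← E.eq w hw]; exact exp_ne_zero _

theorem ED.logder (E : ED c G Φ) {w : ℂ} (hw : 1 < w.re) :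
    deriv Φ w / Φ w - deriv G w = DD c w := by
  have hopen : IsOpen {z : ℂ | 1 < z.re} := isOpen_lt continuous_const Complex.continuous_re
  have h1 : HasDerivAt (fun z => exp (G z - ser (fun p : ℕ => Real.log p) c z))
      (exp (G w - ser (fun p : ℕ => Real.log p) c w) * (deriv G w - -(DD c w))) w :=
    (((E.Gd w (by linarith)).hasDerivAt).sub (ser_deriv E.cd hw)).cexp
  have h2 : (fun z => exp (G z - ser (fun p : ℕ => Real.log p) c z)) =ᶠ[𝓝 w] Φ := by
    filter_upwards [hopen.mem_nhds hw] with z hz using E.eq z hz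
  have h3 : deriv Φ w = Φ w * (deriv G w - -(DD c w)) := by
    rw [← h2.deriv_eq, h1.deriv, E.eq w hw]
  rw [h3, mul_div_cancel_left₀ _ (E.ne_zero hw)]
  ring

end Pool.Agent.R429.DM
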