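import Pool.Agent.R429.DM.Decay

/-! The last zero on a ray and a thin cone around it. -/

set_option autoImplicit false

namespace Pool.Agent.R429.DM

open MeasureTheory Filter Topology Set Complex

variable {c : ℕ → ℝ} {G Φ : ℂ → ℂ}

/-- the last zero on a ray -/
theorem last_zero (hΦ : Differentiable ℂ Φ) (hne : ∀ w : ℂ, 1 < w.re → Φ w ≠ 0) {z₁ : ℂ}
    (h0 : 0 < z₁.re) (h1 : Φ z₁ = 0) :
    ∃ z₀ : ℂ, z₁.re ≤ z₀.re ∧ Φ z₀ = 0 ∧ ∀ t : ℝ, 1 < t → Φ (z₀ * t) ≠ 0 := by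
  set S : Set ℝ := {t | t ∈ Icc 1 (1 / z₁.re) ∧ Φ (z₁ * t) = 0} with hS
  have hz1 : z₁.re ≤ 1 := by
    by_contra h
    exact hne z₁ (by linarith) h1
  have hcl : IsClosed S := by
    refine isClosed_Icc.inter ?_
    exact isClosed_eq (hΦ.continuous.comp (by fun_prop)) continuous_const
  have hcomp : IsCompact S := isCompact_Icc.of_isClosed_subset hcl fun t ht => ht.1
  have hmem : (1 : ℝ) ∈ S := by
    refine ⟨⟨le_rfl, ?_⟩, by simpa using h1⟩
    rw [le_div_iff₀ h0]; linarith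
  obtain ⟨t, ht, hmax⟩ := hcomp.exists_isGreatest ⟨1, hmem⟩
  have ht0 : 0 < t := by linarith [ht.1.1]
  refine ⟨z₁ * t, ?_, ht.2, fun s hs h => ?_⟩
  · have : (z₁ * (t : ℂ)).re = z₁.re * t := by simp
    rw [this]
    nlinarith [ht.1.1]
  · have e : z₁ * t * s = z₁ * ((t * s : ℝ) : ℂ) := by push_cast; ring
    rw [e] at h
    have h2 : t * s ≤ 1 / z₁.re := by
      rw [le_div_iff₀ h0]
      by_contra h3
      push Not at h3
      refine hne _ ?_ h
      have : (z₁ * ((t * s : ℝ) : ℂ)).re = z₁.re * (t * s) := by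
        rw [Complex.re_mul_ofReal]
      rw [this]; linarith
    have h4 : t * s ∈ S := ⟨⟨by nlinarith [ht.1.1], h2⟩, h⟩
    have h5 := hmax h4
    nlinarith

/-- a thin cone -/
theorem thin_cone (hΦ : Differentiable ℂ Φ) (hne : ∀ w : ℂ, 1 < w.re → Φ w ≠ 0) {z₀ : ℂ} {y : ℝ}
    (hy : 0 ≤ y) (hyz : y < z₀.re) (hlast : ∀ t : ℝ, 1 < t → Φ (z₀ * t) ≠ 0) :
    ∃ η : ℝ, 0 < η ∧ η ≤ 1 / 2 ∧ (∀ ζ ∈ cone η, z₀.re / 2 * ζ.re ≤ (z₀ * ζ).re) ∧
      (∀ ζ ∈ cone η, y < (z₀ * ζ).re) ∧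
      ∀ ζ ∈ cone η, ζ ≠ 1 → Φ (z₀ * ζ) ≠ 0 := by
  have h0 : 0 < z₀.re := by linarith
  set Ψ : ℂ → ℂ := fun ζ => Φ (z₀ * ζ) with hΨ
  have hΨd : Differentiable ℂ Ψ := hΦ.comp (by fun_prop)
  -- the point `1` is isolated
  have hiso : ∀ᶠ ζ in 𝓝[≠] (1 : ℂ), Ψ ζ ≠ 0 := by
    rcases (hΨd.analyticAt 1).eventually_eq_zero_or_eventually_ne_zero with h | h
    · exfalso
      have h1 : AnalyticOnNhd ℂ Ψ univ := fun z _ => hΨd.analyticAt z
      have h2 := h1.eqOn_zero_of_preconnected_of_eventuallyEq_zero isPreconnected_univ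
        (mem_univ _) h
      have h3 : Ψ ((2 / z₀.re : ℝ) : ℂ) = 0 := h2 (mem_univ _)
      refine hne _ ?_ h3
      rw [Complex.re_mul_ofReal]
      field_simp
      norm_num
    · exact h
  rw [eventually_nhdsWithin_iff] at hiso
  obtain ⟨U, hU, hUo, h1U⟩ := eventually_nhds_iff.1 hiso
  -- the other zeros in a rectangle
  set D : ℝ := 2 / z₀.re with hD
  set R : Set ℂ := {ζ | ζ.re ∈ Icc (1 / 2) D ∧ ζ.im ∈ Icc (-D) D} with hR
  have hRc : IsCompact R := by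
    have h1 : R = Icc (1 / 2 : ℝ) D ×ℂ Icc (-D) D := by
      ext ζ; simp [hR, Complex.mem_reProdIm]
    rw [h1]
    exact isCompact_Icc.reProdIm isCompact_Icc
  set Z : Set ℂ := (R ∩ {ζ | Ψ ζ = 0}) ∩ Uᶜ with hZ
  have hZc : IsCompact Z :=
    (hRc.inter_right (isClosed_eq hΨd.continuous continuous_const)).inter_right hUo.isClosed_compl
  have hkey : ∃ η₀ : ℝ, 0 < η₀ ∧ ∀ ζ ∈ Z, η₀ ≤ max (1 - ζ.re) (|ζ.im| / ζ.re) := by
    rcases Z.eq_empty_or_nonempty with h | h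
    · exact ⟨1, one_pos, fun ζ hζ => by rw [h] at hζ; exact absurd hζ (notMem_empty _)⟩
    · have hcont : ContinuousOn (fun ζ : ℂ => max (1 - ζ.re) (|ζ.im| / ζ.re)) Z := by
        refine ContinuousOn.sup (by fun_prop) ?_
        refine ContinuousOn.div (by fun_prop) (by fun_prop) fun ζ hζ => ?_
        have : (1 / 2 : ℝ) ≤ ζ.re := hζ.1.1.1.1
        intro h
        rw [h] at this
        norm_num at this
      obtain ⟨ζ, hζ, hmin⟩ := hZc.exists_isMinOn h hcont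
      refine ⟨_, ?_, fun ζ' hζ' => hmin hζ'⟩
      have hre : (1 / 2 : ℝ) ≤ ζ.re := hζ.1.1.1.1
      have hre0 : 0 < ζ.re := by linarith
      by_contra hneg
      push Not at hneg
      have a1 : 1 - ζ.re ≤ 0 := (le_max_left _ _).trans hneg
      have a2 : |ζ.im| / ζ.re ≤ 0 := (le_max_right _ _).trans hneg
      have a3 : ζ.im = 0 := by
        have : |ζ.im| ≤ 0 := by
          rw [div_le_iff₀ hre0] at a2
          simpa using a2
        exact abs_eq_zero.1 (le_antisymm this (abs_nonneg _))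
      have a4 : ζ = (ζ.re : ℂ) := by
        apply Complex.ext <;> simp [a3]
      rcases eq_or_lt_of_le (show (1 : ℝ) ≤ ζ.re by linarith) with h5 | h5
      · have : ζ = 1 := by rw [a4, ← h5]; simp
        exact hζ.2 (this ▸ h1U)
      · refine hlast ζ.re h5 ?_
        have := hζ.1.2
        rw [mem_setOf_eq, hΨ] at this
        simp only at this
        rw [← a4]
        exact this
  obtain ⟨η₀, hη₀, hη₁⟩ := hkey
  set d : ℝ := z₀.re - y with hd
  have hd0 : 0 < d := by rw [hd]; linarith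
  set D₂ : ℝ := |z₀.im| + z₀.re + 1 with hD₂
  have hD₂0 : 0 < D₂ := by rw [hD₂]; positivity
  set η : ℝ := min (min (min (1 / 2) η₀) (z₀.re / (2 * (|z₀.im| + 1)))) (d / (2 * D₂)) with hη
  have hηpos : 0 < η := lt_min (lt_min (lt_min (by norm_num) hη₀) (by positivity)) (by positivity)
  have hη2 : η ≤ 1 / 2 := ((min_le_left _ _).trans (min_le_left _ _)).trans (min_le_left _ _)
  have hη3 : η ≤ η₀ := ((min_le_left _ _).trans (min_le_left _ _)).trans (min_le_right _ _)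
  have hη5 : η * D₂ ≤ d / 2 := by
    have h1 : η ≤ d / (2 * D₂) := min_le_right _ _
    rw [le_div_iff₀ (by positivity)] at h1
    linarith
  have hη4 : η * |z₀.im| ≤ z₀.re / 2 := by
    have h1 : η ≤ z₀.re / (2 * (|z₀.im| + 1)) := (min_le_left _ _).trans (min_le_right _ _)
    have h2 := abs_nonneg z₀.im
    rw [le_div_iff₀ (by positivity)] at h1
    nlinarith
  have hre : ∀ ζ ∈ cone η, z₀.re / 2 * ζ.re ≤ (z₀ * ζ).re := by
    intro ζ hζ
    have h1 : 0 < ζ.re := by have := hζ.1; linarith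
    rw [Complex.mul_re]
    have h2 : z₀.im * ζ.im ≤ |z₀.im| * |ζ.im| := by rw [← abs_mul]; exact le_abs_self _
    have h3 : |z₀.im| * |ζ.im| ≤ |z₀.im| * (η * ζ.re) :=
      mul_le_mul_of_nonneg_left hζ.2.le (abs_nonneg _)
    nlinarith
  have hre2 : ∀ ζ ∈ cone η, y < (z₀ * ζ).re := by
    intro ζ hζ
    have h1 : 0 < ζ.re := by have := hζ.1; linarith
    have h1' : 1 - η < ζ.re := hζ.1
    rw [Complex.mul_re]
    have h2 : z₀.im * ζ.im ≤ |z₀.im| * |ζ.im| := by rw [← abs_mul]; exact le_abs_self _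
    have h3 : |z₀.im| * |ζ.im| ≤ |z₀.im| * (η * ζ.re) :=
      mul_le_mul_of_nonneg_left hζ.2.le (abs_nonneg _)
    have h4 : η * |z₀.im| + η * z₀.re + η ≤ d / 2 := by
      have : η * D₂ = η * |z₀.im| + η * z₀.re + η := by rw [hD₂]; ring
      linarith
    have h5 : 0 ≤ η * |z₀.im| := by positivity
    have h6 : 0 < z₀.re - η * |z₀.im| := by nlinarith
    have h7 : (z₀.re - η * |z₀.im|) * (1 - η) ≤ (z₀.re - η * |z₀.im|) * ζ.re :=
      mul_le_mul_of_nonneg_left h1'.le h6.le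
    have h8 : y < (z₀.re - η * |z₀.im|) * (1 - η) := by
      have h9 : (z₀.re - η * |z₀.im|) * (1 - η) =
        z₀.re - η * |z₀.im| - η * z₀.re + η * (η * |z₀.im|) := by ring
      rw [h9]
      have : 0 ≤ η * (η * |z₀.im|) := by positivity
      linarith
    nlinarith
  refine ⟨η, hηpos, hη2, hre, hre2, fun ζ hζ hζ1 h => ?_⟩
  have hζre : 1 - η < ζ.re := hζ.1
  have hζim : |ζ.im| < η * ζ.re := hζ.2
  have hpos : 0 < ζ.re := by linarith
  by_cases hζU : ζ ∈ U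
  · exact hU ζ hζU hζ1 h
  · have h1 := hre ζ hζ
    have h2 : (z₀ * ζ).re ≤ 1 := by
      by_contra h3
      exact hne _ (by linarith) h
    have h3 : ζ.re ≤ D := by
      rw [hD, le_div_iff₀ h0]
      nlinarith
    have h4 : |ζ.im| ≤ D := by
      have : η * ζ.re ≤ 1 * D := mul_le_mul (by linarith) h3 hpos.le zero_le_one
      linarith
    have h5 : ζ ∈ Z := by
      refine ⟨⟨⟨⟨by linarith, h3⟩, ⟨by linarith [(abs_le.1 h4).1], (abs_le.1 h4).2⟩⟩, h⟩, hζU⟩
    have h6 := hη₁ ζ h5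
    have h7 : max (1 - ζ.re) (|ζ.im| / ζ.re) < η := by
      refine max_lt (by linarith) ?_
      rw [div_lt_iff₀ hpos]
      exact hζim
    linarith

end Pool.Agent.R429.DM
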