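import Pool.Agent.R429.DM.Order3
import Pool.Agent.TH988.RB.Lan
import Pool.Agent.TH942.OS.Up

/-! One-sided bounds of weighted sums: Landau's theorem. -/

set_option autoImplicit false

namespace Pool.Agent.R429.DM

open MeasureTheory Filter Topology Set Complex
open Pool.Agent.W263.BSD (LInt lapC lapC_differentiableAt lap lapC_ofReal)
open Pool.Agent.TH942.OS (hz hz_spec)

variable {c : ℕ → ℝ} {G Φ : ℂ → ℂ} {K : ℝ → ℝ} {M : ℝ}

/-- exponential growth of the weighted sums from above with exponent at most `y`, up to null sets -/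
def GrowUp (c : ℕ → ℝ) (K : ℝ → ℝ) (y : ℝ) : Prop :=
  ∀ ε : ℝ, 0 < ε → ∃ C : ℝ, ∀ᵐ T : ℝ, 0 < T → sK c K T ≤ C * Real.exp ((y + ε) * T)

/-- the trivial bound -/
theorem grow_one (hc : CD c) (hM : ∀ u, |K u| ≤ M) : Grow c K 1 := by
  have hM0 : 0 ≤ M := (abs_nonneg _).trans (hM 0)
  intro ε hε
  have hs := hc.sum (1 + ε) (by linarith)
  refine ⟨M * ∑' p : ℕ, |c p| * Real.exp (-((1 + ε) * Real.log p)), ae_of_all _ fun T hT => ?_⟩
  have h1 := (hs.hasSum.mul_left M).mul_right (Real.exp ((1 + ε) * T))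
  have h2 : ‖∑' p : ℕ, tm c K p T‖ ≤
      M * (∑' p : ℕ, |c p| * Real.exp (-((1 + ε) * Real.log p))) * Real.exp ((1 + ε) * T) := by
    refine tsum_of_norm_bounded h1 fun p => ?_
    unfold tm
    split_ifs with h
    · rw [Real.norm_eq_abs, abs_mul]
      have h3 : 1 ≤ Real.exp (-((1 + ε) * Real.log p)) * Real.exp ((1 + ε) * T) := by
        rw [← Real.exp_add]
        apply Real.one_le_exp
        nlinarith
      calc |c p| * |K (Real.log p / T)| ≤ |c p| * M * 1 := by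
            rw [mul_one]
            exact mul_le_mul_of_nonneg_left (hM _) (abs_nonneg _)
        _ ≤ |c p| * M * (Real.exp (-((1 + ε) * Real.log p)) * Real.exp ((1 + ε) * T)) := by gcongr
        _ = _ := by ring
    · rw [norm_zero]
      positivity
  rw [Real.norm_eq_abs] at h2
  exact h2

theorem lint_one (hc : CD c) (hK : Measurable K) (hM : ∀ u, |K u| ≤ M) :
    ∀ w : ℝ, 1 < w → LInt (sK c K) w := fun w hw => lint_of_grow hc hK (grow_one hc hM) w hw

/-- the real part of a holomorphic function on the real line is real-analytic -/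
theorem re_analytic {f : ℂ → ℂ} {x : ℝ} (hf : AnalyticAt ℂ f (x : ℂ)) :
    AnalyticAt ℝ (fun x : ℝ => (f x).re) x := by
  have h1 : AnalyticAt ℝ f (x : ℂ) := hf.restrictScalars
  have h2 : AnalyticAt ℝ (fun x : ℝ => (x : ℂ)) x := Complex.ofRealCLM.analyticAt x
  have h3 : AnalyticAt ℝ (fun z : ℂ => z.re) (f x) := Complex.reCLM.analyticAt _
  exact h3.comp_of_eq (h1.comp_of_eq h2 rfl) rfl

/-- the Laplace transform of a nonnegative function is real-analytic -/
theorem lap_analytic {f : ℝ → ℝ} (hf : Measurable f) (h0 : ∀ u, 0 < u → 0 ≤ f u) {s : ℝ}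
    (hL : ∀ w > s, LInt f w) {w : ℝ} (hw : s < w) : AnalyticAt ℝ (fun w => lap f w) w := by
  have h1 : AnalyticAt ℂ (lapC f) (w : ℂ) := by
    have ho : IsOpen {z : ℂ | s < z.re} := isOpen_lt continuous_const Complex.continuous_re
    have h2 : DifferentiableOn ℂ (lapC f) {z : ℂ | s < z.re} := fun z hz =>
      (Pool.Agent.W263.BSD.lapC_differentiableAt_pos hf h0 hL hz).differentiableWithinAt
    exact h2.analyticAt (ho.mem_nhds (by simpa using hw))
  have h3 := re_analytic h1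
  refine h3.congr (Eventually.of_forall fun x => ?_)
  simp only
  rw [lapC_ofReal, Complex.ofReal_re]

/-- the transform of an exponential -/
theorem exp_lint {C α w : ℝ} (hw : α < w) : LInt (fun T => C * Real.exp (α * T)) w ∧
    lap (fun T => C * Real.exp (α * T)) w = C / (w - α) := by
  have h1 : ∀ T : ℝ, C * Real.exp (α * T) * Real.exp (-(w * T)) =
      C * Real.exp (-((w - α) * T)) := fun T => by
    rw [mul_assoc, ← Real.exp_add]
    congr 2
    ring
  have h2 := exp_int (show 0 < w - α by linarith) 0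
  constructor
  · unfold LInt
    simp only [h1]
    exact h2.1.const_mul C
  · unfold lap
    simp only [h1]
    rw [integral_const_mul, h2.2, mul_zero, neg_zero, Real.exp_zero]
    ring

theorem LInt.congr_ae' {f g : ℝ → ℝ} {w : ℝ} (h : ∀ᵐ T : ℝ, 0 < T → f T = g T) (hf : LInt f w) :
    LInt g w := by
  unfold LInt at *
  refine Integrable.congr hf ?_
  refine (ae_restrict_iff' measurableSet_Ioi).2 ?_
  filter_upwards [h] with T hT hT0
  rw [hT hT0]

theorem lap_congr_ae {f g : ℝ → ℝ} {w : ℝ} (h : ∀ᵐ T : ℝ, 0 < T → f T = g T) :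
    lap f w = lap g w := by
  unfold lap
  refine integral_congr_ae ?_
  refine (ae_restrict_iff' measurableSet_Ioi).2 ?_
  filter_upwards [h] with T hT hT0
  rw [hT hT0]

/-- the transform to the right of one, in the coordinate of the cone around a real point -/
theorem lap_real (E : ED c G Φ) (hK : Measurable K) (hM : ∀ u, |K u| ≤ M) {ξ : ℝ} (hξ : 0 < ξ)
    {η : ℝ} (hη1 : η ≤ 1) {m : ℕ} {ρ : ℂ → ℂ} {C R : ℝ} (hη : 0 < η)
    (hρd : DifferentiableOn ℂ ρ (cone η))
    (hE : ∀ ζ : ℂ, 1 < ((ξ : ℂ) * ζ).re → ζ ≠ 1 →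
      (ξ : ℂ) * ζ * DD c ((ξ : ℂ) * ζ) = m / (ζ - 1) + ρ ζ)
    (hdec : ∀ z ∈ cone η, R ≤ ‖z‖ → ‖ρ z‖ ≤ C / ‖z‖) {w : ℝ} (hw : 1 < w) (hwξ : ξ < w) :
    w * lap (sK c K) w = m * (∫ u in Ioc (0 : ℝ) 1, K u * (w / ξ - u)⁻¹) +
      (∫ u in Ioc (0 : ℝ) 1, (K u : ℂ) * ((u⁻¹ : ℝ) : ℂ) * ρ (((w / ξ : ℝ) : ℂ) / u)).re := by
  have hw0 : 0 < w := by linarith
  have hM0 : 0 ≤ M := (abs_nonneg _).trans (hM 0)
  have hwξ1 : 1 < w / ξ := by rw [lt_div_iff₀ hξ]; linarith
  have hmem : ((w / ξ : ℝ) : ℂ) ∈ cone η := by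
    refine ⟨?_, ?_⟩
    · rw [Complex.ofReal_re]; linarith
    · rw [Complex.ofReal_im, Complex.ofReal_re, abs_zero]
      positivity
  have h1 : (w : ℂ) * lapC (sK c K) w = (m : ℂ) * (∫ u in Ioc (0 : ℝ) 1, ((K u * (w / ξ - u)⁻¹ : ℝ) : ℂ)) +
      ∫ u in Ioc (0 : ℝ) 1, (K u : ℂ) * ((u⁻¹ : ℝ) : ℂ) * ρ (((w / ξ : ℝ) : ℂ) / u) := by
    unfold lapC
    rw [lap_eq E.cd hK hM (by simpa using hw), ← integral_const_mul]
    have hR1 : Integrable (fun u : ℝ => (m : ℂ) * ((K u * (w / ξ - u)⁻¹ : ℝ) : ℂ))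
        (volume.restrict (Ioc (0 : ℝ) 1)) := by
      refine Integrable.const_mul ?_ _
      refine Integrable.of_bound ?_ (M * (w / ξ - 1)⁻¹) ?_
      · refine Measurable.aestronglyMeasurable ?_
        fun_prop
      · refine (ae_restrict_iff' measurableSet_Ioc).2 (ae_of_all _ fun u hu => ?_)
        rw [Complex.norm_real, Real.norm_eq_abs, abs_mul, abs_inv,
          abs_of_pos (show 0 < w / ξ - u by linarith [hu.2])]
        exact mul_le_mul (hM u) (inv_anti₀ (by linarith) (by linarith [hu.2]))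
          (inv_nonneg.2 (by linarith [hu.2])) hM0
    have hR2 := reg_int (cone_open η) (fun w hw u hu => cone_div hη1 hw hu) (zero_notMem_cone hη1)
      hρd hdec hK hM hmem
    rw [← integral_const_mul, ← integral_add hR1 hR2]
    refine integral_congr_ae ((ae_restrict_iff' measurableSet_Ioc).2 (ae_of_all _ fun u hu => ?_))
    simp only
    have hu0 : (u : ℂ) ≠ 0 := Complex.ofReal_ne_zero.2 hu.1.ne'
    have hξ0 : (ξ : ℂ) ≠ 0 := Complex.ofReal_ne_zero.2 hξ.ne'
    have e0 : (ξ : ℂ) * (((w / ξ : ℝ) : ℂ) / u) = (w : ℂ) / u := by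
      push_cast
      field_simp
    have h2 : 1 < ((ξ : ℂ) * (((w / ξ : ℝ) : ℂ) / u)).re := by
      rw [e0, ← Complex.ofReal_div, Complex.ofReal_re, lt_div_iff₀ hu.1]
      nlinarith [hu.2]
    have h3 : ((w / ξ : ℝ) : ℂ) / u ≠ 1 := by
      intro h
      rw [← Complex.ofReal_div] at h
      have h4 : w / ξ / u = 1 := by exact_mod_cast h
      rw [div_eq_one_iff_eq hu.1.ne'] at h4
      linarith [hu.2]
    have h4 := hE _ h2 h3
    rw [e0] at h4
    have hne : (w / ξ - u : ℂ) ≠ 0 := by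
      have h5 : (w / ξ - u : ℝ) ≠ 0 := by
        have := hu.2
        intro h6
        linarith
      exact_mod_cast h5
    have h5 : (m : ℂ) / (((w / ξ : ℝ) : ℂ) / u - 1) = m * u / (w / ξ - u) := by
      have h6 : ((w / ξ : ℝ) : ℂ) / (u : ℂ) - 1 = (w / ξ - u) / u := by
        push_cast
        field_simp
      rw [h6, div_div_eq_mul_div]
    rw [h5] at h4
    have h6 : (w : ℂ) * ((K u : ℂ) * ((u ^ 2)⁻¹ : ℝ) * DD c (w / u)) =
        (K u : ℂ) * ((u⁻¹ : ℝ) : ℂ) * (w / u * DD c (w / u)) := by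
      push_cast
      field_simp
    rw [h6, h4]
    push_cast
    field_simp
  rw [lapC_ofReal] at h1
  have h2 := congrArg Complex.re h1
  rw [← Complex.ofReal_mul, Complex.ofReal_re, Complex.add_re, integral_complex_ofReal,
    show (m : ℂ) = ((m : ℝ) : ℂ) by push_cast; rfl, ← Complex.ofReal_mul, Complex.ofReal_re] at h2
  exact h2

/-- **Landau's theorem**, with the contribution of a real zero -/
theorem landau_core (E : ED c G Φ) (hK : Measurable K) (hM : ∀ u, |K u| ≤ M) {ξ : ℝ} (hξ : 0 < ξ)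
    (hlast : ∀ t : ℝ, 1 < t → Φ ((ξ : ℂ) * t) ≠ 0) {A α : ℝ}
    (hU : ∀ᵐ T : ℝ, 0 < T → sK c K T ≤ A * Real.exp (α * T)) {κ₀ : ℝ} (hκ0 : 0 < κ₀)
    (hκ1 : κ₀ < 1) (hpos : Φ ξ = 0 → ∀ᵐ u : ℝ, u ∈ Ioo κ₀ 1 → 0 ≤ K u) :
    ∃ (m : ℕ) (κ : ℝ), (Φ ξ = 0 ↔ m ≠ 0) ∧ κ < 1 ∧ ∀ w > max α (κ * ξ),
      LInt (fun T => A * Real.exp (α * T) - sK c K T + m * hz (fun u => max (K u) 0) 1 ξ T) w := by
  have hM0 : 0 ≤ M := (abs_nonneg _).trans (hM 0)
  obtain ⟨η, hη, hη2, hre, -, hnz⟩ := thin_cone E.Φd (fun w hw => E.ne_zero hw) (z₀ := (ξ : ℂ)) le_rfl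
    (by simpa using hξ) hlast
  have hη1 : η ≤ 1 := by linarith
  obtain ⟨m, ρ, C, R, hm, hρd, hE, hdec⟩ := exists_rho E (z₀ := (ξ : ℂ)) (by simpa using hξ) hη hη2
    hre hnz
  set K₁ : ℝ → ℝ := fun u => max (K u) 0 with hK₁
  set K₂ : ℝ → ℝ := fun u => max (-K u) 0 with hK₂
  have m1 : Measurable K₁ := hK.max measurable_const
  have m2 : Measurable K₂ := hK.neg.max measurable_const
  have b1 : ∀ u, K₁ u ≤ M := fun u => max_le ((le_abs_self _).trans (hM u)) hM0
  have b2 : ∀ u, K₂ u ≤ M := fun u => max_le ((neg_le_abs _).trans (hM u)) hM0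
  have n1 : ∀ u, 0 ≤ K₁ u := fun u => le_max_right _ _
  have n2 : ∀ u, 0 ≤ K₂ u := fun u => le_max_right _ _
  have hdiff : ∀ u, K u = K₁ u - K₂ u := by
    intro u
    rw [hK₁, hK₂]
    simp only
    rcases le_total 0 (K u) with h | h
    · rw [max_eq_left h, max_eq_right (by linarith)]; ring
    · rw [max_eq_right h, max_eq_left (by linarith)]; ring
  obtain ⟨z1, z2, z3, z4⟩ := hz_spec m1 n1 b1 one_pos hξ
  obtain ⟨y1, y2, y3, y4⟩ := hz_spec m2 n2 b2 hκ0 hξ
  have y3' : ∀ w > κ₀ * ξ, LInt (hz K₂ κ₀ ξ) w := fun w hw => (y3 w hw).1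
  have z3' : ∀ w > ξ, LInt (hz K₁ 1 ξ) w := fun w hw => (z3 w (by linarith)).1
  refine ⟨m, max (1 - η) κ₀, hm, max_lt (by linarith) hκ1, ?_⟩
  set a : ℝ := max α (max (1 - η) κ₀ * ξ) with ha
  set f₀ : ℝ → ℝ := fun T => A * Real.exp (α * T) - sK c K T + m * hz K₁ 1 ξ T with hf₀
  set f : ℝ → ℝ := fun T => max (f₀ T) 0 with hf
  have hfm₀ : Measurable f₀ := by
    have h1 := measurable_sK E.cd hK
    have h2 : Measurable fun T : ℝ => A * Real.exp (α * T) := by fun_prop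
    exact (h2.sub h1).add (z1.const_mul _)
  have hfm : Measurable f := hfm₀.max measurable_const
  have hae : ∀ᵐ T : ℝ, 0 < T → f T = f₀ T := by
    filter_upwards [hU] with T hT hT0
    rw [hf]
    simp only
    refine max_eq_left ?_
    have h1 := hT hT0
    have h2 := z2 T hT0.le
    have h3 : (0 : ℝ) ≤ m * hz K₁ 1 ξ T := mul_nonneg (Nat.cast_nonneg m) h2
    rw [hf₀]
    simp only
    linarith
  have hae' : ∀ᵐ T : ℝ, 0 < T → f₀ T = f T := by
    filter_upwards [hae] with T hT hT0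
    exact (hT hT0).symm
  set H : ℂ → ℂ := fun ζ => ∫ u in Ioc (0 : ℝ) 1, (K u : ℂ) * ((u⁻¹ : ℝ) : ℂ) * ρ (ζ / u) with hH
  have hHa : ∀ ζ ∈ cone η, AnalyticAt ℂ H ζ := by
    have h1 : DifferentiableOn ℂ H (cone η) := fun ζ hζ =>
      (reg_diff (cone_open η) (fun w hw u hu => cone_div hη1 hw hu) (zero_notMem_cone hη1)
        hρd hdec hK hM hζ).differentiableWithinAt
    exact fun ζ hζ => h1.analyticAt ((cone_open η).mem_nhds hζ)
  set g : ℝ → ℝ := fun w => A / (w - α) - (H ((w / ξ : ℝ) : ℂ)).re / w + m * lap (hz K₂ κ₀ ξ) w with hg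
  have hapos : ∀ w > a, 0 < w := fun w hw => by
    have h1 : max (1 - η) κ₀ * ξ ≤ a := le_max_right _ _
    have h2 : 0 < max (1 - η) κ₀ * ξ := mul_pos (lt_max_of_lt_right hκ0) hξ
    linarith
  have hga : ∀ w > a, AnalyticAt ℝ g w := by
    intro w hw
    have hw0 := hapos w hw
    have hwα : α < w := lt_of_le_of_lt (le_max_left _ _) hw
    have hwκ : max (1 - η) κ₀ * ξ < w := lt_of_le_of_lt (le_max_right _ _) hw
    have hw1 : (1 - η) * ξ < w := lt_of_le_of_lt (mul_le_mul_of_nonneg_right (le_max_left _ _) hξ.le) hwκ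
    have hw2 : κ₀ * ξ < w := lt_of_le_of_lt (mul_le_mul_of_nonneg_right (le_max_right _ _) hξ.le) hwκ
    have hmem : ((w : ℂ) / (ξ : ℂ)) ∈ cone η := by
      rw [← Complex.ofReal_div]
      refine ⟨?_, ?_⟩
      · rw [Complex.ofReal_re, lt_div_iff₀ hξ]; exact hw1
      · rw [Complex.ofReal_im, Complex.ofReal_re, abs_zero]
        positivity
    have h1 : AnalyticAt ℝ (fun w : ℝ => A / (w - α)) w :=
      analyticAt_const.div (analyticAt_id.sub analyticAt_const) (sub_ne_zero.2 hwα.ne')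
    have h2 : AnalyticAt ℂ (fun z : ℂ => H (z / ξ)) (w : ℂ) :=
      (hHa _ hmem).comp_of_eq (f := fun z : ℂ => z / ξ)
        (analyticAt_id.div analyticAt_const (Complex.ofReal_ne_zero.2 hξ.ne')) rfl
    have h3 : AnalyticAt ℝ (fun w : ℝ => (H ((w / ξ : ℝ) : ℂ)).re) w := by
      refine (re_analytic h2).congr (Eventually.of_forall fun x => ?_)
      simp only
      rw [Complex.ofReal_div]
    have h4 : AnalyticAt ℝ (fun w : ℝ => (H ((w / ξ : ℝ) : ℂ)).re / w) w :=
      h3.div analyticAt_id hw0.ne'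
    have h5 : AnalyticAt ℝ (fun w : ℝ => lap (hz K₂ κ₀ ξ) w) w :=
      lap_analytic y1 (fun u hu => y2 u hu.le) y3' hw2
    exact (h1.sub h4).add (analyticAt_const.mul h5)
  set w₁ : ℝ := max 1 (max α ξ) with hw₁
  have hw₁' : ∀ w > w₁, 1 < w ∧ α < w ∧ ξ < w := fun w hw =>
    ⟨lt_of_le_of_lt (le_max_left _ _) hw,
      lt_of_le_of_lt ((le_max_left _ _).trans (le_max_right _ _)) hw,
      lt_of_le_of_lt ((le_max_right _ _).trans (le_max_right _ _)) hw⟩
  have hL₀ : ∀ w > w₁, LInt f₀ w := by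
    intro w hw
    obtain ⟨h1, h2, h3⟩ := hw₁' w hw
    exact ((exp_lint h2).1.sub (lint_one E.cd hK hM w h1)).add
      (Pool.Agent.W263.BSD.LInt.const_mul (z3' w h3) (m : ℝ))
  have hLf : ∀ w > w₁, LInt f w := fun w hw => LInt.congr_ae' hae' (hL₀ w hw)
  have heq : ∀ w > w₁, a < w → lap f w = g w := by
    intro w hw _
    obtain ⟨h1, h2, h3⟩ := hw₁' w hw
    have hw0 : 0 < w := by linarith
    have e1 : lap f w = A / (w - α) - lap (sK c K) w + m * lap (hz K₁ 1 ξ) w := by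
      rw [lap_congr_ae hae, hf₀, Pool.Agent.W263.BSD.lap_add
        ((exp_lint h2).1.sub (lint_one E.cd hK hM w h1))
        (Pool.Agent.W263.BSD.LInt.const_mul (z3' w h3) (m : ℝ)),
        Pool.Agent.W263.BSD.lap_sub (exp_lint h2).1 (lint_one E.cd hK hM w h1), (exp_lint h2).2,
        Pool.Agent.W263.BSD.lap_const_mul]
    have e2 := lap_real E hK hM hξ hη1 hη hρd hE hdec h1 h3
    have e3 : lap (sK c K) w = (m * (∫ u in Ioc (0 : ℝ) 1, K u * (w / ξ - u)⁻¹)) / w +
        (H ((w / ξ : ℝ) : ℂ)).re / w := by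
      rw [← add_div, eq_div_iff hw0.ne', mul_comm, e2]
    rw [e1, e3, hg]
    simp only
    rcases Nat.eq_zero_or_pos m with hm0 | hm0
    · rw [hm0]
      simp
    have hp := hpos (hm.2 hm0.ne')
    have e4 : (∫ u in Ioc (0 : ℝ) 1, K u * (w / ξ - u)⁻¹) / w =
        lap (hz K₁ 1 ξ) w - lap (hz K₂ κ₀ ξ) w := by
      have k1 : lap (hz K₁ 1 ξ) w = ∫ u in Ioo (0 : ℝ) 1, K₁ u * (ξ / (w * (w - u * ξ))) :=
        (z3 w (by linarith)).2
      have k2 : lap (hz K₂ κ₀ ξ) w = ∫ u in Ioo (0 : ℝ) κ₀, K₂ u * (ξ / (w * (w - u * ξ))) :=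
        (y3 w (by nlinarith)).2
      have hker : ∀ u ∈ Ioo (0 : ℝ) 1, 0 ≤ ξ / (w * (w - u * ξ)) ∧
          ξ / (w * (w - u * ξ)) ≤ ξ / (w * (w - ξ)) := by
        intro u hu
        have h4 : 0 < w - ξ := by linarith
        have h5 : w - ξ ≤ w - u * ξ := by nlinarith [hu.2]
        refine ⟨by have : 0 < w - u * ξ := by linarith
                   positivity, ?_⟩
        apply div_le_div_of_nonneg_left hξ.le (by positivity)
        exact mul_le_mul_of_nonneg_left h5 hw0.le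
      have hint : ∀ J : ℝ → ℝ, Measurable J → (∀ u, 0 ≤ J u) → (∀ u, J u ≤ M) →
          IntegrableOn (fun u => J u * (ξ / (w * (w - u * ξ)))) (Ioo 0 1) := by
        intro J hJ hJ0 hJM
        refine Integrable.of_bound ?_ (M * (ξ / (w * (w - ξ)))) ?_
        · refine Measurable.aestronglyMeasurable ?_
          fun_prop
        · refine (ae_restrict_iff' measurableSet_Ioo).2 (ae_of_all _ fun u hu => ?_)
          obtain ⟨h4, h5⟩ := hker u hu
          rw [Real.norm_of_nonneg (mul_nonneg (hJ0 u) h4)]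
          exact mul_le_mul (hJM u) h5 h4 hM0
      have k3 : ∫ u in Ioo (0 : ℝ) κ₀, K₂ u * (ξ / (w * (w - u * ξ))) =
          ∫ u in Ioo (0 : ℝ) 1, K₂ u * (ξ / (w * (w - u * ξ))) := by
        rw [← integral_indicator measurableSet_Ioo, ← integral_indicator measurableSet_Ioo]
        refine integral_congr_ae ?_
        have hne : ∀ᵐ u : ℝ, u ≠ κ₀ := by rw [ae_iff]; simp
        filter_upwards [hp, hne] with u h4 h5
        by_cases h6 : u ∈ Ioo 0 κ₀
        · rw [indicator_of_mem h6, indicator_of_mem (show u ∈ Ioo (0 : ℝ) 1 from ⟨h6.1, h6.2.trans hκ1⟩)]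
        · rw [indicator_of_notMem h6]
          by_cases h7 : u ∈ Ioo 0 1
          · rw [indicator_of_mem h7]
            have h8 : κ₀ < u := by
              rcases lt_trichotomy u κ₀ with h | h | h
              · exact absurd (⟨h7.1, h⟩ : u ∈ Ioo 0 κ₀) h6
              · exact absurd h h5
              · exact h
            have h9 := h4 ⟨h8, h7.2⟩
            have : K₂ u = 0 := by
              rw [hK₂]
              simp only
              exact max_eq_right (by linarith)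
            rw [this, zero_mul]
          · rw [indicator_of_notMem h7]
      rw [k1, k2, k3, ← integral_sub (hint K₁ m1 n1 b1) (hint K₂ m2 n2 b2),
        integral_Ioc_eq_integral_Ioo, div_eq_mul_inv, ← integral_mul_const]
      refine setIntegral_congr_fun measurableSet_Ioo fun u hu => ?_
      rw [← sub_mul, ← hdiff]
      have h4 : 0 < w - u * ξ := by nlinarith [hu.2]
      have h5 : w / ξ - u = (w - u * ξ) / ξ := by field_simp
      rw [h5, mul_assoc]
      congr 1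
      field_simp
    rw [mul_div_assoc, e4]
    ring
  obtain ⟨h1, -⟩ := Pool.Agent.TH988.RB.landau_lap hfm (fun u _ => le_max_right _ _) hLf hga heq
  intro w hw
  exact LInt.congr_ae' hae (h1 w hw)

/-- the transform converges if there are no real zeros -/
theorem landau_noreal (E : ED c G Φ) {y : ℝ} (hy : 0 ≤ y) (hK : Measurable K) (hM : ∀ u, |K u| ≤ M)
    (hreal : ∀ x : ℝ, y < x → Φ x ≠ 0) (hg : GrowUp c K y) : ∀ w > y, LInt (sK c K) w := by
  intro w hw
  set ε : ℝ := (w - y) / 3 with hε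
  have hε0 : 0 < ε := by rw [hε]; linarith
  obtain ⟨A, hA⟩ := hg ε hε0
  have hξ : 0 < y + 2 * ε := by linarith
  have hne : Φ ((y + 2 * ε : ℝ) : ℂ) ≠ 0 := hreal _ (by linarith)
  obtain ⟨m, κ, hm, hκ, hL⟩ := landau_core E hK hM hξ (fun t ht => by
    rw [← Complex.ofReal_mul]
    exact hreal _ (by nlinarith)) hA (κ₀ := 1 / 2) (by norm_num) (by norm_num)
    (fun h => absurd h hne)
  have hm0 : m = 0 := by
    by_contra h
    exact hne (hm.2 h)
  have h1 := hL w (by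
    refine max_lt (by linarith) ?_
    have : κ * (y + 2 * ε) < 1 * (y + 2 * ε) := mul_lt_mul_of_pos_right hκ hξ
    linarith)
  have h2 := (exp_lint (C := A) (show y + ε < w by linarith)).1.sub h1
  refine LInt.congr_ae' (ae_of_all _ fun T _ => ?_) h2
  simp only [hm0]
  simp

/-- nonnegativity near the top of the support excludes real zeros -/
theorem no_real (E : ED c G Φ) {y : ℝ} (hy : 0 ≤ y) (hK : Measurable K) (hM : ∀ u, |K u| ≤ M)
    {κ₀ : ℝ} (hκ1 : κ₀ < 1) (hpos : ∀ᵐ u : ℝ, u ∈ Ioo κ₀ 1 → 0 ≤ K u)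
    (hnz : ∀ δ : ℝ, 0 < δ → ¬ ∀ᵐ u : ℝ, u ∈ Ioo (1 - δ) 1 → K u = 0)
    (hg : GrowUp c K y) : ∀ x : ℝ, y < x → Φ x ≠ 0 := by
  intro x hx h0
  have hx0 : 0 < x := by linarith
  -- the last real zero
  obtain ⟨ξ, hξx, hξ0, hξl⟩ : ∃ ξ : ℝ, x ≤ ξ ∧ Φ ξ = 0 ∧ ∀ t : ℝ, 1 < t → Φ ((ξ : ℂ) * t) ≠ 0 := by
    set S : Set ℝ := {t | t ∈ Icc x 1 ∧ Φ t = 0} with hS
    have hx1 : x ≤ 1 := by
      by_contra h
      exact E.ne_zero (w := (x : ℂ)) (by simpa using lt_of_not_ge h) h0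
    have hcl : IsClosed S := by
      refine isClosed_Icc.inter ?_
      exact isClosed_eq (E.Φd.continuous.comp (by fun_prop)) continuous_const
    have hcomp : IsCompact S := isCompact_Icc.of_isClosed_subset hcl fun t ht => ht.1
    obtain ⟨ξ, hξ, hmax⟩ := hcomp.exists_isGreatest ⟨x, ⟨⟨le_rfl, hx1⟩, h0⟩⟩
    have hξ0 : 0 < ξ := by linarith [hξ.1.1]
    refine ⟨ξ, hξ.1.1, hξ.2, fun t ht h => ?_⟩
    rw [← Complex.ofReal_mul] at h
    have h1 : ξ * t ≤ 1 := by
      by_contra h2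
      exact E.ne_zero (w := ((ξ * t : ℝ) : ℂ)) (by simpa using lt_of_not_ge h2) h
    have h2 := hmax (⟨⟨by nlinarith [hξ.1.1], h1⟩, h⟩ : ξ * t ∈ S)
    nlinarith
  have hξy : y < ξ := by linarith
  have hξp : 0 < ξ := by linarith
  set α : ℝ := (y + ξ) / 2 with hα
  obtain ⟨A, hA⟩ := hg (α - y) (by rw [hα]; linarith)
  have e0 : y + (α - y) = α := by ring
  rw [e0] at hA
  have hκ2 : max κ₀ (1 / 2) < 1 := max_lt hκ1 (by norm_num)
  obtain ⟨m, κ, hm, hκ, hL⟩ := landau_core E hK hM hξp hξl hA (κ₀ := max κ₀ (1 / 2))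
    (lt_max_of_lt_right (by norm_num)) hκ2 (fun _ => by
      filter_upwards [hpos] with u h1 h2
      exact h1 ⟨lt_of_le_of_lt (le_max_left _ _) h2.1, h2.2⟩)
  have hm0 : m ≠ 0 := hm.1 hξ0
  have hM0 : 0 ≤ M := (abs_nonneg _).trans (hM 0)
  obtain ⟨z1, z2, z3, z4⟩ := hz_spec (w := fun u => max (K u) 0) (W := M) (b := 1) (ξ := ξ)
    (hK.max measurable_const) (fun u => le_max_right _ _)
    (fun u => max_le ((le_abs_self _).trans (hM u)) hM0) one_pos hξp
  have hαξ : α / ξ < 1 := by rw [div_lt_one hξp, hα]; linarith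
  obtain ⟨κ₁, h1, h2⟩ := exists_between (max_lt hαξ (max_lt hκ hκ2))
  have h3 : α / ξ < κ₁ := lt_of_le_of_lt (le_max_left _ _) h1
  have h4 : κ < κ₁ := lt_of_le_of_lt ((le_max_left _ _).trans (le_max_right _ _)) h1
  have h5 : max κ₀ (1 / 2) < κ₁ := lt_of_le_of_lt ((le_max_right _ _).trans (le_max_right _ _)) h1
  have h6 : 0 < κ₁ := by
    have := le_max_right κ₀ (1 / 2)
    linarith
  refine z4 κ₁ h6 h2 (fun h7 => ?_) ?_
  · refine hnz (1 - κ₁) (by linarith) ?_
    filter_upwards [h7, hpos] with u h8 h9 h10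
    have h11 : κ₁ < u := by linarith [h10.1]
    have h12 := h8 ⟨h11, h10.2⟩
    have h13 := h9 ⟨by have := le_max_left κ₀ (1 / 2); linarith, h10.2⟩
    rwa [max_eq_left h13] at h12
  · have h7 := hL (κ₁ * ξ) (max_lt (by rwa [div_lt_iff₀ hξp] at h3)
      (mul_lt_mul_of_pos_right h4 hξp))
    unfold LInt at h7
    refine Integrable.mono' h7 ?_ ?_
    · exact (z1.mul (by fun_prop)).aestronglyMeasurable
    · refine (ae_restrict_iff' measurableSet_Ioi).2 ?_
      filter_upwards [hA] with T hT hT0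
      have h8 := z2 T hT0.le
      rw [Real.norm_eq_abs, abs_mul, abs_of_pos (Real.exp_pos _), abs_of_nonneg h8]
      refine mul_le_mul_of_nonneg_right ?_ (Real.exp_pos _).le
      have h9 := hT hT0
      have h10 : (1 : ℝ) ≤ m := by exact_mod_cast Nat.one_le_iff_ne_zero.2 hm0
      have h11 := mul_le_mul_of_nonneg_right h10 h8
      linarith

theorem growUp_scale (hc : CD c) {θ y : ℝ} (hg : GrowUp c K (θ * y)) (h0 : 0 < θ) (h1 : θ ≤ 1)
    (hz : ∀ᵐ u : ℝ, u ∈ Ioo θ 1 → K u = 0) : GrowUp c (fun u => K (θ * u)) y := by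
  intro ε hε
  obtain ⟨C, hC⟩ := hg (θ * ε) (by positivity)
  refine ⟨C, ?_⟩
  have h2 : ∀ᵐ T : ℝ, 0 < T → sK c K (T / θ) ≤ C * Real.exp ((y + ε) * T) := by
    rw [ae_iff] at hC ⊢
    refine measure_mono_null (fun T hT => ?_) (null_scale hC h0)
    simp only [mem_ofPred_eq, Classical.not_imp] at hT ⊢
    refine ⟨by have := hT.1; positivity, ?_⟩
    have e : (θ * y + θ * ε) * (T / θ) = (y + ε) * T := by field_simp
    rw [e]
    exact hT.2
  filter_upwards [scale_eq hc h0 h1 hz, h2] with T h3 h4 h5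
  rw [h3 h5]
  exact h4 h5

/-- **One-sided bounds**, abstract form. -/
theorem up_main (E : ED c G Φ) {y β : ℝ} (hy : 0 ≤ y) (hβ0 : 0 < β) (hβ1 : β ≤ 1)
    (hK : Measurable K) (hM : ∀ u, |K u| ≤ M) (hz : ∀ᵐ u : ℝ, u ∈ Ioo β 1 → K u = 0)
    (hnz : ∀ δ : ℝ, 0 < δ → ¬ ∀ᵐ u : ℝ, u ∈ Ioo (β - δ) β → K u = 0)
    (hcase : (∃ α < β, ∀ᵐ u : ℝ, u ∈ Ioo α β → 0 ≤ K u) ∨ ∀ x : ℝ, y < x → Φ x ≠ 0)
    (hg : GrowUp c K (β * y)) : ∀ z : ℂ, y < z.re → Φ z ≠ 0 := by
  have hg' := growUp_scale E.cd hg hβ0 hβ1 hz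
  have hKm : Measurable fun u => K (β * u) := hK.comp (by fun_prop)
  have hnull : ∀ {P : ℝ → Prop}, (∀ᵐ u : ℝ, P u) → ∀ᵐ u : ℝ, P (β * u) := by
    intro P hP
    rw [ae_iff] at hP ⊢
    refine measure_mono_null (fun u hu => ?_) (null_scale hP (inv_pos.2 hβ0))
    have e : u / β⁻¹ = β * u := by rw [div_inv_eq_mul, mul_comm]
    simp only [mem_ofPred_eq] at hu ⊢
    rw [e]
    exact hu
  have hnull' : ∀ {P : ℝ → Prop}, (∀ᵐ u : ℝ, P (β * u)) → ∀ᵐ u : ℝ, P u := by
    intro P hP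
    rw [ae_iff] at hP ⊢
    refine measure_mono_null (fun u hu => ?_) (null_scale hP hβ0)
    simp only [mem_ofPred_eq] at hu ⊢
    have e : β * (u / β) = u := by field_simp
    rwa [e]
  have hreal : ∀ x : ℝ, y < x → Φ x ≠ 0 := by
    rcases hcase with ⟨α, hα, hpos⟩ | h
    · refine no_real E hy hKm (fun u => hM _) (κ₀ := α / β) (by rwa [div_lt_one hβ0]) ?_ ?_ hg'
      · filter_upwards [hnull hpos] with u h1 h2
        refine h1 ⟨?_, ?_⟩
        · have := h2.1
          rw [div_lt_iff₀ hβ0] at this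
          linarith
        · have := mul_lt_mul_of_pos_left h2.2 hβ0
          linarith
      · intro δ hδ h
        refine hnz (β * δ) (by positivity) ?_
        refine hnull' ?_
        filter_upwards [h] with u h1 h2
        refine h1 ⟨?_, ?_⟩
        · by_contra h3
          push Not at h3
          have := mul_le_mul_of_nonneg_left h3 hβ0.le
          linarith [h2.1]
        · by_contra h3
          push Not at h3
          have := mul_le_mul_of_nonneg_left h3 hβ0.le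
          linarith [h2.2]
    · exact h
  have hL := landau_noreal E hy hKm (fun u => hM _) hreal hg'
  intro z₁ h1 hz1
  obtain ⟨z₀, hz0, hzz, hlast⟩ := last_zero E.Φd (fun w hw => E.ne_zero hw) (by linarith) hz1
  obtain ⟨η, hη, hη2, hre, hre2, hnzc⟩ := thin_cone E.Φd (fun w hw => E.ne_zero hw) hy
    (by linarith : y < z₀.re) hlast
  have h2 := claimL E (by linarith : 0 < z₀.re) hzz hη hη2 hre hre2 hnzc
    (K := fun u => K (β * u)) hKm (fun u => hM _) hL
  refine hnz (β * η) (by positivity) ?_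
  rw [ae_iff] at h2 ⊢
  refine measure_mono_null (fun u hu => ?_) (null_scale h2 hβ0)
  simp only [mem_ofPred_eq, Classical.not_imp] at hu ⊢
  have e : β * (u / β) = u := by field_simp
  rw [e]
  refine ⟨⟨?_, ?_⟩, hu.2⟩
  · rw [lt_div_iff₀ hβ0]
    linarith [hu.1.1]
  · rw [div_lt_one hβ0]
    exact hu.1.2

end Pool.Agent.R429.DM
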