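import Pool.Agent.R429.DM.OneSd
import Pool.Agent.R429.DM.Crv2

/-! One-sided bounds of weighted sums: the order of vanishing, elliptic curves. -/

set_option autoImplicit false

namespace Pool.Agent.R429.DM

open MeasureTheory Filter Topology Set Complex Classical
open Pool.Agent.W263.BSD Pool.Agent.W189.ML

variable {c : ℕ → ℝ} {G Φ : ℂ → ℂ} {K : ℝ → ℝ} {M : ℝ}

/-- the transform near zero -/
theorem lap_asymp (E : ED c G Φ) (hΦ : ∀ z : ℂ, 0 < z.re → Φ z ≠ 0) {B : ℝ}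
    (hG : ∀ w : ℂ, 0 < w.re → ‖w‖ ≤ 5 * w.re → ‖G w‖ ≤ B) {m : ℕ}
    (hm : analyticOrderAt Φ 0 = m) (hK : Measurable K) (hM : ∀ u, |K u| ≤ M) {κ : ℝ}
    (hκ : Tendsto K (𝓝[>] 0) (𝓝 κ)) (hL : ∀ w > 0, LInt (sK c K) w) {ε : ℝ} (hε0 : 0 < ε) :
    ∃ C : ℝ, ∀ w : ℝ, 0 < w → w < 1 → |w * lap (sK c K) w + κ * m * Real.log w| ≤
      ε * (-Real.log w) + C := by
  -- the weight minus its limit
  set K₀ : ℝ → ℝ := fun u => K u - κ with hK₀
  have hM₀ : ∀ u, |K₀ u| ≤ M + |κ| := fun u => by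
    rw [hK₀]
    simp only
    calc |K u - κ| ≤ |K u| + |κ| := abs_sub _ _
      _ ≤ _ := by have := hM u; linarith
  have h00 : Tendsto K₀ (𝓝[>] 0) (𝓝 0) := by
    have := hκ.sub_const κ
    rwa [sub_self] at this
  obtain ⟨C₁, hC₁, h1⟩ := I_one E hΦ hG hm
  obtain ⟨C₂, hC₂, h2⟩ := I_err E hΦ hG hm hM₀ h00 hε0
  refine ⟨C₂ + |κ| * C₁, fun w hw hw1 => ?_⟩
  have e1 := lap_sect E hΦ hK hM hL (real_mem_sect hw)
  rw [lapC_ofReal] at e1
  have e2 : ∫ u in Ioc (0 : ℝ) 1, (K u : ℂ) * ((u⁻¹ : ℝ) : ℂ) * EE G Φ (w / u) =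
      (∫ u in Ioc (0 : ℝ) 1, (K₀ u : ℂ) * ((u⁻¹ : ℝ) : ℂ) * EE G Φ (w / u)) +
        κ * ∫ u in Ioc (0 : ℝ) 1, ((u⁻¹ : ℝ) : ℂ) * EE G Φ (w / u) := by
    rw [← integral_const_mul, ← integral_add]
    · refine integral_congr_ae (ae_of_all _ fun u => ?_)
      simp only [hK₀]
      push_cast
      ring
    · exact EE_int E hΦ (hK.sub_const κ) hM₀ hw
    · exact (EE_int_one E hΦ hw).const_mul _
  have e3 : ((w * lap (sK c K) w + κ * m * Real.log w : ℝ) : ℂ) =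
      (∫ u in Ioc (0 : ℝ) 1, (K₀ u : ℂ) * ((u⁻¹ : ℝ) : ℂ) * EE G Φ (w / u)) +
        κ * ((∫ u in Ioc (0 : ℝ) 1, ((u⁻¹ : ℝ) : ℂ) * EE G Φ (w / u)) + m * (Real.log w : ℂ)) := by
    rw [Complex.ofReal_add, Complex.ofReal_mul, Complex.ofReal_mul (κ * m), Complex.ofReal_mul κ,
      Complex.ofReal_natCast, e1, e2]
    ring
  have e4 : |w * lap (sK c K) w + κ * m * Real.log w| =
      ‖((w * lap (sK c K) w + κ * m * Real.log w : ℝ) : ℂ)‖ := by
    rw [Complex.norm_real, Real.norm_eq_abs]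
  rw [e4, e3]
  refine (norm_add_le _ _).trans ?_
  rw [norm_mul, Complex.norm_real, Real.norm_eq_abs]
  have h5 := h1 w hw hw1
  have h6 := h2 w hw hw1
  have h7 : |κ| * ‖(∫ u in Ioc (0 : ℝ) 1, ((u⁻¹ : ℝ) : ℂ) * EE G Φ (w / u)) +
    m * (Real.log w : ℂ)‖ ≤ |κ| * C₁ := mul_le_mul_of_nonneg_left h5 (abs_nonneg _)
  linarith

/-- one-sided Abelian theorem -/
theorem abel_up {S : ℝ → ℝ} (hL : ∀ w > 0, LInt S w) {ρ B : ℝ}
    (h : ∀ᵐ T : ℝ, 0 < T → S T ≤ ρ * ell T + B) {w : ℝ} (hw : 0 < w) :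
    w * lap S w ≤ ρ * (w * lap ell w) + B := by
  have hexp : LInt (fun _ => B) w := by
    unfold LInt
    exact (exp_int hw 0).1.const_mul B
  have h2 : LInt (fun T => ρ * ell T + B) w := ((ell_LInt hw).const_mul ρ).add hexp
  have e2 : ρ * (w * lap ell w) + B = w * lap (fun T => ρ * ell T + B) w := by
    rw [Pool.Agent.W263.BSD.lap_add ((ell_LInt hw).const_mul ρ) hexp,
      Pool.Agent.W263.BSD.lap_const_mul]
    have : lap (fun _ => B) w = B * (1 / w) := by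
      unfold lap
      rw [integral_const_mul, (exp_int hw 0).2]
      simp
    rw [this]
    field_simp
  rw [e2]
  refine mul_le_mul_of_nonneg_left ?_ hw.le
  unfold lap
  refine integral_mono_ae (hL w hw) h2 ?_
  refine (ae_restrict_iff' measurableSet_Ioi).2 ?_
  filter_upwards [h] with T hT hT0
  exact mul_le_mul_of_nonneg_right (hT hT0) (Real.exp_pos _).le

/-- the order of vanishing is bounded by the growth from above -/
theorem order_up (E : ED c G Φ) (hΦ : ∀ z : ℂ, 0 < z.re → Φ z ≠ 0) {B : ℝ}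
    (hG : ∀ w : ℂ, 0 < w.re → ‖w‖ ≤ 5 * w.re → ‖G w‖ ≤ B) {m : ℕ}
    (hm : analyticOrderAt Φ 0 = m) (hK : Measurable K) (hM : ∀ u, |K u| ≤ M) {κ : ℝ}
    (hκ : Tendsto K (𝓝[>] 0) (𝓝 κ)) {ρ : ℝ}
    (h : ∀ ε : ℝ, 0 < ε → ∃ B : ℝ, ∀ᵐ T : ℝ, 0 < T → sK c K T ≤ (ρ + ε) * ell T + B)
    (hL : ∀ w > 0, LInt (sK c K) w) : κ * m ≤ ρ := by
  by_contra hne
  push Not at hne
  set ε : ℝ := (κ * m - ρ) / 4 with hε
  have hε0 : 0 < ε := by rw [hε]; linarith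
  obtain ⟨C, hC⟩ := lap_asymp E hΦ hG hm hK hM hκ hL hε0
  obtain ⟨B₁, h3⟩ := h ε hε0
  -- comparison with `ell`
  have h5 : ∀ᶠ w : ℝ in 𝓝[>] 0, |w * lap ell w + Real.log w| ≤ 2 := by
    have e1 := ell_lap_limit
    have e2 : (-Real.eulerMascheroniConstant : ℝ) ∈ Ioo (-1 : ℝ) 0 := by
      have := Real.one_half_lt_eulerMascheroniConstant
      have := Real.eulerMascheroniConstant_lt_two_thirds
      constructor <;> linarith
    filter_upwards [e1.eventually (Ioo_mem_nhds e2.1 e2.2)] with w hw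
    rw [abs_le]
    constructor <;> linarith [hw.1, hw.2]
  have h6 : ∀ᶠ w : ℝ in 𝓝[>] 0, 4 * ε * (-Real.log w) ≤
      2 * ε * (-Real.log w) + (C + B₁ + 2 * |ρ + ε|) := by
    filter_upwards [h5, Ioo_mem_nhdsGT (show (0 : ℝ) < 1 by norm_num)] with w hw1 hw2
    have hw0 := hw2.1
    have h7 := abel_up hL h3 hw0
    have h8 := (abs_le.1 (hC w hw0 hw2.2)).1
    set L := w * lap ell w with hL'
    set A := w * lap (sK c K) w with hA
    set l := Real.log w with hl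
    have h9 : (ρ + ε) * (L + l) ≤ |ρ + ε| * 2 := by
      refine (le_abs_self _).trans ?_
      rw [abs_mul]
      exact mul_le_mul_of_nonneg_left hw1 (abs_nonneg _)
    have h10 : κ * m = ρ + 4 * ε := by rw [hε]; ring
    rw [h10] at h8
    nlinarith
  have h7 : Tendsto (fun w : ℝ => -Real.log w) (𝓝[>] 0) atTop :=
    tendsto_neg_atBot_atTop.comp Real.tendsto_log_nhdsGT_zero
  set D : ℝ := C + B₁ + 2 * |ρ + ε| with hD
  have h8 := (h7.eventually_gt_atTop (D / (2 * ε))).and h6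
  obtain ⟨w, hw1, hw2⟩ := h8.exists
  have h9 : D < 2 * ε * (-Real.log w) := by
    rw [div_lt_iff₀ (by positivity)] at hw1
    linarith
  linarith

variable {a b : ℤ} {F : ℂ → ℂ}

/-- the one-sided growth hypothesis in terms of `X` -/
theorem growUp_of_wtd (hM : ∀ u, |K u| ≤ M) {y : ℝ} (hy : 0 ≤ y)
    (h : ∀ ε : ℝ, 0 < ε → ∃ X₀ : ℝ, ∀ᵐ X : ℝ, X₀ ≤ X → wtd a b K X ≤ X ^ (y + ε)) :
    GrowUp (cf a b) K y := by
  intro ε hε
  obtain ⟨X₀, hX₀⟩ := h ε hε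
  obtain ⟨B₁, hB₁, hs⟩ := smp_le (K := K) a b hM
  obtain ⟨B₂, hB₂, hk⟩ := sK_bdd (cf_cd a b) hM (Real.log (max X₀ 2))
  refine ⟨1 + B₁ + B₂, ?_⟩
  filter_upwards [ae_exp hX₀] with T hT hT0
  have he1 : 1 ≤ Real.exp ((y + ε) * T) := by
    rw [Real.one_le_exp_iff]; positivity
  by_cases hc : Real.log (max X₀ 2) ≤ T
  · have h2 : max X₀ 2 ≤ Real.exp T :=
      (Real.log_le_iff_le_exp (lt_of_lt_of_le two_pos (le_max_right _ _))).1 hc
    have h3 := hT ((le_max_left _ _).trans h2)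
    have h4 : 1 < Real.exp T := by
      have := (le_max_right X₀ 2).trans h2
      linarith
    have h5 := wtd_eq (a := a) (b := b) (K := K) h4
    rw [Real.log_exp] at h5
    have h6 : sK (cf a b) K T = wtd a b K (Real.exp T) - smp a b K (Real.exp T) := by rw [h5]; ring
    rw [h6]
    have h7 : Real.exp T ^ (y + ε) = Real.exp ((y + ε) * T) := by
      rw [← Real.exp_mul]; congr 1; ring
    rw [h7] at h3
    have h8 := (abs_le.1 (hs (Real.exp T))).1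
    calc wtd a b K (Real.exp T) - smp a b K (Real.exp T) ≤
        Real.exp ((y + ε) * T) + B₁ := by linarith
      _ ≤ (1 + B₁ + B₂) * Real.exp ((y + ε) * T) := by nlinarith
  · push Not at hc
    have h2 := (le_abs_self _).trans (hk T hc.le)
    nlinarith

/-- real zeros -/
theorem phi_real {y : ℝ} (hy : 0 ≤ y) (h : ∀ x : ℝ, 1 + y < x → F x ≠ 0) :
    ∀ x : ℝ, y < x → PhiF a b F x ≠ 0 := by
  intro x hx
  unfold PhiF
  refine mul_ne_zero ?_ (small_ne_zero_real (by linarith))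
  have h1 := h (1 + x) (by linarith)
  push_cast at h1
  exact h1

/-- **One-sided bounds** for an elliptic curve: zero-free half planes. -/
theorem wtd_up_zero_free (hF : IsLSeries a b F) (hK : Measurable K) (hM : ∀ u, |K u| ≤ M) {y β : ℝ}
    (hy : 0 ≤ y) (hβ0 : 0 < β) (hβ1 : β ≤ 1) (hz : ∀ᵐ u : ℝ, u ∈ Ioo β 1 → K u = 0)
    (hnz : ∀ δ : ℝ, 0 < δ → ¬ ∀ᵐ u : ℝ, u ∈ Ioo (β - δ) β → K u = 0)
    (hcase : (∃ α < β, ∀ᵐ u : ℝ, u ∈ Ioo α β → 0 ≤ K u) ∨ ∀ x : ℝ, 1 + y < x → F x ≠ 0)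
    (h : ∀ ε : ℝ, 0 < ε → ∃ X₀ : ℝ, ∀ᵐ X : ℝ, X₀ ≤ X → wtd a b K X ≤ X ^ (β * y + ε)) :
    ∀ s : ℂ, 1 + y < s.re → F s ≠ 0 := by
  intro s hs h0
  have h1 := up_main (ed hF) hy hβ0 hβ1 hK hM hz hnz (hcase.imp id fun h => phi_real hy h)
    (growUp_of_wtd hM (by positivity) h) (s - 1) (by simp; linarith)
  refine h1 ?_
  unfold PhiF
  rw [show (1 : ℂ) + (s - 1) = s by ring, h0, zero_mul]

theorem loglog_o {ε : ℝ} (hε : 0 < ε) (C : ℝ) :
    ∀ᶠ X : ℝ in atTop, C * Real.log (Real.log X) ≤ X ^ ε := by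
  have h1 : (fun X : ℝ => Real.log (Real.log X)) =o[atTop] fun X => X ^ ε := by
    have e1 : (fun X : ℝ => Real.log (Real.log X)) =O[atTop] fun X => Real.log X := by
      refine Asymptotics.IsBigO.of_bound 1 ?_
      filter_upwards [eventually_ge_atTop (Real.exp 1)] with X hX
      have hl : 1 ≤ Real.log X := by
        rw [Real.le_log_iff_exp_le (lt_of_lt_of_le (Real.exp_pos 1) hX)]
        exact hX
      have h2 : 0 ≤ Real.log (Real.log X) := Real.log_nonneg hl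
      rw [Real.norm_eq_abs, Real.norm_eq_abs, abs_of_nonneg h2, abs_of_nonneg (by linarith), one_mul]
      exact (Real.log_le_sub_one_of_pos (by linarith)).trans (by linarith)
    exact e1.trans_isLittleO (isLittleO_log_rpow_atTop hε)
  have h2 := h1.def (show (0 : ℝ) < 1 / (|C| + 1) by positivity)
  filter_upwards [h2, eventually_ge_atTop (Real.exp 1)] with X h4 h5
  have hX0 : 0 < X := lt_of_lt_of_le (Real.exp_pos 1) h5
  have hl : 1 ≤ Real.log X := by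
    rw [Real.le_log_iff_exp_le hX0]; exact h5
  have h6 : 0 ≤ Real.log (Real.log X) := Real.log_nonneg hl
  rw [Real.norm_eq_abs, Real.norm_eq_abs, abs_of_nonneg h6,
    abs_of_pos (Real.rpow_pos_of_pos hX0 _)] at h4
  have h8 : (|C| + 1) * Real.log (Real.log X) ≤ X ^ ε := by
    have := mul_le_mul_of_nonneg_left h4 (show 0 ≤ |C| + 1 by positivity)
    refine this.trans (le_of_eq ?_)
    field_simp
  have h9 : C * Real.log (Real.log X) ≤ (|C| + 1) * Real.log (Real.log X) :=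
    mul_le_mul_of_nonneg_right (by linarith [le_abs_self C]) h6
  linarith

/-- **One-sided bounds** for an elliptic curve: the order of vanishing. -/
theorem wtd_up_order (hF : IsLSeries a b F) (hK : Measurable K) (hM : ∀ u, |K u| ≤ M) {κ : ℝ}
    (hκ : Tendsto K (𝓝[>] 0) (𝓝 κ)) {β : ℝ}
    (hβ0 : 0 < β) (hβ1 : β ≤ 1) (hz : ∀ᵐ u : ℝ, u ∈ Ioo β 1 → K u = 0)
    (hnz : ∀ δ : ℝ, 0 < δ → ¬ ∀ᵐ u : ℝ, u ∈ Ioo (β - δ) β → K u = 0)
    (hcase : (∃ α < β, ∀ᵐ u : ℝ, u ∈ Ioo α β → 0 ≤ K u) ∨ ∀ x : ℝ, 1 < x → F x ≠ 0) {ρ : ℝ}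
    (h : ∀ ε : ℝ, 0 < ε → ∃ X₀ : ℝ, ∀ᵐ X : ℝ, X₀ ≤ X →
      wtd a b K X ≤ (ρ + ε) * Real.log (Real.log X)) :
    (∀ s : ℂ, 1 < s.re → F s ≠ 0) ∧ ∃ m : ℕ, analyticOrderAt F 1 = m ∧ κ * m ≤ ρ := by
  have hgrow : ∀ ε : ℝ, 0 < ε → ∃ X₀ : ℝ, ∀ᵐ X : ℝ, X₀ ≤ X → wtd a b K X ≤ X ^ (0 + ε) := by
    intro ε hε
    obtain ⟨X₀, hX₀⟩ := h 1 one_pos
    obtain ⟨X₁, hX₁⟩ := (loglog_o hε (ρ + 1)).exists_forall_of_atTop
    refine ⟨max X₀ X₁, ?_⟩
    filter_upwards [hX₀] with X hX hXX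
    rw [zero_add]
    exact (hX ((le_max_left _ _).trans hXX)).trans (hX₁ X ((le_max_right _ _).trans hXX))
  have hne : ∀ s : ℂ, 1 < s.re → F s ≠ 0 := by
    intro s hs
    refine wtd_up_zero_free hF hK hM le_rfl hβ0 hβ1 hz hnz ?_ (fun ε hε => ?_) s (by linarith)
    · rcases hcase with h1 | h1
      · exact Or.inl h1
      · exact Or.inr fun x hx => h1 x (by linarith)
    · rw [mul_zero]
      exact hgrow ε hε
  refine ⟨hne, ?_⟩
  have E := ed hF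
  have hΦ : ∀ z : ℂ, 0 < z.re → PhiF a b F z ≠ 0 :=
    up_main E le_rfl hβ0 hβ1 hK hM hz hnz (Or.inr (phi_real le_rfl fun x hx =>
      hne x (by simpa using hx))) (growUp_of_wtd hM (by simp) (by simpa using hgrow))
  obtain ⟨m, hm⟩ := order_finite_all hF 1
  refine ⟨m, hm, ?_⟩
  obtain ⟨B, hB⟩ := (sdata (eData a b)).Gb
  have hL := landau_noreal E le_rfl hK hM (fun x hx => hΦ x (by simpa using hx))
    (growUp_of_wtd hM le_rfl hgrow)
  refine order_up E hΦ hB (phi_order hF hm) hK hM hκ (fun ε hε => ?_) hL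
  obtain ⟨X₀, hX₀⟩ := h ε hε
  obtain ⟨B₁, hB₁, hs⟩ := smp_le (K := K) a b hM
  set T₀ : ℝ := max (Real.log (max X₀ 2)) 2 with hT₀
  obtain ⟨B₂, hB₂, hk⟩ := sK_bdd (cf_cd a b) hM T₀
  refine ⟨B₁ + |ρ + ε| + B₂ + |ρ + ε| * ell T₀, ?_⟩
  have he0 := ell_nonneg (show (0 : ℝ) ≤ T₀ from le_trans zero_le_two (le_max_right _ _))
  filter_upwards [ae_exp hX₀] with T hT hT0
  have he := ell_nonneg hT0.le
  by_cases hc : T₀ ≤ T
  · have hT2 : 2 ≤ T := (le_max_right _ _).trans hc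
    have h2 : max X₀ 2 ≤ Real.exp T :=
      (Real.log_le_iff_le_exp (lt_of_lt_of_le two_pos (le_max_right _ _))).1
        ((le_max_left _ _).trans hc)
    have h3 := hT ((le_max_left _ _).trans h2)
    have h4 : 1 < Real.exp T := by
      have := (le_max_right X₀ 2).trans h2
      linarith
    have h5 := wtd_eq (a := a) (b := b) (K := K) h4
    rw [Real.log_exp] at h5 h3
    have h7 := (abs_le.1 (hs (Real.exp T))).1
    have h8 : |ell T - Real.log T| ≤ 1 := by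
      have e1 := ell_le hT2
      have e2 : Real.log T ≤ ell T := by
        unfold ell
        exact Real.log_le_log (by linarith) (by linarith [Real.exp_pos 1])
      rw [abs_le]
      constructor <;> linarith
    have h9 : (ρ + ε) * Real.log T ≤ (ρ + ε) * ell T + |ρ + ε| := by
      have e1 : (ρ + ε) * (Real.log T - ell T) ≤ |ρ + ε| * 1 := by
        refine (le_abs_self _).trans ?_
        rw [abs_mul, abs_sub_comm]
        exact mul_le_mul_of_nonneg_left h8 (abs_nonneg _)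
      linarith
    have h10 : 0 ≤ |ρ + ε| * ell T₀ := by positivity
    linarith
  · push Not at hc
    have h2 := (le_abs_self _).trans (hk T hc.le)
    have h3 : ell T ≤ ell T₀ := ell_mono hT0.le hc.le
    have h4 : -((ρ + ε) * ell T) ≤ |ρ + ε| * ell T₀ := by
      calc -((ρ + ε) * ell T) ≤ |(ρ + ε) * ell T| := neg_le_abs _
        _ = |ρ + ε| * ell T := by rw [abs_mul, abs_of_nonneg (show 0 ≤ ell T by linarith)]
        _ ≤ _ := mul_le_mul_of_nonneg_left h3 (abs_nonneg _)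
    have h5 : 0 ≤ |ρ + ε| := abs_nonneg _
    linarith

/-- sums with the weight `-K` -/
theorem wtd_neg (X : ℝ) : wtd a b (fun u => -K u) X = -wtd a b K X := by
  unfold wtd
  rw [← Finset.sum_neg_distrib]
  exact Finset.sum_congr rfl fun p _ => by ring

/-- **Bounds from below**: zero-free half planes. -/
theorem wtd_down_zero_free (hF : IsLSeries a b F) (hK : Measurable K) (hM : ∀ u, |K u| ≤ M)
    {y β : ℝ} (hy : 0 ≤ y) (hβ0 : 0 < β) (hβ1 : β ≤ 1) (hz : ∀ᵐ u : ℝ, u ∈ Ioo β 1 → K u = 0)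
    (hnz : ∀ δ : ℝ, 0 < δ → ¬ ∀ᵐ u : ℝ, u ∈ Ioo (β - δ) β → K u = 0)
    (hr : ∀ x : ℝ, 1 + y < x → F x ≠ 0)
    (h : ∀ ε : ℝ, 0 < ε → ∃ X₀ : ℝ, ∀ᵐ X : ℝ, X₀ ≤ X → -X ^ (β * y + ε) ≤ wtd a b K X) :
    ∀ s : ℂ, 1 + y < s.re → F s ≠ 0 := by
  refine wtd_up_zero_free hF hK.neg (fun u => by simpa using hM u) hy hβ0 hβ1 ?_ ?_ (Or.inr hr) ?_
  · filter_upwards [hz] with u h1 h2
    simp [h1 h2]
  · intro δ hδ h'
    refine hnz δ hδ ?_
    filter_upwards [h'] with u h1 h2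
    simpa using h1 h2
  · intro ε hε
    obtain ⟨X₀, hX₀⟩ := h ε hε
    refine ⟨X₀, ?_⟩
    filter_upwards [hX₀] with X h1 h2
    have := h1 h2
    have e := wtd_neg (a := a) (b := b) (K := K) X
    have e2 : wtd a b (-K) X = wtd a b (fun u => -K u) X := rfl
    rw [e2, e]
    linarith

/-- **Bounds from below**: the order of vanishing. -/
theorem wtd_down_order (hF : IsLSeries a b F) (hK : Measurable K) (hM : ∀ u, |K u| ≤ M) {κ : ℝ}
    (hκ : Tendsto K (𝓝[>] 0) (𝓝 κ)) {β : ℝ}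
    (hβ0 : 0 < β) (hβ1 : β ≤ 1) (hz : ∀ᵐ u : ℝ, u ∈ Ioo β 1 → K u = 0)
    (hnz : ∀ δ : ℝ, 0 < δ → ¬ ∀ᵐ u : ℝ, u ∈ Ioo (β - δ) β → K u = 0)
    (hr : ∀ x : ℝ, 1 < x → F x ≠ 0) {ρ : ℝ}
    (h : ∀ ε : ℝ, 0 < ε → ∃ X₀ : ℝ, ∀ᵐ X : ℝ, X₀ ≤ X →
      (ρ - ε) * Real.log (Real.log X) ≤ wtd a b K X) :
    (∀ s : ℂ, 1 < s.re → F s ≠ 0) ∧ ∃ m : ℕ, analyticOrderAt F 1 = m ∧ ρ ≤ κ * m := by
  obtain ⟨h1, m, hm, h2⟩ := wtd_up_order hF hK.neg (fun u => by simpa using hM u) hκ.neg hβ0 hβ1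
    (by filter_upwards [hz] with u h1 h2
        simp [h1 h2])
    (fun δ hδ h' => hnz δ hδ (by
      filter_upwards [h'] with u h1 h2
      simpa using h1 h2)) (Or.inr hr) (ρ := -ρ) (fun ε hε => by
      obtain ⟨X₀, hX₀⟩ := h ε hε
      refine ⟨X₀, ?_⟩
      filter_upwards [hX₀] with X h1 h2
      have := h1 h2
      have e := wtd_neg (a := a) (b := b) (K := K) X
      have e2 : wtd a b (-K) X = wtd a b (fun u => -K u) X := rfl
      rw [e2, e]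
      linarith)
  exact ⟨h1, m, hm, by linarith⟩

end Pool.Agent.R429.DM
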