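import Pool.Agent.R429.DM.Sect

/-! The behaviour of the transform at `0`, and the order of vanishing. -/

set_option autoImplicit false

namespace Pool.Agent.R429.DM

open MeasureTheory Filter Topology Set Complex Metric
open Pool.Agent.W263.BSD (LInt lapC lapC_differentiableAt lap)

variable {c : ℕ → ℝ} {G Φ : ℂ → ℂ} {K : ℝ → ℝ} {M : ℝ}

/-- the derivative of the correction -/
theorem G_deriv_le (hGd : ∀ w : ℂ, 0 < w.re → DifferentiableAt ℂ G w) {B : ℝ}
    (hG : ∀ w : ℂ, 0 < w.re → ‖w‖ ≤ 5 * w.re → ‖G w‖ ≤ B) {x : ℝ} (hx : 0 < x) :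
    ‖deriv G (x : ℂ)‖ ≤ B / (x / 2) := by
  have hin : ∀ z ∈ closedBall (x : ℂ) (x / 2), 0 < z.re ∧ ‖z‖ ≤ 5 * z.re := by
    intro z hz
    rw [mem_closedBall, dist_eq_norm] at hz
    have h1 : |(z - x).re| ≤ ‖z - x‖ := Complex.abs_re_le_norm _
    have h2 : (z - (x : ℂ)).re = z.re - x := by simp
    rw [h2] at h1
    have h3 := (abs_le.1 (h1.trans hz)).1
    have h4 : ‖z‖ ≤ ‖z - x‖ + ‖(x : ℂ)‖ := by
      have := norm_add_le (z - x) (x : ℂ)
      rwa [sub_add_cancel] at this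
    rw [Complex.norm_real, Real.norm_eq_abs, abs_of_pos hx] at h4
    exact ⟨by linarith, by linarith⟩
  refine Complex.norm_deriv_le_of_forall_mem_sphere_norm_le (by positivity) ?_ fun z hz => ?_
  · refine DifferentiableOn.diffContOnCl ?_
    intro z hz
    exact (hGd z (hin z (closure_ball_subset_closedBall hz)).1).differentiableWithinAt
  · have h := hin z (sphere_subset_closedBall hz)
    exact hG z h.1 h.2

/-- the decomposition near zero: `Φ'/Φ = m/z + q` -/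
theorem exists_q (hΦd : Differentiable ℂ Φ) (hΦ : ∀ z : ℂ, 0 < z.re → Φ z ≠ 0) {m : ℕ}
    (hm : analyticOrderAt Φ 0 = m) : ∃ Q : ℝ, 0 ≤ Q ∧ ∀ x : ℝ, 0 < x → x ≤ 1 →
      ‖deriv Φ (x : ℂ) / Φ x - m / x‖ ≤ Q := by
  obtain ⟨g, hga, hg1, hgeq⟩ := ((hΦd.analyticAt 0).analyticOrderAt_eq_natCast).1 hm
  -- near zero
  have hnear : ∃ δ Q : ℝ, 0 < δ ∧ ∀ x : ℝ, 0 < x → x < δ → ‖deriv Φ (x : ℂ) / Φ x - m / x‖ ≤ Q := by
    have hga' : ∀ᶠ z in 𝓝 (0 : ℂ), AnalyticAt ℂ g z := hga.eventually_analyticAt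
    have hg0 : ∀ᶠ z in 𝓝 (0 : ℂ), g z ≠ 0 := hga.continuousAt.eventually_ne hg1
    have hgeq' : ∀ᶠ z in 𝓝 (0 : ℂ), ∀ᶠ w in 𝓝 z, Φ w = (w - 0) ^ m • g w := hgeq.eventually_nhds
    have hqc : ContinuousAt (fun z => deriv g z / g z) 0 :=
      (hga.deriv.continuousAt.div hga.continuousAt hg1)
    have hqb : ∀ᶠ z in 𝓝 (0 : ℂ), ‖deriv g z / g z‖ < ‖deriv g 0 / g 0‖ + 1 :=
      hqc.norm.eventually_lt_const (by linarith)
    obtain ⟨δ, hδ, hball⟩ := Metric.eventually_nhds_iff.1 (hga'.and (hg0.and (hgeq'.and hqb)))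
    refine ⟨δ, ‖deriv g 0 / g 0‖ + 1, hδ, fun x hx hxδ => ?_⟩
    obtain ⟨hz1, hz2, hz3, hz4⟩ := hball (y := (x : ℂ)) (by
      rw [dist_eq_norm, sub_zero, Complex.norm_real, Real.norm_eq_abs, abs_of_pos hx]
      exact hxδ)
    have hx0 : (x : ℂ) ≠ 0 := Complex.ofReal_ne_zero.2 hx.ne'
    have h4 : HasDerivAt (fun w : ℂ => w ^ m * g w)
        (((m : ℂ) * (x : ℂ) ^ (m - 1) * 1) * g x + (x : ℂ) ^ m * deriv g x) x :=
      ((hasDerivAt_id (x : ℂ)).pow m).mul hz1.differentiableAt.hasDerivAt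
    have h5 : deriv Φ x = ((m : ℂ) * (x : ℂ) ^ (m - 1) * 1) * g x + (x : ℂ) ^ m * deriv g x := by
      rw [← h4.deriv]
      exact Filter.EventuallyEq.deriv_eq (hz3.mono fun w hw => by rw [hw, smul_eq_mul, sub_zero])
    have h6 : Φ x = (x : ℂ) ^ m * g x := by rw [hz3.self_of_nhds, smul_eq_mul, sub_zero]
    have h7 : deriv Φ (x : ℂ) / Φ x - m / x = deriv g x / g x := by
      rw [h5, h6]
      rcases Nat.eq_zero_or_pos m with h0 | h0
      · subst h0
        simp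
      · have h8 : (x : ℂ) ^ m = (x : ℂ) ^ (m - 1) * x := by
          rw [← pow_succ]; congr 1; omega
        have h9 : (x : ℂ) ^ (m - 1) ≠ 0 := pow_ne_zero _ hx0
        rw [h8]
        field_simp
        ring
    rw [h7]
    exact hz4.le
  obtain ⟨δ, Q₁, hδ, h1⟩ := hnear
  -- the compact part
  have hcont : ContinuousOn (fun x : ℝ => deriv Φ (x : ℂ) / Φ x - m / x) (Icc (δ / 2) 1) := by
    intro x hx
    have hx0 : 0 < x := by linarith [hx.1]
    have hx0' : (x : ℂ) ≠ 0 := Complex.ofReal_ne_zero.2 hx0.ne'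
    refine ContinuousAt.continuousWithinAt ?_
    have e1 : ContinuousAt (fun z : ℂ => deriv Φ z / Φ z - m / z) (x : ℂ) := by
      refine ((hΦd.analyticAt _).deriv.continuousAt.div (hΦd _).continuousAt
        (hΦ _ (by simpa using hx0))).sub ?_
      exact continuousAt_const.div continuousAt_id hx0'
    exact ContinuousAt.comp (g := fun z : ℂ => deriv Φ z / Φ z - m / z) (f := fun x : ℝ => (x : ℂ))
      e1 Complex.continuous_ofReal.continuousAt
  obtain ⟨Q₂, h2⟩ := isCompact_Icc.exists_bound_of_continuousOn hcont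
  refine ⟨max 0 (max Q₁ Q₂), le_max_left _ _, fun x hx hx1 => ?_⟩
  by_cases hc : x < δ
  · exact (h1 x hx hc).trans ((le_max_left _ _).trans (le_max_right _ _))
  · push Not at hc
    exact (h2 x ⟨by linarith, hx1⟩).trans ((le_max_right _ _).trans (le_max_right _ _))

/-- bounds for `EE` on the positive axis -/
theorem EE_bdd (E : ED c G Φ) (hΦ : ∀ z : ℂ, 0 < z.re → Φ z ≠ 0) {B : ℝ}
    (hG : ∀ w : ℂ, 0 < w.re → ‖w‖ ≤ 5 * w.re → ‖G w‖ ≤ B) {m : ℕ}
    (hm : analyticOrderAt Φ 0 = m) :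
    ∃ C : ℝ, 0 ≤ C ∧ ∀ x : ℝ, 0 < x → ‖EE G Φ x‖ ≤ C ∧ ‖EE G Φ x‖ ≤ C / x := by
  obtain ⟨Q, hQ0, hQ⟩ := exists_q E.Φd hΦ hm
  obtain ⟨C₁, hC₁, hdec⟩ := EE_decay E
  have hB0 : 0 ≤ B := (norm_nonneg _).trans (hG 1 (by simp) (by simp))
  have hcont : ContinuousOn (fun x : ℝ => EE G Φ (x : ℂ)) (Icc 1 8) := by
    intro x hx
    have hx0 : 0 < x := by linarith [hx.1]
    refine ContinuousAt.continuousWithinAt ?_
    exact ContinuousAt.comp (g := EE G Φ) (f := fun x : ℝ => (x : ℂ))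
      (EE_diff E hΦ (by simpa using hx0)).continuousAt Complex.continuous_ofReal.continuousAt
  obtain ⟨C₂, hC₂⟩ := isCompact_Icc.exists_bound_of_continuousOn hcont
  have hC₂0 : 0 ≤ C₂ := (norm_nonneg _).trans (hC₂ 1 ⟨le_rfl, by norm_num⟩)
  set C : ℝ := 8 * C₂ + C₁ + (m + Q + 2 * B) with hC
  have hm0 : (0 : ℝ) ≤ m := Nat.cast_nonneg m
  refine ⟨C, by positivity, fun x hx => ?_⟩
  rcases le_or_gt x 1 with h1 | h1
  · have h2 : EE G Φ (x : ℂ) = m + x * (deriv Φ (x : ℂ) / Φ x - m / x) - x * deriv G x := by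
      unfold EE
      have hx0 : (x : ℂ) ≠ 0 := Complex.ofReal_ne_zero.2 hx.ne'
      field_simp
      ring
    have h3 : ‖EE G Φ (x : ℂ)‖ ≤ m + Q + 2 * B := by
      rw [h2]
      have e1 : ‖(x : ℂ) * (deriv Φ (x : ℂ) / Φ x - m / x)‖ ≤ Q := by
        rw [norm_mul, Complex.norm_real, Real.norm_eq_abs, abs_of_pos hx]
        have := hQ x hx h1
        calc x * _ ≤ 1 * Q := mul_le_mul h1 this (norm_nonneg _) zero_le_one
          _ = Q := one_mul _
      have e2 : ‖(x : ℂ) * deriv G x‖ ≤ 2 * B := by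
        rw [norm_mul, Complex.norm_real, Real.norm_eq_abs, abs_of_pos hx]
        have := G_deriv_le E.Gd hG hx
        calc x * _ ≤ x * (B / (x / 2)) := mul_le_mul_of_nonneg_left this hx.le
          _ = 2 * B := by field_simp
      have e3 : ‖(m : ℂ)‖ = m := Complex.norm_natCast m
      calc ‖(m : ℂ) + x * (deriv Φ (x : ℂ) / Φ x - m / x) - x * deriv G x‖ ≤
          ‖(m : ℂ) + x * (deriv Φ (x : ℂ) / Φ x - m / x)‖ + ‖(x : ℂ) * deriv G x‖ := norm_sub_le _ _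
        _ ≤ ‖(m : ℂ)‖ + ‖(x : ℂ) * (deriv Φ (x : ℂ) / Φ x - m / x)‖ + ‖(x : ℂ) * deriv G x‖ := by
            gcongr
            exact norm_add_le _ _
        _ ≤ m + Q + 2 * B := by rw [e3]; gcongr
    have h4 : ‖EE G Φ (x : ℂ)‖ ≤ C := by rw [hC]; linarith
    refine ⟨h4, ?_⟩
    rw [le_div_iff₀ hx]
    calc _ ≤ C * 1 := mul_le_mul h4 h1 hx.le (by positivity)
      _ = C := mul_one _
  · rcases le_or_gt x 8 with h2 | h2
    · have h3 := hC₂ x ⟨h1.le, h2⟩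

      have h4 : 8 * ‖EE G Φ (x : ℂ)‖ ≤ C := by
        have : 0 ≤ m + Q + 2 * B := by positivity
        linarith
      have h5 : 0 ≤ ‖EE G Φ (x : ℂ)‖ := norm_nonneg _
      refine ⟨by linarith, ?_⟩
      rw [le_div_iff₀ hx]
      nlinarith
    · have hn : ‖(x : ℂ)‖ = x := by rw [Complex.norm_real, Real.norm_eq_abs, abs_of_pos hx]
      have h3 := hdec (x : ℂ) (real_mem_sect hx) (by rw [hn]; exact h2.le)
      rw [hn] at h3
      have h4 : C₁ / x ≤ C / x := by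
        apply div_le_div_of_nonneg_right _ hx.le
        have : 0 ≤ m + Q + 2 * B := by positivity
        linarith
      refine ⟨?_, h3.trans h4⟩
      have h5 : C / x ≤ C := div_le_self (by positivity) h1.le
      exact (h3.trans h4).trans h5

end Pool.Agent.R429.DM
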