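import Pool.Agent.R429.DM.Order
import Pool.Agent.W263.BSD.Lead1

/-! The weight at zero and the order of vanishing. -/

set_option autoImplicit false

namespace Pool.Agent.R429.DM

open MeasureTheory Filter Topology Set Complex Metric
open Pool.Agent.W263.BSD (LInt lapC lapC_differentiableAt lap ell ell_lap_limit ell_nonneg ell_LInt)

variable {c : ℕ → ℝ} {G Φ : ℂ → ℂ} {K : ℝ → ℝ} {M : ℝ}

theorem EE_int (E : ED c G Φ) (hΦ : ∀ z : ℂ, 0 < z.re → Φ z ≠ 0) (hK : Measurable K)
    (hM : ∀ u, |K u| ≤ M) {w : ℝ} (hw : 0 < w) :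
    IntegrableOn (fun u : ℝ => (K u : ℂ) * ((u⁻¹ : ℝ) : ℂ) * EE G Φ (w / u)) (Ioc 0 1) := by
  obtain ⟨C, hC0, hC⟩ := EE_decay E
  have hEd : DifferentiableOn ℂ (EE G Φ) sect := fun z hz =>
    (EE_diff E hΦ (sect_re hz)).differentiableWithinAt
  exact reg_int sect_open (fun w hw u hu => sect_div hw hu) zero_notMem_sect hEd hC hK hM
    (real_mem_sect hw)

theorem EE_int_one (E : ED c G Φ) (hΦ : ∀ z : ℂ, 0 < z.re → Φ z ≠ 0) {w : ℝ} (hw : 0 < w) :
    IntegrableOn (fun u : ℝ => ((u⁻¹ : ℝ) : ℂ) * EE G Φ (w / u)) (Ioc 0 1) := by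
  have h := EE_int E hΦ (K := fun _ => 1) measurable_const (M := 1) (by simp) hw
  refine h.congr (ae_of_all _ fun u => ?_)
  simp

/-- the main term -/
theorem I_one (E : ED c G Φ) (hΦ : ∀ z : ℂ, 0 < z.re → Φ z ≠ 0) {B : ℝ}
    (hG : ∀ w : ℂ, 0 < w.re → ‖w‖ ≤ 5 * w.re → ‖G w‖ ≤ B) {m : ℕ}
    (hm : analyticOrderAt Φ 0 = m) : ∃ C : ℝ, 0 ≤ C ∧ ∀ w : ℝ, 0 < w → w < 1 →
      ‖(∫ u in Ioc (0 : ℝ) 1, ((u⁻¹ : ℝ) : ℂ) * EE G Φ (w / u)) + m * (Real.log w : ℂ)‖ ≤ C := by
  obtain ⟨Q, hQ0, hQ⟩ := exists_q E.Φd hΦ hm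
  obtain ⟨C₁, hC₁, hC₁'⟩ := EE_bdd E hΦ hG hm
  have hB0 : 0 ≤ B := (norm_nonneg _).trans (hG 1 (by simp) (by simp))
  refine ⟨C₁ + (Q + 2 * B), by positivity, fun w hw hw1 => ?_⟩
  set f : ℝ → ℂ := fun u => ((u⁻¹ : ℝ) : ℂ) * EE G Φ (w / u) with hf
  have hfi : IntegrableOn f (Ioc 0 1) := EE_int_one E hΦ hw
  have hsplit : ∫ u in Ioc (0 : ℝ) 1, f u = (∫ u in Ioc (0 : ℝ) w, f u) + ∫ u in Ioc w 1, f u := by
    rw [← setIntegral_union (Ioc_disjoint_Ioc_of_le le_rfl) measurableSet_Ioc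
      (hfi.mono_set (Ioc_subset_Ioc_right hw1.le)) (hfi.mono_set (Ioc_subset_Ioc_left hw.le)),
      Ioc_union_Ioc_eq_Ioc hw.le hw1.le]
  -- the part near zero
  have h1 : ‖∫ u in Ioc (0 : ℝ) w, f u‖ ≤ C₁ := by
    have := norm_setIntegral_le_of_norm_le_const (μ := volume) (s := Ioc (0 : ℝ) w) (f := f)
      (C := C₁ / w) (by simp) (fun u hu => by
        rw [hf]
        simp only
        rw [norm_mul, Complex.norm_real, Real.norm_eq_abs, abs_of_pos (inv_pos.2 hu.1)]
        have h2 := (hC₁' (w / u) (by have := hu.1; positivity)).2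
        have e : ((w / u : ℝ) : ℂ) = (w : ℂ) / u := by push_cast; rfl
        rw [e] at h2
        calc u⁻¹ * _ ≤ u⁻¹ * (C₁ / (w / u)) :=
              mul_le_mul_of_nonneg_left h2 (inv_nonneg.2 hu.1.le)
          _ = C₁ / w := by have := hu.1; field_simp)
    refine this.trans (le_of_eq ?_)
    rw [Measure.real, Real.volume_Ioc, ENNReal.toReal_ofReal (by linarith)]
    field_simp
    ring
  -- the part away from zero
  set r : ℝ → ℂ := fun u => ((w / u ^ 2 : ℝ) : ℂ) *
    (deriv Φ ((w / u : ℝ) : ℂ) / Φ ((w / u : ℝ) : ℂ) - m / ((w / u : ℝ) : ℂ)) with hr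
  have hpos : ∀ u ∈ Icc w 1, 0 < w / u := fun u hu => by
    have : 0 < u := by linarith [hu.1]
    positivity
  have hcinv : ContinuousOn (fun u : ℝ => ((w / u : ℝ) : ℂ)) (Icc w 1) := by
    refine Complex.continuous_ofReal.comp_continuousOn ?_
    exact ContinuousOn.div continuousOn_const continuousOn_id fun u hu => by
      have : 0 < u := by linarith [hu.1]
      exact this.ne'
  have hrc : ContinuousOn r (Icc w 1) := by
    refine ContinuousOn.mul ?_ ?_
    · refine Complex.continuous_ofReal.comp_continuousOn ?_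
      exact ContinuousOn.div continuousOn_const (by fun_prop) fun u hu => by
        have : 0 < u := by linarith [hu.1]
        positivity
    · intro u hu
      have h2 := hpos u hu
      have h3 : ContinuousAt (fun z : ℂ => deriv Φ z / Φ z - m / z) ((w / u : ℝ) : ℂ) := by
        refine ((E.Φd.analyticAt _).deriv.continuousAt.div (E.Φd _).continuousAt
          (hΦ _ (by simpa using h2))).sub ?_
        exact continuousAt_const.div continuousAt_id (Complex.ofReal_ne_zero.2 h2.ne')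
      exact ContinuousAt.comp_continuousWithinAt (g := fun z : ℂ => deriv Φ z / Φ z - m / z)
        (f := fun u : ℝ => ((w / u : ℝ) : ℂ)) h3 (hcinv u hu)
  have hGder : ∀ u ∈ uIcc w 1, HasDerivAt (fun u : ℝ => G ((w / u : ℝ) : ℂ))
      (deriv G ((w / u : ℝ) : ℂ) * ((-(w / u ^ 2) : ℝ) : ℂ)) u := by
    intro u hu
    rw [uIcc_of_le hw1.le] at hu
    have hu0 : 0 < u := by linarith [hu.1]
    have h2 := hpos u hu
    have h3 : HasDerivAt (fun u : ℝ => w / u) (-(w / u ^ 2)) u := by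
      have := (hasDerivAt_inv hu0.ne').const_mul w
      refine (this.congr_deriv ?_).congr_of_eventuallyEq (Eventually.of_forall fun v => ?_)
      · rw [div_eq_mul_inv]; ring
      · simp only
        rw [div_eq_mul_inv]
    have h4 : HasDerivAt G (deriv G ((w / u : ℝ) : ℂ)) ((w / u : ℝ) : ℂ) :=
      (E.Gd _ (by simpa using h2)).hasDerivAt
    exact HasDerivAt.comp (h₂ := G) (h := fun u : ℝ => ((w / u : ℝ) : ℂ)) u h4 h3.ofReal_comp
  have hGc : ContinuousOn (fun u : ℝ => deriv G ((w / u : ℝ) : ℂ) * ((-(w / u ^ 2) : ℝ) : ℂ))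
      (Icc w 1) := by
    refine ContinuousOn.mul ?_ ?_
    · intro u hu
      have h2 := hpos u hu
      have h3 : ContinuousAt (deriv G) ((w / u : ℝ) : ℂ) :=
        (G_deriv_diff E (by simpa using h2)).continuousAt
      exact ContinuousAt.comp_continuousWithinAt (g := deriv G)
        (f := fun u : ℝ => ((w / u : ℝ) : ℂ)) h3 (hcinv u hu)
    · refine Complex.continuous_ofReal.comp_continuousOn ?_
      refine ContinuousOn.neg ?_
      exact ContinuousOn.div continuousOn_const (by fun_prop) fun u hu => by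
        have : 0 < u := by linarith [hu.1]
        positivity
  have hFTC := intervalIntegral.integral_eq_sub_of_hasDerivAt hGder
    (ContinuousOn.intervalIntegrable (by rw [uIcc_of_le hw1.le]; exact hGc))
  have hinv : ContinuousOn (fun u : ℝ => (m : ℂ) * ((u⁻¹ : ℝ) : ℂ)) (Icc w 1) := by
    refine continuousOn_const.mul (Complex.continuous_ofReal.comp_continuousOn ?_)
    exact ContinuousOn.inv₀ continuousOn_id fun u hu => by
      have : 0 < u := by linarith [hu.1]
      exact this.ne'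
  have hii : ∀ g : ℝ → ℂ, ContinuousOn g (Icc w 1) → IntervalIntegrable g volume w 1 := fun g hg =>
    ContinuousOn.intervalIntegrable (by rwa [uIcc_of_le hw1.le])
  have hmain : ∫ u in Ioc w 1, f u = (∫ u in w..1, (m : ℂ) * ((u⁻¹ : ℝ) : ℂ)) + (∫ u in w..1, r u) +
      ∫ u in w..1, deriv G ((w / u : ℝ) : ℂ) * ((-(w / u ^ 2) : ℝ) : ℂ) := by
    rw [← intervalIntegral.integral_of_le hw1.le,
      ← intervalIntegral.integral_add (hii _ hinv) (hii _ hrc),
      ← intervalIntegral.integral_add ((hii _ hinv).add (hii _ hrc)) (hii _ hGc)]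
    refine intervalIntegral.integral_congr fun u hu => ?_
    rw [uIcc_of_le hw1.le] at hu
    have hu0 : 0 < u := by linarith [hu.1]
    have hu0' : (u : ℂ) ≠ 0 := Complex.ofReal_ne_zero.2 hu0.ne'
    have hw0' : (w : ℂ) ≠ 0 := Complex.ofReal_ne_zero.2 hw.ne'
    rw [hf, hr]
    simp only
    unfold EE
    push_cast
    field_simp
    ring
  have hlog : ∫ u in w..1, (m : ℂ) * ((u⁻¹ : ℝ) : ℂ) = -(m * (Real.log w : ℂ)) := by
    rw [intervalIntegral.integral_const_mul, intervalIntegral.integral_ofReal,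
      integral_inv_of_pos hw one_pos, Real.log_div one_ne_zero hw.ne', Real.log_one]
    push_cast
    ring
  have hrb : ‖∫ u in w..1, r u‖ ≤ Q := by
    have hprim : ∀ u ∈ uIcc w 1, HasDerivAt (fun u : ℝ => -(Q * (w / u))) (Q * (w / u ^ 2)) u := by
      intro u hu
      rw [uIcc_of_le hw1.le] at hu
      have hu0 : 0 < u := by linarith [hu.1]
      have := ((hasDerivAt_inv hu0.ne').const_mul (Q * w)).neg
      refine (this.congr_deriv ?_).congr_of_eventuallyEq (Eventually.of_forall fun v => ?_)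
      · rw [div_eq_mul_inv]; ring
      · simp only [Pi.neg_apply]
        rw [div_eq_mul_inv]; ring
    have hc1 : ContinuousOn (fun u : ℝ => Q * (w / u ^ 2)) (uIcc w 1) := by
      rw [uIcc_of_le hw1.le]
      exact continuousOn_const.mul (ContinuousOn.div continuousOn_const (by fun_prop) fun u hu => by
        have : 0 < u := by linarith [hu.1]
        positivity)
    have hI := intervalIntegral.integral_eq_sub_of_hasDerivAt hprim hc1.intervalIntegrable
    have h2 := intervalIntegral.norm_integral_le_of_norm_le (f := r) (g := fun u => Q * (w / u ^ 2))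
      (a := w) (b := 1) (μ := volume) hw1.le (ae_of_all _ fun u hu => by
        have hu0 : 0 < u := by linarith [hu.1]
        rw [hr]
        simp only
        rw [norm_mul, Complex.norm_real, Real.norm_eq_abs, abs_of_pos (by positivity), mul_comm Q]
        refine mul_le_mul_of_nonneg_left ?_ (by positivity)
        refine hQ (w / u) (by positivity) ?_
        rw [div_le_one hu0]
        exact hu.1.le) hc1.intervalIntegrable
    rw [hI] at h2
    refine h2.trans ?_
    have : -(Q * (w / 1)) - -(Q * (w / w)) = Q * (1 - w) := by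
      rw [div_self hw.ne']; ring
    rw [this]
    nlinarith
  have hGG : ‖∫ u in w..1, deriv G ((w / u : ℝ) : ℂ) * ((-(w / u ^ 2) : ℝ) : ℂ)‖ ≤ 2 * B := by
    rw [hFTC]
    have e1 : ‖G ((w / 1 : ℝ) : ℂ)‖ ≤ B := by
      refine hG _ ?_ ?_
      · simpa using hw
      · rw [Complex.norm_real, Real.norm_eq_abs, Complex.ofReal_re, abs_of_pos (by positivity)]
        have : 0 < w / 1 := by positivity
        linarith
    have e2 : ‖G ((w / w : ℝ) : ℂ)‖ ≤ B := by
      rw [div_self hw.ne']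
      refine hG _ (by simp) ?_
      simp
    calc _ ≤ ‖G ((w / 1 : ℝ) : ℂ)‖ + ‖G ((w / w : ℝ) : ℂ)‖ := norm_sub_le _ _
      _ ≤ 2 * B := by linarith
  rw [hsplit, hmain, hlog]
  have e : (∫ u in Ioc (0 : ℝ) w, f u) + (-(m * (Real.log w : ℂ)) + (∫ u in w..1, r u) +
      ∫ u in w..1, deriv G ((w / u : ℝ) : ℂ) * ((-(w / u ^ 2) : ℝ) : ℂ)) + m * (Real.log w : ℂ) =
      (∫ u in Ioc (0 : ℝ) w, f u) + ((∫ u in w..1, r u) +
      ∫ u in w..1, deriv G ((w / u : ℝ) : ℂ) * ((-(w / u ^ 2) : ℝ) : ℂ)) := by ring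
  rw [e]
  exact (norm_add_le _ _).trans (add_le_add h1 ((norm_add_le _ _).trans (add_le_add hrb hGG)))

end Pool.Agent.R429.DM
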