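import Pool.Agent.R429.DM.Claim

/-! Subexponential weighted sums force the non-vanishing of the Euler product, for every weight. -/

set_option autoImplicit false

namespace Pool.Agent.R429.DM

open MeasureTheory Filter Topology Set Complex

variable {c : ℕ → ℝ} {G Φ : ℂ → ℂ} {K : ℝ → ℝ} {M : ℝ}

/-- preimages of null sets under `T ↦ a / T` -/
theorem null_inv {N : Set ℝ} (hN : volume N = 0) (hpos : N ⊆ Ioi 0) {a : ℝ} (ha : 0 < a) :
    volume {T : ℝ | 0 < T ∧ a / T ∈ N} = 0 := by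
  have h1 : {T : ℝ | 0 < T ∧ a / T ∈ N} ⊆ (fun v => a / v) '' N := by
    rintro T ⟨hT, h⟩
    exact ⟨a / T, h, by simp only; field_simp⟩
  refine measure_mono_null h1 ?_
  refine addHaar_image_eq_zero_of_differentiableOn_of_addHaar_eq_zero volume ?_ hN
  intro v hv
  have hv0 : v ≠ 0 := ne_of_gt (hpos hv)
  exact (DifferentiableAt.div (by fun_prop) (by fun_prop) hv0).differentiableWithinAt

/-- preimages of null sets under scalings -/
theorem null_scale {N : Set ℝ} (hN : volume N = 0) {a : ℝ} (ha : 0 < a) :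
    volume {T : ℝ | T / a ∈ N} = 0 := by
  have h1 : {T : ℝ | T / a ∈ N} ⊆ (fun v => a * v) '' N := by
    intro T h
    exact ⟨T / a, h, by simp only; field_simp⟩
  refine measure_mono_null h1 ?_
  refine addHaar_image_eq_zero_of_differentiableOn_of_addHaar_eq_zero volume ?_ hN
  exact fun v _ => (by fun_prop : DifferentiableAt ℝ (fun v : ℝ => a * v) v).differentiableWithinAt

theorem scale_eq (hc : CD c) {θ : ℝ} (h0 : 0 < θ) (h1 : θ ≤ 1)
    (hz : ∀ᵐ u : ℝ, u ∈ Ioo θ 1 → K u = 0) :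
    ∀ᵐ T : ℝ, 0 < T → sK c (fun u => K (θ * u)) T = sK c K (T / θ) := by
  set N : Set ℝ := {u | u ∈ Ioo θ 1 ∧ K u ≠ 0} ∪ {1} with hN
  have hN0 : volume N = 0 := by
    refine measure_union_null ?_ (by simp)
    rw [ae_iff] at hz
    refine measure_mono_null (fun u hu => ?_) hz
    simp only [mem_ofPred_eq, Classical.not_imp]
    exact hu
  have hNp : N ⊆ Ioi 0 := by
    rintro u (hu | hu)
    · exact h0.trans hu.1.1
    · rw [mem_singleton_iff] at hu
      rw [hu]; exact mem_Ioi.2 one_pos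
  have hall : ∀ᵐ T : ℝ, ∀ p : ℕ, 0 < T → c p ≠ 0 → θ * Real.log p / T ∉ N := by
    rw [ae_all_iff]
    intro p
    by_cases hp : c p = 0
    · exact ae_of_all _ fun T _ h => absurd hp h
    · have hl : 0 < Real.log p := lt_of_lt_of_le zero_lt_one (hc.one p hp)
      have h2 := null_inv hN0 hNp (mul_pos h0 hl)
      rw [ae_iff]
      refine measure_mono_null (fun T hT => ?_) h2
      simp only [mem_ofPred_eq, Classical.not_imp, not_not] at hT
      exact ⟨hT.1, hT.2.2⟩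
  filter_upwards [hall] with T hT hT0
  unfold sK
  refine tsum_congr fun p => ?_
  unfold tm
  by_cases hp : c p = 0
  · simp [hp]
  have hl : 0 < Real.log p := lt_of_lt_of_le zero_lt_one (hc.one p hp)
  have e1 : Real.log p / (T / θ) = θ * Real.log p / T := by field_simp
  have e2 : θ * (Real.log p / T) = θ * Real.log p / T := by ring
  simp only
  rw [e1, e2]
  by_cases h3 : Real.log p ≤ T
  · have h4 : Real.log p ≤ T / θ := by
      rw [le_div_iff₀ h0]; nlinarith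
    rw [if_pos h3, if_pos h4]
  · rw [if_neg h3]
    by_cases h4 : Real.log p ≤ T / θ
    · rw [if_pos h4]
      have h5 := hT p hT0 hp
      have h6 : θ < θ * Real.log p / T := by
        rw [lt_div_iff₀ hT0]
        push Not at h3
        exact mul_lt_mul_of_pos_left h3 h0
      have h7 : θ * Real.log p / T ≤ 1 := by
        rw [div_le_one hT0]
        rw [le_div_iff₀ h0] at h4
        linarith
      have h8 : K (θ * Real.log p / T) = 0 := by
        by_contra h9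
        rcases eq_or_lt_of_le h7 with h | h
        · exact h5 (Or.inr h)
        · exact h5 (Or.inl ⟨⟨h6, h⟩, h9⟩)
      rw [h8, mul_zero]
    · rw [if_neg h4]

theorem grow_scale (hc : CD c) {θ y : ℝ} (hg : Grow c K (θ * y)) (h0 : 0 < θ) (h1 : θ ≤ 1)
    (hz : ∀ᵐ u : ℝ, u ∈ Ioo θ 1 → K u = 0) : Grow c (fun u => K (θ * u)) y := by
  intro ε hε
  obtain ⟨C, hC⟩ := hg (θ * ε) (by positivity)
  refine ⟨C, ?_⟩
  have h2 : ∀ᵐ T : ℝ, 0 < T → |sK c K (T / θ)| ≤ C * Real.exp ((y + ε) * T) := by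
    rw [ae_iff] at hC ⊢
    refine measure_mono_null (fun T hT => ?_) (null_scale hC h0)
    simp only [mem_ofPred_eq, Classical.not_imp] at hT ⊢
    refine ⟨by have := hT.1; positivity, ?_⟩
    have e : (θ * y + θ * ε) * (T / θ) = (y + ε) * T := by field_simp
    rw [e]
    exact hT.2
  filter_upwards [scale_eq hc h0 h1 hz, h2] with T h3 h4 h5
  rw [h3 h5]
  exact h4 h5

/-- **Main abstract theorem.** -/
theorem abs_main (E : ED c G Φ) {y β : ℝ} (hy : 0 ≤ y) (hβ0 : 0 < β) (hβ1 : β ≤ 1)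
    (hK : Measurable K) (hM : ∀ u, |K u| ≤ M) (hz : ∀ᵐ u : ℝ, u ∈ Ioo β 1 → K u = 0)
    (hnz : ∀ δ : ℝ, 0 < δ → ¬ ∀ᵐ u : ℝ, u ∈ Ioo (β - δ) β → K u = 0)
    (hg : Grow c K (β * y)) : ∀ z : ℂ, y < z.re → Φ z ≠ 0 := by
  intro z₁ h1 hz1
  obtain ⟨z₀, hz0, hzz, hlast⟩ := last_zero E.Φd (fun w hw => E.ne_zero hw) (by linarith) hz1
  obtain ⟨η, hη, hη2, hre, hre2, hnzc⟩ := thin_cone E.Φd (fun w hw => E.ne_zero hw) hy
    (by linarith : y < z₀.re) hlast
  have h2 := claim E (by linarith : 0 < z₀.re) hzz hη hη2 hre hre2 hnzc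
    (K := fun u => K (β * u)) (hK.comp (by fun_prop)) (fun u => hM _)
    (grow_scale E.cd hg hβ0 hβ1 hz)
  refine hnz (β * η) (by positivity) ?_
  rw [ae_iff] at h2 ⊢
  refine measure_mono_null (fun u hu => ?_) (null_scale h2 hβ0)
  simp only [mem_ofPred_eq, Classical.not_imp] at hu ⊢
  have e : β * (u / β) = u := by field_simp
  rw [e]
  refine ⟨⟨?_, ?_⟩, hu.2⟩
  · rw [lt_div_iff₀ hβ0]
    linarith [hu.1.1]
  · rw [div_lt_one hβ0]
    exact hu.1.2

/-- the essential supremum of the support of a weight -/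
theorem exists_beta (hK0 : ¬ ∀ᵐ u : ℝ, u ∈ Ioc (0 : ℝ) 1 → K u = 0) :
    ∃ β : ℝ, 0 < β ∧ β ≤ 1 ∧ (∀ᵐ u : ℝ, u ∈ Ioo β 1 → K u = 0) ∧
      ∀ δ : ℝ, 0 < δ → ¬ ∀ᵐ u : ℝ, u ∈ Ioo (β - δ) β → K u = 0 := by
  set S : Set ℝ := {x | x ∈ Icc (0 : ℝ) 1 ∧ ¬ ∀ᵐ u : ℝ, u ∈ Ioo x 1 → K u = 0} with hS
  have hne1 : ∀ᵐ u : ℝ, u ≠ 1 := by rw [ae_iff]; simp
  have h0 : (0 : ℝ) ∈ S := by
    refine ⟨⟨le_rfl, zero_le_one⟩, fun h => hK0 ?_⟩
    filter_upwards [h, hne1] with u h1 h2 h3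
    exact h1 ⟨h3.1, lt_of_le_of_ne h3.2 h2⟩
  have hbdd : BddAbove S := ⟨1, fun x hx => hx.1.2⟩
  set β : ℝ := sSup S with hβ
  have hβ1 : β ≤ 1 := csSup_le ⟨0, h0⟩ fun x hx => hx.1.2
  have hβ0 : 0 < β := by
    by_contra hneg
    push Not at hneg
    refine h0.2 ?_
    have h1 : ∀ᵐ u : ℝ, ∀ n : ℕ, u ∈ Ioo (1 / ((n : ℝ) + 1)) 1 → K u = 0 := by
      rw [ae_all_iff]
      intro n
      by_contra h2
      have h3 : (1 / ((n : ℝ) + 1)) ∈ S := by
        refine ⟨⟨by positivity, ?_⟩, h2⟩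
        rw [div_le_one (by positivity)]
        have : (0 : ℝ) ≤ n := Nat.cast_nonneg n
        linarith
      have h4 := le_csSup hbdd h3
      have h5 : (0 : ℝ) < 1 / ((n : ℝ) + 1) := by positivity
      linarith
    filter_upwards [h1] with u h2 h3
    obtain ⟨n, hn⟩ := exists_nat_one_div_lt h3.1
    exact h2 n ⟨hn, h3.2⟩
  have hz : ∀ᵐ u : ℝ, u ∈ Ioo β 1 → K u = 0 := by
    have h1 : ∀ᵐ u : ℝ, ∀ n : ℕ, u ∈ Ioo (β + 1 / ((n : ℝ) + 1)) 1 → K u = 0 := by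
      rw [ae_all_iff]
      intro n
      have h5 : (0 : ℝ) < 1 / ((n : ℝ) + 1) := by positivity
      by_cases h6 : β + 1 / ((n : ℝ) + 1) ≤ 1
      · by_contra h2
        have h3 : (β + 1 / ((n : ℝ) + 1)) ∈ S := ⟨⟨by positivity, h6⟩, h2⟩
        have h4 := le_csSup hbdd h3
        linarith
      · refine ae_of_all _ fun u hu => ?_
        exact absurd (hu.1.trans hu.2) (fun h => h6 h.le)
    filter_upwards [h1] with u h2 h3
    obtain ⟨n, hn⟩ := exists_nat_one_div_lt (show (0 : ℝ) < u - β by linarith [h3.1])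
    exact h2 n ⟨by linarith, h3.2⟩
  refine ⟨β, hβ0, hβ1, hz, fun δ hδ h => ?_⟩
  obtain ⟨x, hx, hxβ⟩ := exists_lt_of_lt_csSup ⟨0, h0⟩ (show β - δ < sSup S by rw [← hβ]; linarith)
  refine hx.2 ?_
  have hneβ : ∀ᵐ u : ℝ, u ≠ β := by rw [ae_iff]; simp
  filter_upwards [h, hz, hneβ] with u h1 h2 h3 h4
  rcases lt_trichotomy u β with h5 | h5 | h5
  · exact h1 ⟨by linarith [h4.1], h5⟩
  · exact absurd h5 h3
  · exact h2 ⟨h5, h4.2⟩

/-- every weight detects every zero -/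
theorem abs_cor (E : ED c G Φ) (hK : Measurable K) (hM : ∀ u, |K u| ≤ M)
    (hK0 : ¬ ∀ᵐ u : ℝ, u ∈ Ioc (0 : ℝ) 1 → K u = 0) (hg : Grow c K 0) :
    ∀ z : ℂ, 0 < z.re → Φ z ≠ 0 := by
  obtain ⟨β, h0, h1, h2, h3⟩ := exists_beta hK0
  exact abs_main E le_rfl h0 h1 hK hM h2 h3 (by rwa [mul_zero])

end Pool.Agent.R429.DM
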