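import Pool.Agent.R429.DM.Scale

/-! The Laplace transform of a weighted sum in a sector, if there are no zeros. -/

set_option autoImplicit false

namespace Pool.Agent.R429.DM

open MeasureTheory Filter Topology Set Complex Metric
open Pool.Agent.W263.BSD (LInt lapC lapC_differentiableAt)

variable {c : ℕ → ℝ} {G Φ : ℂ → ℂ} {K : ℝ → ℝ} {M : ℝ}

/-- `z (Φ'/Φ - G')` -/
noncomputable def EE (G Φ : ℂ → ℂ) (z : ℂ) : ℂ := z * (deriv Φ z / Φ z - deriv G z)

/-- the sector -/
def sect : Set ℂ := {z | |z.im| < z.re}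

theorem sect_open : IsOpen sect := isOpen_lt continuous_im.abs continuous_re

theorem sect_re {z : ℂ} (hz : z ∈ sect) : 0 < z.re := (abs_nonneg _).trans_lt hz

theorem sect_div {w : ℂ} (hw : w ∈ sect) {u : ℝ} (hu : u ∈ Ioc (0 : ℝ) 1) : w / u ∈ sect := by
  have e1 : (w / (u : ℂ)).re = w.re / u := by simp
  have e2 : (w / (u : ℂ)).im = w.im / u := by simp
  show |(w / (u : ℂ)).im| < (w / (u : ℂ)).re
  rw [e1, e2, abs_div, abs_of_pos hu.1]
  exact div_lt_div_of_pos_right hw hu.1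

theorem zero_notMem_sect : (0 : ℂ) ∉ sect := fun h => by
  have := sect_re h
  simp at this

theorem real_mem_sect {x : ℝ} (hx : 0 < x) : (x : ℂ) ∈ sect := by
  show |(x : ℂ).im| < (x : ℂ).re
  simpa using hx

theorem sect_convex : Convex ℝ sect := by
  have h1 : Convex ℝ {z : ℂ | z.im < z.re} := by
    have : {z : ℂ | z.im < z.re} = {z : ℂ | (Complex.imLm - Complex.reLm) z < 0} := by
      ext z; simp
    rw [this]
    exact convex_halfSpace_lt (Complex.imLm - Complex.reLm).isLinear 0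
  have h2 : Convex ℝ {z : ℂ | -z.im < z.re} := by
    have : {z : ℂ | -z.im < z.re} = {z : ℂ | 0 < (Complex.imLm + Complex.reLm) z} := by
      ext z
      simp only [mem_ofPred_eq, LinearMap.add_apply, Complex.imLm_coe, Complex.reLm_coe]
      constructor <;> intro h <;> linarith
    rw [this]
    exact convex_halfSpace_gt (Complex.imLm + Complex.reLm).isLinear 0
  have h3 : sect = {z : ℂ | z.im < z.re} ∩ {z : ℂ | -z.im < z.re} := by
    ext z
    simp only [sect, mem_ofPred_eq, mem_inter_iff]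
    rw [abs_lt]
    constructor
    · rintro ⟨h1, h2⟩; exact ⟨h2, by linarith⟩
    · rintro ⟨h1, h2⟩; exact ⟨by linarith, h1⟩
  rw [h3]
  exact h1.inter h2

theorem G_deriv_diff (E : ED c G Φ) {w : ℂ} (hw : 0 < w.re) : DifferentiableAt ℂ (deriv G) w := by
  have hopen : IsOpen {z : ℂ | 0 < z.re} := isOpen_lt continuous_const Complex.continuous_re
  have h1 : AnalyticAt ℂ G w := by
    have : DifferentiableOn ℂ G {z : ℂ | 0 < z.re} := fun z hz => (E.Gd z hz).differentiableWithinAt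
    exact this.analyticAt (hopen.mem_nhds hw)
  exact h1.deriv.differentiableAt

theorem EE_diff (E : ED c G Φ) (hΦ : ∀ z : ℂ, 0 < z.re → Φ z ≠ 0) {z : ℂ} (hz : 0 < z.re) :
    DifferentiableAt ℂ (EE G Φ) z := by
  unfold EE
  exact differentiableAt_id.mul
    (((E.Φd.analyticAt z).deriv.differentiableAt.div (E.Φd z) (hΦ z hz)).sub (G_deriv_diff E hz))

theorem EE_eq (E : ED c G Φ) {z : ℂ} (hz : 1 < z.re) : EE G Φ z = z * DD c z := by
  unfold EE
  rw [E.logder hz]

theorem sect_norm {z : ℂ} (hz : z ∈ sect) : ‖z‖ ≤ 2 * z.re := by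
  have h1 := Complex.norm_le_abs_re_add_abs_im z
  rw [abs_of_pos (sect_re hz)] at h1
  have h2 : |z.im| < z.re := hz
  linarith

theorem EE_decay (E : ED c G Φ) : ∃ C : ℝ, 0 ≤ C ∧ ∀ z ∈ sect, 8 ≤ ‖z‖ → ‖EE G Φ z‖ ≤ C / ‖z‖ := by
  obtain ⟨B, hB0, hB⟩ := DD_le E.cd
  refine ⟨16 * B, by positivity, fun z hz h8 => ?_⟩
  have h1 := sect_norm hz
  have h2 : ‖z‖ / 4 ≤ z.re - 2 := by linarith
  have h3 : 2 < z.re := by linarith
  have hz0 : 0 < ‖z‖ := by linarith
  rw [EE_eq E (by linarith), norm_mul]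
  have h4 := hB z h3
  have h5 : B / (z.re - 2) ^ 2 ≤ B / (‖z‖ / 4) ^ 2 := by
    apply div_le_div_of_nonneg_left hB0 (by positivity)
    gcongr
  calc ‖z‖ * ‖DD c z‖ ≤ ‖z‖ * (B / (‖z‖ / 4) ^ 2) := by
        gcongr
        exact h4.trans h5
    _ = 16 * B / ‖z‖ := by field_simp; ring

/-- **The transform in the sector.** -/
theorem lap_sect (E : ED c G Φ) (hΦ : ∀ z : ℂ, 0 < z.re → Φ z ≠ 0) (hK : Measurable K)
    (hM : ∀ u, |K u| ≤ M) (hL : ∀ w > 0, LInt (sK c K) w) {w : ℂ} (hw : w ∈ sect) :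
    w * lapC (sK c K) w = ∫ u in Ioc (0 : ℝ) 1, (K u : ℂ) * ((u⁻¹ : ℝ) : ℂ) * EE G Φ (w / u) := by
  obtain ⟨C, hC0, hC⟩ := EE_decay E
  have hEd : DifferentiableOn ℂ (EE G Φ) sect := fun z hz =>
    (EE_diff E hΦ (sect_re hz)).differentiableWithinAt
  have h1 : AnalyticOnNhd ℂ (fun w => w * lapC (sK c K) w) sect := by
    refine DifferentiableOn.analyticOnNhd (fun z hz => ?_) sect_open
    exact (differentiableAt_id.mul
      (lapC_differentiableAt (measurable_sK E.cd hK) hL (sect_re hz))).differentiableWithinAt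
  have h2 : AnalyticOnNhd ℂ (fun w => ∫ u in Ioc (0 : ℝ) 1, (K u : ℂ) * ((u⁻¹ : ℝ) : ℂ) *
      EE G Φ (w / u)) sect := by
    refine DifferentiableOn.analyticOnNhd (fun z hz => ?_) sect_open
    exact (reg_diff sect_open (fun w hw u hu => sect_div hw hu) zero_notMem_sect hEd hC hK hM
      hz).differentiableWithinAt
  have hopen : IsOpen {z : ℂ | 1 < z.re} := isOpen_lt continuous_const Complex.continuous_re
  have h3 : (2 : ℂ) ∈ sect := by
    have := real_mem_sect (x := 2) (by norm_num)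
    simpa using this
  refine h1.eqOn_of_preconnected_of_eventuallyEq h2 sect_convex.isPreconnected h3 ?_ hw
  filter_upwards [hopen.mem_nhds (show 1 < (2 : ℂ).re by norm_num)] with z hz
  have hz' : 1 < z.re := hz
  unfold lapC
  rw [lap_eq E.cd hK hM hz', ← integral_const_mul]
  refine integral_congr_ae ((ae_restrict_iff' measurableSet_Ioc).2 (ae_of_all _ fun u hu => ?_))
  simp only
  have hu0 : (u : ℂ) ≠ 0 := Complex.ofReal_ne_zero.2 hu.1.ne'
  rw [EE_eq E (by rw [Complex.div_ofReal_re, lt_div_iff₀ hu.1]; nlinarith [hu.2])]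
  push_cast
  field_simp

end Pool.Agent.R429.DM
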