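import Mathlib

/-! Inversion of Poisson integrals of bounded functions. -/

set_option autoImplicit false

namespace Pool.Agent.R429.DM

open MeasureTheory Filter Topology Set

theorem poisson_deriv {ε : ℝ} (hε : 0 < ε) (u x : ℝ) :
    HasDerivAt (fun x => Real.arctan ((x - u) / ε)) (ε / ((x - u) ^ 2 + ε ^ 2)) x := by
  have h1 : HasDerivAt (fun x : ℝ => (x - u) / ε) (1 / ε) x :=
    ((hasDerivAt_id x).sub_const u).div_const ε
  have h2 := h1.arctan
  convert h2 using 1
  have : (x - u) ^ 2 + ε ^ 2 ≠ 0 := by positivity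
  field_simp
  ring

theorem poisson_int {ε : ℝ} (hε : 0 < ε) (u x₁ x₂ : ℝ) :
    ∫ x in x₁..x₂, ε / ((x - u) ^ 2 + ε ^ 2) =
      Real.arctan ((x₂ - u) / ε) - Real.arctan ((x₁ - u) / ε) := by
  refine intervalIntegral.integral_eq_sub_of_hasDerivAt (fun x _ => poisson_deriv hε u x) ?_
  refine Continuous.intervalIntegrable ?_ _ _
  refine Continuous.div continuous_const (by fun_prop) fun x => ?_
  positivity

/-- the Poisson integral -/
noncomputable def pois (K : ℝ → ℝ) (x ε : ℝ) : ℝ :=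
  ∫ u in Ioc (0 : ℝ) 1, K u * (ε / ((x - u) ^ 2 + ε ^ 2))

theorem pois_int_one {ε : ℝ} (hε : 0 < ε) (x : ℝ) :
    ∫ u in Ioc (0 : ℝ) 1, ε / ((x - u) ^ 2 + ε ^ 2) ≤ Real.pi := by
  have h1 : ∀ u : ℝ, ε / ((x - u) ^ 2 + ε ^ 2) = ε / ((u - x) ^ 2 + ε ^ 2) := fun u => by
    congr 2; ring
  simp_rw [h1]
  rw [← intervalIntegral.integral_of_le zero_le_one, poisson_int hε]
  have := Real.arctan_lt_pi_div_two ((1 - x) / ε)
  have := Real.neg_pi_div_two_lt_arctan ((0 - x) / ε)
  linarith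

theorem pois_ker_int {ε : ℝ} (hε : 0 < ε) (x : ℝ) :
    IntegrableOn (fun u => ε / ((x - u) ^ 2 + ε ^ 2)) (Ioc (0 : ℝ) 1) := by
  have h1 : Continuous fun u : ℝ => ε / ((x - u) ^ 2 + ε ^ 2) :=
    Continuous.div continuous_const (by fun_prop) fun u => by positivity
  exact (h1.integrableOn_Icc (a := 0) (b := 1)).mono_set Ioc_subset_Icc_self

theorem pois_le {K : ℝ → ℝ} {M : ℝ} (hM : ∀ u, |K u| ≤ M) {ε : ℝ} (hε : 0 < ε) (x : ℝ) :
    |pois K x ε| ≤ M * Real.pi := by
  have hM0 : 0 ≤ M := (abs_nonneg _).trans (hM 0)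
  unfold pois
  rw [← Real.norm_eq_abs]
  refine (norm_integral_le_of_norm_le ((pois_ker_int hε x).const_mul M) (ae_of_all _ fun u => ?_)).trans ?_
  · rw [norm_mul, Real.norm_eq_abs, Real.norm_eq_abs]
    have h1 : 0 ≤ ε / ((x - u) ^ 2 + ε ^ 2) := by positivity
    rw [abs_of_nonneg h1]
    exact mul_le_mul_of_nonneg_right (hM u) h1
  · rw [integral_const_mul]
    exact mul_le_mul_of_nonneg_left (pois_int_one hε x) hM0

theorem pois_fubini {K : ℝ → ℝ} (hK : Measurable K) {M : ℝ} (hM : ∀ u, |K u| ≤ M) {ε : ℝ}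
    (hε : 0 < ε) {x₁ x₂ : ℝ} (h12 : x₁ ≤ x₂) :
    ∫ x in x₁..x₂, pois K x ε = ∫ u in Ioc (0 : ℝ) 1, K u *
      (Real.arctan ((x₂ - u) / ε) - Real.arctan ((x₁ - u) / ε)) := by
  have hM0 : 0 ≤ M := (abs_nonneg _).trans (hM 0)
  unfold pois
  rw [intervalIntegral.integral_of_le h12]
  rw [integral_integral_swap]
  · refine integral_congr_ae (ae_of_all _ fun u => ?_)
    simp only
    rw [integral_const_mul, ← intervalIntegral.integral_of_le h12, poisson_int hε]
  · have : IsFiniteMeasure ((volume.restrict (Ioc x₁ x₂)).prod (volume.restrict (Ioc (0 : ℝ) 1))) :=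
      inferInstance
    refine Integrable.of_bound (C := M * (1 / ε)) ?_ (ae_of_all _ fun q => ?_)
    · refine Measurable.aestronglyMeasurable ?_
      unfold Function.uncurry
      simp only
      fun_prop
    · unfold Function.uncurry
      simp only
      rw [norm_mul, Real.norm_eq_abs, Real.norm_eq_abs]
      have h1 : 0 ≤ ε / ((q.1 - q.2) ^ 2 + ε ^ 2) := by positivity
      rw [abs_of_nonneg h1]
      refine mul_le_mul (hM _) ?_ h1 hM0
      rw [div_le_div_iff₀ (by positivity) hε]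
      nlinarith [sq_nonneg (q.1 - q.2)]

theorem arctan_lim_pos {y : ℝ} (hy : 0 < y) :
    Tendsto (fun ε : ℝ => Real.arctan (y / ε)) (𝓝[>] 0) (𝓝 (Real.pi / 2)) := by
  have h1 : Tendsto (fun ε : ℝ => y / ε) (𝓝[>] 0) atTop := by
    have := tendsto_inv_nhdsGT_zero (𝕜 := ℝ)
    exact (this.const_mul_atTop hy).congr fun ε => by rw [div_eq_mul_inv]
  exact (tendsto_nhds_of_tendsto_nhdsWithin Real.tendsto_arctan_atTop).comp h1

theorem arctan_lim_neg {y : ℝ} (hy : y < 0) :
    Tendsto (fun ε : ℝ => Real.arctan (y / ε)) (𝓝[>] 0) (𝓝 (-(Real.pi / 2))) := by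
  have h1 := (arctan_lim_pos (neg_pos.2 hy)).neg
  refine h1.congr fun ε => ?_
  rw [← Real.arctan_neg]
  congr 1
  ring

theorem int_zero {K : ℝ → ℝ} (hK : Measurable K) {M : ℝ} (hM : ∀ u, |K u| ≤ M) {x₀ : ℝ}
    (h0 : 0 ≤ x₀)
    (h : ∀ x ∈ Ioo x₀ 1, Tendsto (fun ε : ℝ => pois K x ε) (𝓝[>] 0) (𝓝 0)) {x₁ x₂ : ℝ}
    (h1 : x₁ ∈ Ioo x₀ 1) (h2 : x₂ ∈ Ioo x₀ 1) (h12 : x₁ ≤ x₂) : ∫ u in x₁..x₂, K u = 0 := by
  have hM0 : 0 ≤ M := (abs_nonneg _).trans (hM 0)
  -- first limit
  have hmeas : ∀ ε : ℝ, StronglyMeasurable fun x => pois K x ε := by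
    intro ε
    unfold pois
    refine StronglyMeasurable.integral_prod_right (f := fun x u => K u * (ε / ((x - u) ^ 2 + ε ^ 2))) ?_
    refine Measurable.stronglyMeasurable ?_
    unfold Function.uncurry
    simp only
    fun_prop
  have l1 : Tendsto (fun ε : ℝ => ∫ x in x₁..x₂, pois K x ε) (𝓝[>] 0)
      (𝓝 (∫ x in x₁..x₂, (0 : ℝ))) := by
    refine intervalIntegral.tendsto_integral_filter_of_dominated_convergence
      (fun _ => M * Real.pi) ?_ ?_ (by simp) ?_
    · exact Eventually.of_forall fun ε => (hmeas ε).aestronglyMeasurable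
    · filter_upwards [self_mem_nhdsWithin] with ε hε
      exact ae_of_all _ fun x _ => by
        rw [Real.norm_eq_abs]
        exact pois_le hM hε x
    · refine ae_of_all _ fun x hx => h x ?_
      rw [uIoc_of_le h12] at hx
      exact ⟨h1.1.trans hx.1, hx.2.trans_lt h2.2⟩
  -- second limit
  set g : ℝ → ℝ := fun u => K u * (if x₁ < u ∧ u ≤ x₂ then Real.pi else 0) with hg
  have l2 : Tendsto (fun ε : ℝ => ∫ u in Ioc (0 : ℝ) 1, K u *
      (Real.arctan ((x₂ - u) / ε) - Real.arctan ((x₁ - u) / ε))) (𝓝[>] 0)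
      (𝓝 (∫ u in Ioc (0 : ℝ) 1, g u)) := by
    refine tendsto_integral_filter_of_dominated_convergence (fun _ => M * Real.pi) ?_ ?_ ?_ ?_
    · exact Eventually.of_forall fun ε => (Measurable.aestronglyMeasurable (by fun_prop))
    · refine Eventually.of_forall fun ε => ae_of_all _ fun u => ?_
      rw [norm_mul, Real.norm_eq_abs, Real.norm_eq_abs]
      refine mul_le_mul (hM u) ?_ (abs_nonneg _) hM0
      have a1 := Real.arctan_lt_pi_div_two ((x₂ - u) / ε)
      have a2 := Real.neg_pi_div_two_lt_arctan ((x₂ - u) / ε)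
      have a3 := Real.arctan_lt_pi_div_two ((x₁ - u) / ε)
      have a4 := Real.neg_pi_div_two_lt_arctan ((x₁ - u) / ε)
      rw [abs_le]
      constructor <;> linarith
    · exact integrable_const _
    · have hne : ∀ᵐ u ∂(volume.restrict (Ioc (0 : ℝ) 1)), u ≠ x₁ ∧ u ≠ x₂ := by
        have e1 : ∀ᵐ u ∂(volume.restrict (Ioc (0 : ℝ) 1)), u ≠ x₁ := by
          refine ae_restrict_of_ae ?_
          simp [ae_iff]
        have e2 : ∀ᵐ u ∂(volume.restrict (Ioc (0 : ℝ) 1)), u ≠ x₂ := by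
          refine ae_restrict_of_ae ?_
          simp [ae_iff]
        filter_upwards [e1, e2] with u a b using ⟨a, b⟩
      filter_upwards [hne] with u hu
      obtain ⟨hu1, hu2⟩ := hu
      rw [hg]
      refine Tendsto.const_mul _ ?_
      rcases lt_or_gt_of_ne hu1 with c1 | c1
      · -- u < x₁
        have c2 : u < x₂ := c1.trans_le h12
        rw [if_neg (fun c => absurd c.1 (not_lt.2 c1.le))]
        have := (arctan_lim_pos (sub_pos.2 c2)).sub (arctan_lim_pos (sub_pos.2 c1))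
        rwa [sub_self] at this
      · rcases lt_or_gt_of_ne hu2 with c2 | c2
        · rw [if_pos ⟨c1, c2.le⟩]
          have := (arctan_lim_pos (sub_pos.2 c2)).sub (arctan_lim_neg (sub_neg.2 c1))
          refine this.trans (le_of_eq ?_)
          congr 1
          ring
        · rw [if_neg (fun c => absurd c.2 (not_le.2 c2))]
          have := (arctan_lim_neg (sub_neg.2 c2)).sub (arctan_lim_neg (sub_neg.2 c1))
          rwa [sub_self] at this
  have l3 : Tendsto (fun ε : ℝ => ∫ x in x₁..x₂, pois K x ε) (𝓝[>] 0)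
      (𝓝 (∫ u in Ioc (0 : ℝ) 1, g u)) := by
    refine l2.congr' ?_
    filter_upwards [self_mem_nhdsWithin] with ε hε
    rw [pois_fubini hK hM hε h12]
  have e1 := tendsto_nhds_unique l1 l3
  rw [intervalIntegral.integral_zero] at e1
  have e2 : ∫ u in Ioc (0 : ℝ) 1, g u = Real.pi * ∫ u in x₁..x₂, K u := by
    have hsub : Ioc x₁ x₂ ⊆ Ioc (0 : ℝ) 1 := fun u hu =>
      ⟨(h0.trans h1.1.le).trans_lt hu.1, hu.2.trans h2.2.le⟩
    have e3 : g = fun u => (Ioc x₁ x₂).indicator (fun u => Real.pi * K u) u := by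
      funext u
      rw [hg]
      simp only [indicator, mem_Ioc]
      split_ifs
      · ring
      · ring
    rw [e3, setIntegral_indicator measurableSet_Ioc, inter_eq_self_of_subset_right hsub,
      intervalIntegral.integral_of_le h12, integral_const_mul]
  rw [e2] at e1
  have := Real.pi_pos
  rcases mul_eq_zero.1 e1.symm with h3 | h3
  · linarith
  · exact h3

/-- If the Poisson integrals tend to zero on an interval, the function vanishes there. -/
theorem ae_zero_of_pois {K : ℝ → ℝ} (hK : Measurable K) {M : ℝ} (hM : ∀ u, |K u| ≤ M) {x₀ : ℝ}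
    (h0 : 0 ≤ x₀)
    (h : ∀ x ∈ Ioo x₀ 1, Tendsto (fun ε : ℝ => pois K x ε) (𝓝[>] 0) (𝓝 0)) :
    ∀ᵐ u : ℝ, u ∈ Ioo x₀ 1 → K u = 0 := by
  have hloc : LocallyIntegrable K volume := by
    refine (locallyIntegrable_const M).mono hK.aestronglyMeasurable (ae_of_all _ fun u => ?_)
    rw [Real.norm_eq_abs, Real.norm_eq_abs]
    exact (hM u).trans (le_abs_self M)
  filter_upwards [_root_.LocallyIntegrable.ae_hasDerivAt_integral hloc] with u hu hu1
  set c : ℝ := u with hc
  have h1 := hu c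
  have h2 : HasDerivAt (fun x => ∫ t in c..x, K t) 0 u := by
    have h3 : (fun x => ∫ t in c..x, K t) =ᶠ[𝓝 u] fun _ => (0 : ℝ) := by
      filter_upwards [isOpen_Ioo.mem_nhds hu1] with x hx
      rcases le_total c x with h4 | h4
      · exact int_zero hK hM h0 h hu1 hx h4
      · rw [intervalIntegral.integral_symm, int_zero hK hM h0 h hx hu1 h4, neg_zero]
    exact (hasDerivAt_const u (0 : ℝ)).congr_of_eventuallyEq h3
  exact h1.unique h2

end Pool.Agent.R429.DM
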