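import Pool.Agent.W66.PA
import Pool.Agent.TH270.MS.Dir
import Pool.Agent.TH270.MS.PW

/-! Upper bounds for sharp sums of Dirichlet coefficients from bounds for the Dirichlet series. -/

set_option autoImplicit false

open MeasureTheory Filter Topology Set Complex
open Pool.Agent.TH942.LS (Dat)
open Pool.Agent.TH942.SL
open Pool.Agent.TH270.MS (Sh sh_le sh_summable sh_term)
open Pool.Agent.H379R2.SW (vert vert_re vert_im vert_ne_zero continuous_vert)
open Pool.Agent.W66

namespace Pool.Agent.R429.DM.Up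

variable {lam c : ℕ → ℝ} {δ σ : ℝ}

lemma norm_exp_vert (x ξ v : ℝ) : ‖cexp (vert x ξ * v)‖ = Real.exp (x * v) := by
  rw [exp_vert, norm_mul, Complex.norm_exp_ofReal_mul_I, mul_one, Complex.norm_real,
    Real.norm_of_nonneg (Real.exp_pos _).le]

/-- the difference of two first Riesz sums by Perron's formula -/
theorem perron (D : Dat lam c δ σ) {x : ℝ} (hx : σ ≤ x) (T h : ℝ) :
    ((∑' n, c n * (max (T + h - lam n) 0 - max (T - lam n) 0) : ℝ) : ℂ) =
      ∫ ξ : ℝ, cexp (vert x ξ * T) * (cexp (vert x ξ * h) - 1) * DD lam c (vert x ξ) /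
        (vert x ξ) ^ 2 := by
  have hx0 : 0 < x := lt_of_lt_of_le D.σ0 hx
  set F : ℕ → ℝ → ℂ := fun n ξ => (c n : ℂ) *
    (cexp (vert x ξ * ((T + h - lam n : ℝ) : ℂ)) / (vert x ξ) ^ 2 -
      cexp (vert x ξ * ((T - lam n : ℝ) : ℂ)) / (vert x ξ) ^ 2) with hF
  have hFi : ∀ n, Integrable (F n) := fun n =>
    ((integrable_exp_vert hx0 _).sub (integrable_exp_vert hx0 _)).const_mul _
  set I₀ : ℝ := ∫ ξ : ℝ, (‖vert x ξ‖ ^ 2)⁻¹ with hI₀
  have hI₀0 : 0 ≤ I₀ := integral_nonneg fun ξ => by positivity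
  have hFn : ∀ n, ∫ ξ : ℝ, ‖F n ξ‖ ≤
      (|c n| * Real.exp (-(σ * lam n))) * ((Real.exp (x * (T + h)) + Real.exp (x * T)) * I₀) := by
    intro n
    have h1 : ∀ ξ : ℝ, ‖F n ξ‖ ≤ (|c n| * (Real.exp (x * (T + h - lam n)) +
        Real.exp (x * (T - lam n)))) * (‖vert x ξ‖ ^ 2)⁻¹ := by
      intro ξ
      rw [hF]
      simp only
      rw [norm_mul, Complex.norm_real, Real.norm_eq_abs, mul_assoc]
      refine mul_le_mul_of_nonneg_left ?_ (abs_nonneg _)
      refine (norm_sub_le _ _).trans (le_of_eq ?_)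
      rw [norm_div, norm_div, norm_pow, norm_exp_vert, norm_exp_vert]
      ring
    have h2 := integral_mono (hFi n).norm ((integrable_inv_norm_vert_sq' hx0).const_mul _) h1
    rw [integral_const_mul] at h2
    refine h2.trans ?_
    have h3 : Real.exp (x * (T + h - lam n)) + Real.exp (x * (T - lam n)) =
        Real.exp (-(x * lam n)) * (Real.exp (x * (T + h)) + Real.exp (x * T)) := by
      rw [mul_add (Real.exp (-(x * lam n))), ← Real.exp_add, ← Real.exp_add]
      congr 2 <;> ring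
    have h4 : Real.exp (-(x * lam n)) ≤ Real.exp (-(σ * lam n)) := by
      apply Real.exp_le_exp.2
      have h2 := D.lam_ge n
      have h3 := D.δ0
      nlinarith
    rw [h3]
    calc |c n| * (Real.exp (-(x * lam n)) * (Real.exp (x * (T + h)) + Real.exp (x * T))) * I₀
        ≤ |c n| * (Real.exp (-(σ * lam n)) * (Real.exp (x * (T + h)) + Real.exp (x * T))) * I₀ := by
          gcongr
      _ = _ := by ring
  have hFs : Summable fun n => ∫ ξ : ℝ, ‖F n ξ‖ :=
    Summable.of_nonneg_of_le (fun n => integral_nonneg fun ξ => norm_nonneg _) hFn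
      (D.sum.mul_right _)
  have h1 := integral_tsum_of_summable_integral_norm hFi hFs
  have h2 : ∀ ξ : ℝ, ∑' n, F n ξ = cexp (vert x ξ * T) * (cexp (vert x ξ * h) - 1) *
      DD lam c (vert x ξ) / (vert x ξ) ^ 2 := by
    intro ξ
    unfold DD
    rw [← tsum_mul_left, ← tsum_div_const]
    refine tsum_congr fun n => ?_
    rw [hF]
    simp only
    have e1 : cexp (vert x ξ * ((T + h - lam n : ℝ) : ℂ)) =
        cexp (vert x ξ * T) * cexp (vert x ξ * h) * cexp (-(vert x ξ * lam n)) := by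
      rw [← Complex.exp_add, ← Complex.exp_add]
      congr 1
      push_cast
      ring
    have e2 : cexp (vert x ξ * ((T - lam n : ℝ) : ℂ)) =
        cexp (vert x ξ * T) * cexp (-(vert x ξ * lam n)) := by
      rw [← Complex.exp_add]
      congr 1
      push_cast
      ring
    rw [e1, e2]
    ring
  have h3 : ∀ n, ∫ ξ : ℝ, F n ξ = ((c n * (max (T + h - lam n) 0 - max (T - lam n) 0) : ℝ) : ℂ) := by
    intro n
    rw [hF]
    simp only
    rw [integral_const_mul, integral_sub (integrable_exp_vert hx0 _) (integrable_exp_vert hx0 _),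
      perron_vert hx0, perron_vert hx0]
    push_cast
    ring
  simp only [h2, h3] at h1
  rw [← h1, Complex.ofReal_tsum]

lemma exp_sub_one_le {s : ℂ} (hs : 0 ≤ s.re) {h θ : ℝ} (hh : 0 ≤ h) (h0 : 0 ≤ θ) (h1 : θ ≤ 1) :
    ‖cexp (s * h) - 1‖ ≤ 2 * Real.exp (s.re * h) * (‖s‖ * h) ^ θ := by
  have hn : ‖s * h‖ = ‖s‖ * h := by
    rw [norm_mul, Complex.norm_real, Real.norm_of_nonneg hh]
  have hre : (s * h).re = s.re * h := by simp
  have he1 : 1 ≤ Real.exp (s.re * h) := Real.one_le_exp (by positivity)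
  rcases le_or_gt (‖s‖ * h) 1 with hc | hc
  · have e1 := Complex.norm_exp_sub_one_le (x := s * h) (by rw [hn]; exact hc)
    rw [hn] at e1
    have e2 : ‖s‖ * h ≤ (‖s‖ * h) ^ θ := by
      rcases (by positivity : 0 ≤ ‖s‖ * h).eq_or_lt with hz | hz
      · rw [← hz]
        positivity
      · calc ‖s‖ * h = (‖s‖ * h) ^ (1 : ℝ) := (Real.rpow_one _).symm
          _ ≤ _ := Real.rpow_le_rpow_of_exponent_ge hz hc h1
    have e3 : 0 ≤ (‖s‖ * h) ^ θ := by positivity
    nlinarith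
  · have e1 : ‖cexp (s * h) - 1‖ ≤ Real.exp (s.re * h) + 1 := by
      refine (norm_sub_le _ _).trans ?_
      rw [Complex.norm_exp, hre, norm_one]
    have e2 : 1 ≤ (‖s‖ * h) ^ θ := Real.one_le_rpow hc.le h0
    nlinarith

/-- the tail function -/
lemma int_tail {r : ℝ} (hr : 1 < r) : Integrable (fun t : ℝ => (1 + |t|) ^ (-r)) := by
  have := integrable_one_add_norm (E := ℝ) (μ := volume) (r := r) (by simpa using hr)
  simpa using this

lemma one_add_le_norm {s : ℂ} {x : ℝ} (hx : 0 < x) (hs : x ≤ s.re) :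
    1 + |s.im| ≤ (1 + 1 / x) * ‖s‖ := by
  have h1 : 1 ≤ 1 / x * ‖s‖ := by
    rw [one_div, inv_mul_eq_div, one_le_div hx]
    exact hs.trans (Complex.re_le_norm s)
  have h2 := Complex.abs_im_le_norm s
  linarith

/-- **The bound of the difference of the first Riesz sums.** -/
theorem diff_le (D : Dat lam c δ σ) {Λ : ℂ → ℂ} {x B ε B' : ℝ} (hx : 0 < x) (hxσ : x < σ + 1)
    (hd : ∀ s : ℂ, x ≤ s.re → DifferentiableAt ℂ Λ s)
    (he : ∀ s : ℂ, σ < s.re → Λ s = DD lam c s) (hε : 0 < ε) (hε2 : ε ≤ 1 / 2) (hB : 0 ≤ B)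
    (hb : ∀ s : ℂ, x ≤ s.re → s.re ≤ σ + 1 → ‖Λ s‖ ≤ B * (1 + |s.im|) ^ ε)
    (hb' : ∀ s : ℂ, x ≤ s.re → s.re ≤ σ + 1 → ‖Λ s‖ ≤ B' * (1 + |s.im|) ^ (1 / 2 : ℝ)) :
    ∃ C : ℝ, 0 ≤ C ∧ ∀ T h : ℝ, 0 ≤ h → h ≤ 1 →
      |∑' n, c n * (max (T + h - lam n) 0 - max (T - lam n) 0)| ≤
        C * Real.exp (x * T) * h ^ (1 - 2 * ε) := by
  have hσ := D.σ0
  set θ : ℝ := 1 - 2 * ε with hθ
  have hθ0 : 0 ≤ θ := by rw [hθ]; linarith
  have hθ1 : θ ≤ 1 := by rw [hθ]; linarith
  set I₁ : ℝ := ∫ t : ℝ, (1 + |t|) ^ (-(1 + ε)) with hI₁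
  have hI₁0 : 0 ≤ I₁ := integral_nonneg fun t => by positivity
  set C₂ : ℝ := 2 * Real.exp x * B * (1 + 1 / x) ^ (2 - θ) with hC₂
  have hC₂0 : 0 ≤ C₂ := by positivity
  refine ⟨(2 * Real.pi)⁻¹ * (C₂ * I₁), by positivity, fun T h hh hh1 => ?_⟩
  set H : ℂ → ℂ := fun s => cexp (s * T) * (cexp (s * h) - 1) * Λ s / s ^ 2 with hH
  have hB'0 : 0 ≤ B' := by
    have := (norm_nonneg _).trans (hb' (x : ℂ) (by simp) (by simpa using hxσ.le))
    simpa using this
  -- the formula on the line `σ + 1`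
  have h1 : ((∑' n, c n * (max (T + h - lam n) 0 - max (T - lam n) 0) : ℝ) : ℂ) =
      (((2 * Real.pi)⁻¹ : ℝ) : ℂ) * ∫ t : ℝ, H (((σ + 1 : ℝ) : ℂ) + t * I) := by
    rw [perron D (x := σ + 1) (by linarith) T h, ← Pool.Agent.TH270.MS.PW.scale_integral]
    refine integral_congr_ae (Eventually.of_forall fun ξ => ?_)
    simp only
    have e1 : vert (σ + 1) ξ = ((σ + 1 : ℝ) : ℂ) + 2 * Real.pi * ξ * I := by
      unfold vert
      push_cast
      ring
    rw [← e1, hH]
    simp only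
    rw [he _ (by rw [vert_re]; linarith)]
  have hs0 : ∀ s : ℂ, x ≤ s.re → s ≠ 0 := fun s hs => by
    rintro rfl
    simp at hs
    linarith
  -- the shift
  have h2 : ∫ t : ℝ, H ((x : ℂ) + t * I) = ∫ t : ℝ, H (((σ + 1 : ℝ) : ℂ) + t * I) := by
    refine Pool.Agent.TH270.MS.PW.contour_shift (a := x) (b := σ + 1)
      (B := Real.exp ((σ + 1) * |T|) * (Real.exp (σ + 1) + 1) * B' * (1 + 1 / x) ^ 2) hxσ.le
      (fun s hs _ => ?_) (fun s hs hs2 => ?_)
    · have := hd s hs
      exact ((((by fun_prop : DifferentiableAt ℂ (fun s : ℂ => cexp (s * T)) s).mul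
        (by fun_prop : DifferentiableAt ℂ (fun s : ℂ => cexp (s * h) - 1) s)).mul this).div
        (differentiableAt_id.pow 2) (pow_ne_zero 2 (hs0 s hs)))
    · have hn : 0 < ‖s‖ := norm_pos_iff.2 (hs0 s hs)
      have hre : 0 < s.re := hx.trans_le hs
      have a1 : ‖cexp (s * T)‖ ≤ Real.exp ((σ + 1) * |T|) := by
        rw [Complex.norm_exp]
        apply Real.exp_le_exp.2
        have : (s * T).re = s.re * T := by simp
        rw [this]
        calc s.re * T ≤ s.re * |T| := mul_le_mul_of_nonneg_left (le_abs_self T) hre.le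
          _ ≤ _ := mul_le_mul_of_nonneg_right hs2 (abs_nonneg T)
      have a2 : ‖cexp (s * h) - 1‖ ≤ Real.exp (σ + 1) + 1 := by
        refine (norm_sub_le _ _).trans ?_
        rw [Complex.norm_exp, norm_one]
        have : (s * h).re = s.re * h := by simp
        rw [this]
        have : s.re * h ≤ σ + 1 := by nlinarith
        linarith [Real.exp_le_exp.2 this]
      have a3 := hb' s hs hs2
      have a4 : (1 + |s.im|) ^ (2 : ℕ) ≤ (1 + 1 / x) ^ 2 * ‖s‖ ^ 2 := by
        rw [← mul_pow]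
        exact pow_le_pow_left₀ (by positivity) (one_add_le_norm hx hs) 2
      have a5 : (1 + |s.im|) ^ (-(3 / 2 : ℝ)) =
          (1 + |s.im|) ^ (1 / 2 : ℝ) / (1 + |s.im|) ^ (2 : ℕ) := by
        rw [← Real.rpow_natCast, ← Real.rpow_sub (by positivity)]
        norm_num
      have hp : 0 < (1 + |s.im|) ^ (2 : ℕ) := by positivity
      rw [hH]
      simp only
      rw [norm_div, norm_mul, norm_mul, norm_pow, div_le_iff₀ (by positivity), a5]
      have a6 : 1 ≤ (1 + 1 / x) ^ 2 * ‖s‖ ^ 2 / (1 + |s.im|) ^ (2 : ℕ) := by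
        rw [le_div_iff₀ hp, one_mul]
        exact a4
      calc ‖cexp (s * T)‖ * ‖cexp (s * h) - 1‖ * ‖Λ s‖ ≤
          Real.exp ((σ + 1) * |T|) * (Real.exp (σ + 1) + 1) * (B' * (1 + |s.im|) ^ (1 / 2 : ℝ)) := by
            gcongr
        _ ≤ Real.exp ((σ + 1) * |T|) * (Real.exp (σ + 1) + 1) * (B' * (1 + |s.im|) ^ (1 / 2 : ℝ)) *
            ((1 + 1 / x) ^ 2 * ‖s‖ ^ 2 / (1 + |s.im|) ^ (2 : ℕ)) :=
          le_mul_of_one_le_right (by positivity) a6
        _ = _ := by ring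
  -- the bound on the line `x`
  have h3 : ∀ t : ℝ, ‖H ((x : ℂ) + t * I)‖ ≤
      C₂ * Real.exp (x * T) * h ^ θ * (1 + |t|) ^ (-(1 + ε)) := by
    intro t
    set s : ℂ := (x : ℂ) + t * I with hs
    have hsre : s.re = x := by simp [hs]
    have hsim : s.im = t := by simp [hs]
    have hn : 0 < ‖s‖ := norm_pos_iff.2 (hs0 s hsre.ge)
    have b1 : ‖cexp (s * T)‖ = Real.exp (x * T) := by
      rw [Complex.norm_exp]
      congr 1
      simp [hsre]
    have b2 : ‖cexp (s * h) - 1‖ ≤ 2 * Real.exp x * (‖s‖ ^ θ * h ^ θ) := by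
      refine (exp_sub_one_le (by rw [hsre]; exact hx.le) hh hθ0 hθ1).trans ?_
      rw [Real.mul_rpow (norm_nonneg _) hh, hsre]
      have : Real.exp (x * h) ≤ Real.exp x := Real.exp_le_exp.2 (by nlinarith)
      gcongr
    have b3 := hb s hsre.ge (by rw [hsre]; exact hxσ.le)
    rw [hsim] at b3
    have b4 : 1 + |t| ≤ (1 + 1 / x) * ‖s‖ := by
      have := one_add_le_norm hx (s := s) hsre.ge
      rwa [hsim] at this
    have b5 : ‖s‖ ^ θ / ‖s‖ ^ 2 ≤ (1 + 1 / x) ^ (2 - θ) * (1 + |t|) ^ (θ - 2) := by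
      have c1 : ‖s‖ ^ θ / ‖s‖ ^ 2 = ‖s‖ ^ (θ - 2) := by
        rw [← Real.rpow_natCast, ← Real.rpow_sub hn]
        norm_num
      have c2 : 0 < 1 + 1 / x := by positivity
      have c3 : (1 + |t|) / (1 + 1 / x) ≤ ‖s‖ := by
        rw [div_le_iff₀ c2]
        linarith
      have c4 : ‖s‖ ^ (θ - 2) ≤ ((1 + |t|) / (1 + 1 / x)) ^ (θ - 2) :=
        Real.rpow_le_rpow_of_nonpos (by positivity) c3 (by linarith)
      rw [c1]
      refine c4.trans (le_of_eq ?_)
      rw [Real.div_rpow (by positivity) c2.le, show (2 - θ : ℝ) = -(θ - 2) by ring,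
        Real.rpow_neg c2.le, div_eq_mul_inv, mul_comm]
    have b6 : (1 + |t|) ^ (θ - 2) * (1 + |t|) ^ ε = (1 + |t|) ^ (-(1 + ε)) := by
      rw [← Real.rpow_add (by positivity)]
      congr 1
      rw [hθ]
      ring
    rw [hH]
    simp only
    rw [norm_div, norm_mul, norm_mul, norm_pow, b1]
    calc Real.exp (x * T) * ‖cexp (s * h) - 1‖ * ‖Λ s‖ / ‖s‖ ^ 2 ≤
        Real.exp (x * T) * (2 * Real.exp x * (‖s‖ ^ θ * h ^ θ)) * (B * (1 + |t|) ^ ε) / ‖s‖ ^ 2 := by
          gcongr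
      _ = 2 * Real.exp x * B * Real.exp (x * T) * h ^ θ * (‖s‖ ^ θ / ‖s‖ ^ 2) * (1 + |t|) ^ ε := by
          ring
      _ ≤ 2 * Real.exp x * B * Real.exp (x * T) * h ^ θ *
          ((1 + 1 / x) ^ (2 - θ) * (1 + |t|) ^ (θ - 2)) * (1 + |t|) ^ ε := by
          gcongr
      _ = C₂ * Real.exp (x * T) * h ^ θ * ((1 + |t|) ^ (θ - 2) * (1 + |t|) ^ ε) := by
          rw [hC₂]
          ring
      _ = _ := by rw [b6]
  have h4 : ‖∫ t : ℝ, H ((x : ℂ) + t * I)‖ ≤ C₂ * Real.exp (x * T) * h ^ θ * I₁ := by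
    rw [hI₁, ← integral_const_mul]
    exact norm_integral_le_of_norm_le ((int_tail (by linarith)).const_mul _)
      (Eventually.of_forall h3)
  rw [← Real.norm_eq_abs, ← Complex.norm_real, h1, norm_mul, ← h2]
  have h5 : ‖(((2 * Real.pi)⁻¹ : ℝ) : ℂ)‖ = (2 * Real.pi)⁻¹ := by
    rw [Complex.norm_real, Real.norm_of_nonneg (by positivity)]
  rw [h5]
  calc (2 * Real.pi)⁻¹ * ‖∫ t : ℝ, H ((x : ℂ) + t * I)‖ ≤
      (2 * Real.pi)⁻¹ * (C₂ * Real.exp (x * T) * h ^ θ * I₁) := by
        gcongr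
    _ = _ := by ring

/-- the short sums -/
noncomputable def Ss (lam c : ℕ → ℝ) (T h : ℝ) : ℝ :=
  ∑' n, if T < lam n ∧ lam n ≤ T + h then |c n| else 0

lemma ss_summable (D : Dat lam c δ σ) (T h : ℝ) :
    Summable fun n => (if T < lam n ∧ lam n ≤ T + h then |c n| else 0 : ℝ) := by
  refine Summable.of_nonneg_of_le (fun n => by split_ifs <;> positivity) (fun n => ?_)
    ((sh_summable D (T + h)).norm)
  split_ifs with h1 h2 h2
  · rfl
  · exact absurd h1.2 h2
  · exact norm_nonneg _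
  · simp

/-- the comparison of the sharp sum and the difference quotient -/
theorem cmp (D : Dat lam c δ σ) {T h : ℝ} (hh : 0 < h) :
    |Sh lam c T - (∑' n, c n * (max (T + h - lam n) 0 - max (T - lam n) 0)) / h| ≤ Ss lam c T h := by
  have h1 : ∀ n, ‖(if lam n ≤ T then c n else 0) -
      c n * (max (T + h - lam n) 0 - max (T - lam n) 0) / h‖ ≤
      (if T < lam n ∧ lam n ≤ T + h then |c n| else 0 : ℝ) := by
    intro n
    rcases le_or_gt (lam n) T with h2 | h2
    · rw [if_pos h2, if_neg (fun h3 => absurd h3.1 (not_lt.2 h2)), max_eq_left (by linarith),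
        max_eq_left (by linarith)]
      have : c n - c n * (T + h - lam n - (T - lam n)) / h = 0 := by
        field_simp
        ring
      rw [this, norm_zero]
    · rw [if_neg (not_le.2 h2), max_eq_right (a := T - lam n) (by linarith), sub_zero, zero_sub,
        norm_neg, Real.norm_eq_abs]
      rcases le_or_gt (lam n) (T + h) with h3 | h3
      · rw [if_pos ⟨h2, h3⟩, max_eq_left (by linarith), mul_div_assoc, abs_mul]
        have h4 : |(T + h - lam n) / h| ≤ 1 := by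
          rw [abs_of_nonneg (div_nonneg (by linarith) hh.le), div_le_one hh]
          linarith
        calc |c n| * |(T + h - lam n) / h| ≤ |c n| * 1 :=
              mul_le_mul_of_nonneg_left h4 (abs_nonneg _)
          _ = _ := mul_one _
      · rw [if_neg (fun h4 => absurd h4.2 (not_le.2 h3)), max_eq_right (by linarith), mul_zero,
          zero_div, abs_zero]
  have hs := ss_summable D T h
  have h2 : Summable fun n => (if lam n ≤ T then c n else 0) -
      c n * (max (T + h - lam n) 0 - max (T - lam n) 0) / h :=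
    Summable.of_norm_bounded hs h1
  have h3 : Summable fun n => c n * (max (T + h - lam n) 0 - max (T - lam n) 0) / h := by
    have := (sh_summable D T).sub h2
    refine this.congr fun n => ?_
    ring
  have h4 : Sh lam c T - (∑' n, c n * (max (T + h - lam n) 0 - max (T - lam n) 0)) / h =
      ∑' n, ((if lam n ≤ T then c n else 0) -
        c n * (max (T + h - lam n) 0 - max (T - lam n) 0) / h) := by
    rw [(sh_summable D T).tsum_sub h3, tsum_div_const]
    rfl
  rw [h4, ← Real.norm_eq_abs]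
  exact tsum_of_norm_bounded hs.hasSum h1

/-- **The bound of the sharp sums.** -/
theorem sharp_le (D : Dat lam c δ σ) {Λ : ℂ → ℂ} {y C₁ : ℝ} (hy : 0 ≤ y)
    (hd : ∀ s : ℂ, y < s.re → DifferentiableAt ℂ Λ s)
    (he : ∀ s : ℂ, σ < s.re → Λ s = DD lam c s)
    (hb : ∀ x : ℝ, y < x → ∀ ε : ℝ, 0 < ε → ∃ B : ℝ, ∀ s : ℂ, x ≤ s.re → s.re ≤ σ + 1 →
      ‖Λ s‖ ≤ B * (1 + |s.im|) ^ ε)
    (hsh : ∀ T : ℝ, 0 ≤ T → Ss lam c T (Real.exp (-(T / 2))) ≤ C₁) {ε : ℝ} (hε : 0 < ε) :
    ∃ C : ℝ, ∀ T : ℝ, 0 ≤ T → |Sh lam c T| ≤ C * Real.exp ((y + ε) * T) := by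
  have hσ := D.σ0
  set S₀ : ℝ := ∑' n, |c n| * Real.exp (-(σ * lam n)) with hS₀
  have hS0 : 0 ≤ S₀ := tsum_nonneg fun n => by positivity
  rcases le_or_gt (σ + 1) (y + min (ε / 2) 1) with h0 | h0
  · refine ⟨S₀, fun T hT => (sh_le D T).trans ?_⟩
    rw [mul_comm]
    refine mul_le_mul_of_nonneg_left (Real.exp_le_exp.2 ?_) hS0
    have h1 : min (ε / 2) 1 ≤ 1 := min_le_right _ _
    have h2 : σ ≤ y + ε := by linarith
    exact mul_le_mul_of_nonneg_right h2 hT
  · set x : ℝ := y + min (ε / 2) 1 with hx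
    have hm0 : 0 < min (ε / 2) 1 := lt_min (by linarith) one_pos
    have hm1 : min (ε / 2) 1 ≤ ε / 2 := min_le_left _ _
    set e : ℝ := min (ε / 2) (1 / 2) with he'
    have he0 : 0 < e := lt_min (by linarith) (by norm_num)
    have he1 : e ≤ ε / 2 := min_le_left _ _
    have he2 : e ≤ 1 / 2 := min_le_right _ _
    have hxy : y < x := by linarith
    obtain ⟨B, hB⟩ := hb x hxy e he0
    obtain ⟨B', hB'⟩ := hb x hxy (1 / 2) (by norm_num)
    obtain ⟨C, hC, hCb⟩ := diff_le D (x := x) (B := |B|) (B' := B') (ε := e) (by linarith) h0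
      (fun s hs => hd s (by linarith)) he he0 he2 (abs_nonneg B)
      (fun s hs hs2 => (hB s hs hs2).trans
        (mul_le_mul_of_nonneg_right (le_abs_self B) (by positivity))) hB'
    refine ⟨C + |C₁|, fun T hT => ?_⟩
    set h : ℝ := Real.exp (-(T / 2)) with hh
    have hh0 : 0 < h := Real.exp_pos _
    have hh1 : h ≤ 1 := Real.exp_le_one_iff.2 (by linarith)
    have h1 := hCb T h hh0.le hh1
    have h2 := cmp D (T := T) hh0
    have h3 := hsh T hT
    have h4 : |(∑' n, c n * (max (T + h - lam n) 0 - max (T - lam n) 0)) / h| ≤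
        C * Real.exp ((y + ε) * T) := by
      rw [abs_div, abs_of_pos hh0, div_le_iff₀ hh0]
      refine h1.trans ?_
      have e1 : h ^ (1 - 2 * e) = h * Real.exp (e * T) := by
        rw [hh, ← Real.exp_mul, ← Real.exp_add]
        congr 1
        ring
      rw [e1]
      have e2 : Real.exp (x * T) * Real.exp (e * T) ≤ Real.exp ((y + ε) * T) := by
        rw [← Real.exp_add, ← add_mul]
        apply Real.exp_le_exp.2
        exact mul_le_mul_of_nonneg_right (by linarith) hT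
      calc C * Real.exp (x * T) * (h * Real.exp (e * T)) =
          C * (Real.exp (x * T) * Real.exp (e * T)) * h := by ring
        _ ≤ _ := by gcongr
    have h5 : 1 ≤ Real.exp ((y + ε) * T) := Real.one_le_exp (by positivity)
    have h6 : |Sh lam c T| ≤ |C₁| + C * Real.exp ((y + ε) * T) := by
      have := abs_sub_abs_le_abs_sub (Sh lam c T)
        ((∑' n, c n * (max (T + h - lam n) 0 - max (T - lam n) 0)) / h)
      have := le_abs_self C₁
      linarith
    have h7 : |C₁| ≤ |C₁| * Real.exp ((y + ε) * T) := le_mul_of_one_le_right (abs_nonneg _) h5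
    linarith

end Pool.Agent.R429.DM.Up
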