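import Pool.Agent.R429.DM.Up
import Pool.Agent.R429.DM.Crv
import Pool.Agent.TH942.RZ.Curve

/-! Upper bounds for the sums of an elliptic curve. -/

set_option autoImplicit false

open MeasureTheory Filter Topology Set Complex
open Pool.Agent.TH942.LS (Dat)
open Pool.Agent.TH942.SL
open Pool.Agent.TH942.RZ (LD)
open Pool.Agent.TH270.MS (Sh sh_le sh_summable sh_term)

namespace Pool.Agent.R429.DM.Up

section gen

variable {lam c : ℕ → ℝ} {δ σ : ℝ}

/-- shifting the series -/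
lemma dat_shift (D : Dat lam c δ σ) {y : ℝ} (hy : 0 ≤ y) :
    Dat lam (fun n => c n * Real.exp (-(y * lam n))) δ σ where
  δ0 := D.δ0
  σ0 := D.σ0
  lam_ge := D.lam_ge
  sum := by
    refine Summable.of_nonneg_of_le (fun n => by positivity) (fun n => ?_) D.sum
    have h1 : Real.exp (-(y * lam n)) ≤ 1 := by
      apply Real.exp_le_one_iff.2
      have := mul_nonneg hy (D.δ0.le.trans (D.lam_ge n))
      linarith
    rw [abs_mul, abs_of_pos (Real.exp_pos _)]
    have h2 : 0 ≤ |c n| * Real.exp (-(σ * lam n)) := by positivity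
    calc |c n| * Real.exp (-(y * lam n)) * Real.exp (-(σ * lam n)) =
        (|c n| * Real.exp (-(σ * lam n))) * Real.exp (-(y * lam n)) := by ring
      _ ≤ (|c n| * Real.exp (-(σ * lam n))) * 1 := mul_le_mul_of_nonneg_left h1 h2
      _ = _ := mul_one _

lemma dd_shift (y : ℝ) (s : ℂ) :
    Pool.Agent.TH942.SL.DD lam (fun n => c n * Real.exp (-(y * lam n))) s = Pool.Agent.TH942.SL.DD lam c (y + s) := by
  unfold Pool.Agent.TH942.SL.DD
  refine tsum_congr fun n => ?_
  have e1 : cexp (-(((y : ℂ) + s) * lam n)) = cexp (-((y : ℂ) * lam n)) * cexp (-(s * lam n)) := by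
    rw [← Complex.exp_add]
    congr 1
    ring
  rw [e1]
  push_cast
  ring

/-- increasing the abscissa -/
lemma dat_mono (D : Dat lam c δ σ) {σ' : ℝ} (h : σ ≤ σ') : Dat lam c δ σ' where
  δ0 := D.δ0
  σ0 := D.σ0.trans_le h
  lam_ge := D.lam_ge
  sum := by
    refine Summable.of_nonneg_of_le (fun n => by positivity) (fun n => ?_) D.sum
    have h1 : Real.exp (-(σ' * lam n)) ≤ Real.exp (-(σ * lam n)) := by
      apply Real.exp_le_exp.2
      have := D.δ0.le.trans (D.lam_ge n)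
      nlinarith
    gcongr

/-- **The Dirichlet series in the half plane without zeros.** -/
theorem exists_cont (D : Dat lam c δ σ) {Ψ G : ℂ → ℂ} {y C : ℝ} {κ : ℕ} (hy : 0 ≤ y)
    (hΨ : ∀ s : ℂ, 0 < s.re → DifferentiableAt ℂ Ψ s) (hne : ∀ s : ℂ, y < s.re → Ψ s ≠ 0)
    (hG : ∀ s : ℂ, 0 < s.re → DifferentiableAt ℂ G s)
    (hexp : ∀ s : ℂ, σ < s.re → exp (G s - Pool.Agent.TH942.SL.DD lam c s) = Ψ s)
    (hgrow : ∀ s : ℂ, 0 < s.re → ‖Ψ s‖ ≤ C * (1 + ‖s‖) ^ κ * (1 + 1 / s.re) ^ κ)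
    (hGb : ∀ x : ℝ, 0 < x → ∃ A : ℝ, ∀ s : ℂ, x ≤ s.re → ‖G s‖ ≤ A) :
    ∃ Λ : ℂ → ℂ, (∀ s : ℂ, y < s.re → DifferentiableAt ℂ Λ s) ∧
      (∀ s : ℂ, σ + y < s.re → Λ s = Pool.Agent.TH942.SL.DD lam c s) ∧
      ∀ x : ℝ, y < x → ∀ ε : ℝ, 0 < ε → ∃ B : ℝ, ∀ s : ℂ, x ≤ s.re → s.re ≤ σ + y + 1 →
        ‖Λ s‖ ≤ B * (1 + |s.im|) ^ ε := by
  have hre : ∀ s : ℂ, ((y : ℂ) + s).re = y + s.re := fun s => by simp
  obtain ⟨A', hA'⟩ := hGb 1 one_pos
  have hsh : ∀ (f : ℂ → ℂ) (s : ℂ), DifferentiableAt ℂ f ((y : ℂ) + s) →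
      DifferentiableAt ℂ (fun s : ℂ => f ((y : ℂ) + s)) s := fun f s h =>
    DifferentiableAt.comp (f := fun s : ℂ => (y : ℂ) + s) s h (by fun_prop)
  have hC0 : 0 ≤ C := by
    have h1 := (norm_nonneg _).trans (hgrow 1 (by simp))
    by_contra hcon
    push Not at hcon
    have h2 : 0 < (1 + ‖(1 : ℂ)‖) ^ κ := by positivity
    have h3 : 0 < (1 + 1 / (1 : ℂ).re) ^ κ := by
      rw [Complex.one_re]
      positivity
    have : C * (1 + ‖(1 : ℂ)‖) ^ κ * (1 + 1 / (1 : ℂ).re) ^ κ < 0 :=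
      mul_neg_of_neg_of_pos (mul_neg_of_neg_of_pos hcon h2) h3
    linarith
  obtain ⟨L, A₀, hLD, hLd, -, hLf⟩ := Pool.Agent.TH270.RS.exists_LD
    (Ψ := fun s => Ψ ((y : ℂ) + s)) (G := fun s => G ((y : ℂ) + s)) (A' := A')
    (C := C * (1 + y) ^ κ) (κ := κ) (dat_shift D hy)
    (fun s hs => hsh Ψ s (hΨ _ (by rw [hre]; linarith)))
    (fun s hs => hne _ (by rw [hre]; linarith))
    (fun s hs => hsh G s (hG _ (by rw [hre]; linarith)))
    (fun s hs => by
      rw [dd_shift]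
      exact hexp _ (by rw [hre]; linarith))
    (fun s hs => by
      refine (hgrow _ (by rw [hre]; linarith)).trans ?_
      rw [hre]
      have e1 : 1 + ‖(y : ℂ) + s‖ ≤ (1 + y) * (1 + ‖s‖) := by
        have := norm_add_le (y : ℂ) s
        rw [Complex.norm_real, Real.norm_of_nonneg hy] at this
        nlinarith [norm_nonneg s]
      have e2 : (1 + ‖(y : ℂ) + s‖) ^ κ ≤ (1 + y) ^ κ * (1 + ‖s‖) ^ κ := by
        rw [← mul_pow]
        exact pow_le_pow_left₀ (by positivity) e1 κ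
      have e3 : (1 + 1 / (y + s.re)) ^ κ ≤ (1 + 1 / s.re) ^ κ := by
        apply pow_le_pow_left₀ (by positivity)
        have := one_div_le_one_div_of_le hs (by linarith : s.re ≤ y + s.re)
        linarith
      calc C * (1 + ‖(y : ℂ) + s‖) ^ κ * (1 + 1 / (y + s.re)) ^ κ ≤
          C * ((1 + y) ^ κ * (1 + ‖s‖) ^ κ) * (1 + 1 / s.re) ^ κ := by gcongr
        _ = _ := by ring)
    (fun s hs => hA' _ (by rw [hre]; linarith))
  refine ⟨fun s => G s - L (s - y), fun s hs => ?_, fun s hs => ?_, fun x hx ε hε => ?_⟩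
  · have h1 : 0 < (s - y).re := by simp; linarith
    refine (hG s (by linarith)).sub ?_
    exact DifferentiableAt.comp (f := fun s : ℂ => s - (y : ℂ)) s (hLd _ h1).differentiableAt
      (by fun_prop)
  · have h1 : σ < (s - y).re := by simp; linarith
    simp only
    rw [hLf _ h1, dd_shift, add_sub_cancel]
    ring
  · obtain ⟨B, hB, hBB⟩ := hLD.pow (x₀ := x - y) (by linarith) hε
    obtain ⟨A, hA⟩ := hGb x (by linarith)
    refine ⟨|A| + B, fun s hs _ => ?_⟩
    have h1 : x - y ≤ (s - y).re := by simp; linarith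
    have h2 := hBB _ h1
    have h3 : (s - y).im = s.im := by simp
    rw [h3] at h2
    have h4 := (hA s hs).trans (le_abs_self A)
    have h5 : 1 ≤ (1 + |s.im|) ^ ε := Real.one_le_rpow (by linarith [abs_nonneg s.im]) hε.le
    have h6 := norm_sub_le (G s) (L (s - y))
    have h7 : |A| ≤ |A| * (1 + |s.im|) ^ ε := le_mul_of_one_le_right (abs_nonneg A) h5
    rw [add_mul]
    linarith

/-- **Zero-free half planes and the sharp sums.** -/
theorem sharp_zero_free (D : Dat lam c δ σ) {Ψ G : ℂ → ℂ} {y C C₁ : ℝ} {κ : ℕ} (hy : 0 ≤ y)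
    (hΨ : ∀ s : ℂ, 0 < s.re → DifferentiableAt ℂ Ψ s) (hne : ∀ s : ℂ, y < s.re → Ψ s ≠ 0)
    (hG : ∀ s : ℂ, 0 < s.re → DifferentiableAt ℂ G s)
    (hexp : ∀ s : ℂ, σ < s.re → exp (G s - Pool.Agent.TH942.SL.DD lam c s) = Ψ s)
    (hgrow : ∀ s : ℂ, 0 < s.re → ‖Ψ s‖ ≤ C * (1 + ‖s‖) ^ κ * (1 + 1 / s.re) ^ κ)
    (hGb : ∀ x : ℝ, 0 < x → ∃ A : ℝ, ∀ s : ℂ, x ≤ s.re → ‖G s‖ ≤ A)
    (hsh : ∀ T : ℝ, 0 ≤ T → Ss lam c T (Real.exp (-(T / 2))) ≤ C₁) {ε : ℝ} (hε : 0 < ε) :
    ∃ C : ℝ, ∀ T : ℝ, 0 ≤ T → |Sh lam c T| ≤ C * Real.exp ((y + ε) * T) := by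
  obtain ⟨Λ, h1, h2, h3⟩ := exists_cont D hy hΨ hne hG hexp hgrow hGb
  exact sharp_le (dat_mono D (by linarith : σ ≤ σ + y)) hy h1 h2 h3 hsh hε

/-! ### partial summation -/

lemma abel (a k : ℕ → ℝ) (N : ℕ) :
    ∑ n ∈ Finset.range (N + 1), a n * k n = (∑ i ∈ Finset.range (N + 1), a i) * k N +
      ∑ n ∈ Finset.range N, (∑ i ∈ Finset.range (n + 1), a i) * (k n - k (n + 1)) := by
  induction N with
  | zero => simp
  | succ N ih =>
    rw [Finset.sum_range_succ, ih, Finset.sum_range_succ (fun i => a i) (N + 1),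
      Finset.sum_range_succ (fun n => (∑ i ∈ Finset.range (n + 1), a i) * (k n - k (n + 1))) N]
    ring

/-- sums of increments of a function of bounded variation -/
lemma bv_sum {K : ℝ → ℝ} (hK : BoundedVariationOn K (Icc 0 1)) {X : ℝ} (hX : 1 < X) :
    ∑ n ∈ Finset.range ⌊X⌋₊, |K (Real.log n / Real.log X) - K (Real.log (n + 1 : ℕ) / Real.log X)| ≤
      (eVariationOn K (Icc 0 1)).toReal := by
  have hl : 0 < Real.log X := Real.log_pos hX
  set u : ℕ → ℝ := fun n => Real.log n / Real.log X with hu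
  have hmono : MonotoneOn u (Iic ⌊X⌋₊) := by
    intro m _ n _ hmn
    simp only [hu]
    refine div_le_div_of_nonneg_right ?_ hl.le
    rcases Nat.eq_zero_or_pos m with rfl | hm
    · simp only [Nat.cast_zero, Real.log_zero]
      exact Real.log_natCast_nonneg n
    · exact Real.log_le_log (by exact_mod_cast hm) (by exact_mod_cast hmn)
  have hin : ∀ i ≤ ⌊X⌋₊, u i ∈ Icc (0 : ℝ) 1 := by
    intro i hi
    refine ⟨div_nonneg (Real.log_natCast_nonneg i) hl.le, ?_⟩
    simp only [hu]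
    rw [div_le_one hl]
    rcases Nat.eq_zero_or_pos i with rfl | hm
    · simp only [Nat.cast_zero, Real.log_zero]
      exact hl.le
    · refine Real.log_le_log (by exact_mod_cast hm) ?_
      have h2 : (i : ℝ) ≤ (⌊X⌋₊ : ℝ) := by exact_mod_cast hi
      exact h2.trans (Nat.floor_le (by linarith))
  have h1 := eVariationOn.sum_le_of_monotoneOn_Iic (f := K) hmono hin
  have h2 : ∑ n ∈ Finset.range ⌊X⌋₊, edist (K (u (n + 1))) (K (u n)) =
      ENNReal.ofReal (∑ n ∈ Finset.range ⌊X⌋₊, |K (u n) - K (u (n + 1))|) := by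
    rw [ENNReal.ofReal_sum_of_nonneg fun i _ => abs_nonneg _]
    refine Finset.sum_congr rfl fun i _ => ?_
    rw [edist_dist, Real.dist_eq, abs_sub_comm]
  rw [h2] at h1
  have h3 := (ENNReal.ofReal_le_iff_le_toReal hK).1 h1
  exact h3

/-- a function of bounded variation is bounded -/
lemma bv_bd {K : ℝ → ℝ} (hK : BoundedVariationOn K (Icc 0 1)) :
    ∀ u ∈ Icc (0 : ℝ) 1, |K u| ≤ |K 1| + (eVariationOn K (Icc 0 1)).toReal := by
  intro u hu
  have h1 := hK.dist_le hu (right_mem_Icc.2 zero_le_one)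
  rw [Real.dist_eq] at h1
  have := abs_sub_abs_le_abs_sub (K u) (K 1)
  linarith

/-- **Weighted sums from the sharp sums.** -/
theorem bv_le {a : ℕ → ℝ} {K : ℝ → ℝ} (hK : BoundedVariationOn K (Icc 0 1)) {β α C : ℝ}
    (hα : 0 ≤ α) (hC : 0 ≤ C) (hβ : 0 ≤ β)
    (hz : ∀ u ∈ Ioc β 1, K u = 0)
    (hA : ∀ n : ℕ, |∑ i ∈ Finset.range (n + 1), a i| ≤ C * (max n 1 : ℝ) ^ α) {X : ℝ} (hX : 1 < X) :
    |∑ n ∈ Finset.range (⌊X⌋₊ + 1), a n * K (Real.log n / Real.log X)| ≤
      C * (|K 1| + 2 * (eVariationOn K (Icc 0 1)).toReal) * X ^ (β * α) := by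
  have hl : 0 < Real.log X := Real.log_pos hX
  have hX0 : 0 < X := by linarith
  set V : ℝ := (eVariationOn K (Icc 0 1)).toReal with hV
  have hV0 : 0 ≤ V := ENNReal.toReal_nonneg
  have hX1 : 1 ≤ X ^ β := Real.one_le_rpow hX.le hβ
  -- the bound for small `n`
  have hsmall : ∀ n : ℕ, (n : ℝ) ≤ X ^ β → |∑ i ∈ Finset.range (n + 1), a i| ≤ C * X ^ (β * α) := by
    intro n hn
    refine (hA n).trans ?_
    rw [Real.rpow_mul hX0.le]
    have : (max n 1 : ℝ) ≤ X ^ β := max_le hn hX1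
    gcongr
  have hbig : ∀ n : ℕ, X ^ β < n → n ≤ ⌊X⌋₊ → K (Real.log n / Real.log X) = 0 := by
    intro n hn hnX
    have hn0 : (0 : ℝ) < n := lt_trans (by positivity) hn
    refine hz _ ⟨?_, ?_⟩
    · rw [lt_div_iff₀ hl, ← Real.log_rpow hX0]
      exact Real.log_lt_log (by positivity) hn
    · rw [div_le_one hl]
      refine Real.log_le_log hn0 ?_
      have h2 : (n : ℝ) ≤ (⌊X⌋₊ : ℝ) := by exact_mod_cast hnX
      exact h2.trans (Nat.floor_le hX0.le)
  have hmem : ∀ n : ℕ, n ≤ ⌊X⌋₊ → Real.log n / Real.log X ∈ Icc (0 : ℝ) 1 := by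
    intro n hn
    refine ⟨div_nonneg (Real.log_natCast_nonneg n) hl.le, ?_⟩
    rw [div_le_one hl]
    rcases Nat.eq_zero_or_pos n with rfl | hm
    · simp only [Nat.cast_zero, Real.log_zero]
      exact hl.le
    · refine Real.log_le_log (by exact_mod_cast hm) ?_
      have h2 : (n : ℝ) ≤ (⌊X⌋₊ : ℝ) := by exact_mod_cast hn
      exact h2.trans (Nat.floor_le hX0.le)
  rw [abel a (fun n => K (Real.log n / Real.log X)) ⌊X⌋₊]
  have h1 : |(∑ i ∈ Finset.range (⌊X⌋₊ + 1), a i) * K (Real.log ⌊X⌋₊ / Real.log X)| ≤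
      C * X ^ (β * α) * (|K 1| + V) := by
    rw [abs_mul]
    rcases le_or_gt ((⌊X⌋₊ : ℕ) : ℝ) (X ^ β) with hc | hc
    · exact mul_le_mul (hsmall _ hc) (bv_bd hK _ (hmem _ le_rfl)) (abs_nonneg _) (by positivity)
    · rw [hbig _ hc le_rfl, abs_zero, mul_zero]
      positivity
  have h2 : |∑ n ∈ Finset.range ⌊X⌋₊, (∑ i ∈ Finset.range (n + 1), a i) *
      (K (Real.log n / Real.log X) - K (Real.log (n + 1 : ℕ) / Real.log X))| ≤
      C * X ^ (β * α) * V := by
    refine (Finset.abs_sum_le_sum_abs _ _).trans ?_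
    calc ∑ n ∈ Finset.range ⌊X⌋₊, |(∑ i ∈ Finset.range (n + 1), a i) *
        (K (Real.log n / Real.log X) - K (Real.log (n + 1 : ℕ) / Real.log X))| ≤
        ∑ n ∈ Finset.range ⌊X⌋₊, C * X ^ (β * α) *
          |K (Real.log n / Real.log X) - K (Real.log (n + 1 : ℕ) / Real.log X)| := by
          refine Finset.sum_le_sum fun n hn => ?_
          rw [Finset.mem_range] at hn
          rw [abs_mul]
          rcases le_or_gt (n : ℝ) (X ^ β) with hc | hc
          · exact mul_le_mul_of_nonneg_right (hsmall n hc) (abs_nonneg _)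
          · have hc' : X ^ β < ((n + 1 : ℕ) : ℝ) := hc.trans (by push_cast; linarith)
            rw [hbig n hc hn.le, hbig (n + 1) hc' hn, sub_zero, abs_zero, mul_zero, mul_zero]
      _ = C * X ^ (β * α) * ∑ n ∈ Finset.range ⌊X⌋₊,
          |K (Real.log n / Real.log X) - K (Real.log (n + 1 : ℕ) / Real.log X)| := by
          rw [Finset.mul_sum]
      _ ≤ _ := mul_le_mul_of_nonneg_left (bv_sum hK hX) (by positivity)
  refine (abs_add_le _ _).trans ?_
  calc _ ≤ C * X ^ (β * α) * (|K 1| + V) + C * X ^ (β * α) * V := add_le_add h1 h2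
    _ = _ := by ring

end gen

section curve

open Pool.Agent.W263.BSD Pool.Agent.W189.ML
open Pool.Agent.TH942.LS (lm cE dat lm_eq)

variable {a b : ℤ} {F : ℂ → ℂ}

lemma log_one_add_le {u : ℝ} (hu : |u| ≤ 3 / 5) : |Real.log (1 + u)| ≤ 5 / 2 * |u| := by
  have h1 := (abs_le.1 hu).1
  have h2 : 0 < 1 + u := by linarith
  have h3 := Real.log_le_sub_one_of_pos h2
  have h4 := Real.log_le_sub_one_of_pos (inv_pos.2 h2)
  rw [Real.log_inv] at h4
  have h5 : (1 + u)⁻¹ - 1 ≤ 5 / 2 * |u| := by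
    have e1 : (1 + u)⁻¹ - 1 = -u / (1 + u) := by
      field_simp
      ring
    rw [e1, div_le_iff₀ h2]
    have := neg_abs_le u
    have h6 : -u ≤ |u| := neg_le_abs u
    have h7 : 1 ≤ 5 / 2 * (1 + u) := by linarith
    have h8 := abs_nonneg u
    nlinarith
  have h6 := le_abs_self u
  rw [abs_le]
  constructor <;> linarith [abs_nonneg u]

/-- the bound of the coefficients -/
theorem cE_le (a b : ℤ) : ∃ C : ℝ, 0 ≤ C ∧ ∀ p : ℕ, |cE a b p| ≤ C / √p := by
  set S : ℝ := ∑ q ∈ Finset.range 25, |cE a b q| with hS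
  have hS0 : 0 ≤ S := by positivity
  refine ⟨15 / 2 + 5 * S, by positivity, fun p => ?_⟩
  by_cases hg : GoodPrime a b p
  · have hp : 0 < p := hg.1.pos
    have hpr : (0 : ℝ) < p := by exact_mod_cast hp
    have hq : 0 < √(p : ℝ) := Real.sqrt_pos.2 hpr
    have hq2 : √(p : ℝ) * √(p : ℝ) = p := Real.mul_self_sqrt hpr.le
    rw [le_div_iff₀ hq]
    rcases Nat.lt_or_ge p 25 with h25 | h25
    · have h1 : |cE a b p| ≤ S := Finset.single_le_sum (f := fun q => |cE a b q|)
        (fun q _ => abs_nonneg _) (Finset.mem_range.2 h25)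
      have h2 : √(p : ℝ) ≤ 5 := by
        rw [Real.sqrt_le_left (by norm_num)]
        have : (p : ℝ) < 25 := by exact_mod_cast h25
        linarith
      nlinarith
    · have h25r : (25 : ℝ) ≤ p := by exact_mod_cast h25
      have h5 : 5 ≤ √(p : ℝ) := Real.le_sqrt_of_sq_le (by linarith)
      have h1 := hasse_all hg
      set u : ℝ := ((pointCount a b p : ℝ) + 1) / p - 1 with hu
      have hu1 : |u| ≤ 3 / √(p : ℝ) := by
        have e1 : u = ((pointCount a b p : ℝ) + 1 - p) / p := by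
          rw [hu]
          field_simp
        rw [e1, abs_div, abs_of_pos hpr, div_le_div_iff₀ hpr hq]
        have e2 : |(pointCount a b p : ℝ) + 1 - p| ≤ 2 * √(p : ℝ) + 1 := by
          have := abs_le.1 h1
          rw [abs_le]
          constructor <;> linarith [this.1, this.2]
        nlinarith
      have hu2 : |u| ≤ 3 / 5 := hu1.trans (by gcongr)
      have h2 := log_one_add_le hu2
      have h3 : cE a b p = Real.log (1 + u) := by
        unfold Pool.Agent.TH942.LS.cE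
        rw [if_pos hg, hu]
        congr 1
        ring
      rw [h3]
      rw [le_div_iff₀ hq] at hu1
      nlinarith
  · unfold Pool.Agent.TH942.LS.cE
    rw [if_neg hg, abs_zero]
    positivity

/-- the short sums are bounded -/
theorem short (a b : ℤ) : ∃ C₁ : ℝ, ∀ T : ℝ, 0 ≤ T →
    Ss lm (cE a b) T (Real.exp (-(T / 2))) ≤ C₁ := by
  obtain ⟨C, hC, hCb⟩ := cE_le a b
  refine ⟨3 * C, fun T hT => ?_⟩
  set h : ℝ := Real.exp (-(T / 2)) with hh
  have hh0 : 0 < h := Real.exp_pos _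
  have hh1 : h ≤ 1 := Real.exp_le_one_iff.2 (by linarith)
  set X : ℝ := Real.exp T with hX
  have hX0 : 0 < X := Real.exp_pos _
  have hX1 : 1 ≤ X := Real.one_le_exp hT
  have hhX : h * h * X = 1 := by
    rw [hh, hX, ← Real.exp_add, ← Real.exp_add]
    rw [show -(T / 2) + -(T / 2) + T = 0 by ring, Real.exp_zero]
  set I : Finset ℕ := Finset.Ioc ⌊X⌋₊ ⌊Real.exp (T + h)⌋₊ with hI
  have hterm : ∀ n, (if T < lm n ∧ lm n ≤ T + h then |cE a b n| else 0 : ℝ) ≤
      if n ∈ I then C * h else 0 := by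
    intro n
    by_cases h1 : T < lm n ∧ lm n ≤ T + h
    · rw [if_pos h1]
      by_cases hg : GoodPrime a b n
      · have hn2 : 2 ≤ n := hg.1.two_le
        rw [lm_eq hn2] at h1
        have hn0 : (0 : ℝ) < n := by exact_mod_cast hg.1.pos
        have h2 : X < n := by
          rw [hX, ← Real.lt_log_iff_exp_lt hn0]
          exact h1.1
        have h3 : (n : ℝ) ≤ Real.exp (T + h) := by
          rw [← Real.log_le_iff_le_exp hn0]
          exact h1.2
        have hnI : n ∈ I := by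
          rw [hI, Finset.mem_Ioc]
          exact ⟨(Nat.floor_lt hX0.le).2 h2, Nat.le_floor h3⟩
        rw [if_pos hnI]
        refine (hCb n).trans ?_
        rw [div_eq_mul_inv]
        refine mul_le_mul_of_nonneg_left ?_ hC
        have h4 : h⁻¹ ≤ √(n : ℝ) := by
          apply Real.le_sqrt_of_sq_le
          have : h⁻¹ ^ 2 = X := by
            rw [inv_pow]
            field_simp
            linarith
          rw [this]
          exact h2.le
        have h5 : 0 < h⁻¹ := inv_pos.2 hh0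
        have h6 := inv_anti₀ h5 h4
        rwa [inv_inv] at h6
      · unfold Pool.Agent.TH942.LS.cE
        rw [if_neg hg, abs_zero]
        split_ifs <;> positivity
    · rw [if_neg h1]
      split_ifs <;> positivity
  have hsum2 : Summable fun n => (if n ∈ I then C * h else 0 : ℝ) :=
    summable_of_ne_finset_zero (s := I) fun n hn => if_neg hn
  have h1 := (ss_summable (dat a b) T h).tsum_le_tsum hterm hsum2
  have h2 : ∑' n, (if n ∈ I then C * h else 0 : ℝ) = I.card * (C * h) := by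
    rw [tsum_eq_sum (s := I) fun n hn => if_neg hn, Finset.sum_congr rfl fun n hn => if_pos hn,
      Finset.sum_const, nsmul_eq_mul]
  have h3 : (I.card : ℝ) ≤ 2 * h * X + 1 := by
    rw [hI, Nat.card_Ioc]
    have hle : X ≤ Real.exp (T + h) := Real.exp_le_exp.2 (by linarith)
    rw [Nat.cast_sub (Nat.floor_mono hle)]
    have e1 := Nat.floor_le (Real.exp_pos (T + h)).le
    have e2 := Nat.lt_floor_add_one X
    have e3 : Real.exp (T + h) ≤ X + 2 * h * X := by
      rw [Real.exp_add, ← hX]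
      have e4 := Real.abs_exp_sub_one_le (x := h) (by rwa [abs_of_pos hh0])
      rw [abs_of_pos hh0] at e4
      have e5 := (abs_le.1 e4).2
      nlinarith
    linarith
  unfold Ss
  refine h1.trans ?_
  rw [h2]
  have hCh : 0 ≤ C * h := by positivity
  calc (I.card : ℝ) * (C * h) ≤ (2 * h * X + 1) * (C * h) := mul_le_mul_of_nonneg_right h3 hCh
    _ = C * (2 * (h * h * X) + h) := by ring
    _ ≤ C * 3 := by
      rw [hhX]
      exact mul_le_mul_of_nonneg_left (by linarith) hC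
    _ = _ := by ring

/-- the correction function is bounded in closed half planes -/
theorem GK_half (a b : ℤ) (x : ℝ) (hx : 0 < x) : ∃ A : ℝ, ∀ s : ℂ, x ≤ s.re → ‖GK a b s‖ ≤ A := by
  have E := eData a b
  refine ⟨(∑' p : ℕ, (2 * (p : ℝ) ^ (-1 - (x / 2) : ℝ) + 60 * (p : ℝ) ^ (-(3 / 2) : ℝ))) +
    ∑ p ∈ Finset.range 25, |cE a b p|, fun s hs => ?_⟩
  have hs0 : 0 < s.re := by linarith
  unfold GK
  refine (norm_add_le _ _).trans (add_le_add ?_ ?_)
  · unfold GG
    exact tsum_of_norm_bounded (summable_bound (by linarith : (0 : ℝ) < x / 2)).hasSum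
      fun p => E.gterm_norm (by linarith) p (by linarith)
  · refine (norm_sum_le _ _).trans (Finset.sum_le_sum fun p _ => ?_)
    rw [norm_mul, Complex.norm_real, Real.norm_eq_abs]
    calc |cE a b p| * ‖Complex.exp (-(s * lm p))‖ ≤ |cE a b p| * 1 :=
          mul_le_mul_of_nonneg_left (exp_le_one' hs0 p) (abs_nonneg _)
      _ = _ := mul_one _

/-- **Sharp sums in zero-free half planes.** -/
theorem curve_sharp (hF : IsLSeries a b F)
    (hgr : ∃ C : ℝ, ∀ s : ℂ, 0 < s.re → ‖PhiF a b F s‖ ≤ C * (1 + ‖s‖) * (1 + 1 / s.re) ^ 2)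
    {y : ℝ} (hy : 0 ≤ y) (hz : ∀ s : ℂ, 1 + y < s.re → F s ≠ 0) {ε : ℝ} (hε : 0 < ε) :
    ∃ C : ℝ, ∀ T : ℝ, 0 ≤ T → |Sh lm (cE a b) T| ≤ C * Real.exp ((y + ε) * T) := by
  obtain ⟨C, hC⟩ := hgr
  obtain ⟨C₁, hC₁⟩ := short a b
  refine sharp_zero_free (dat a b) (Ψ := PhiF a b F) (G := GK a b) (y := y) (C := C) (κ := 2)
    (C₁ := C₁) hy (fun s _ => PhiF_differentiable hF s) (fun s hs => ?_)
    (fun s hs => (GK_deriv hs).differentiableAt) (fun s hs => GK_exp hF (by linarith))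
    (fun s hs => ?_) (GK_half a b) hC₁ hε
  · unfold PhiF
    refine mul_ne_zero (hz _ (by simpa using hs)) (small_ne (by linarith))
  · refine (hC s hs).trans ?_
    have h0 : 0 ≤ C := by
      have h1 := (norm_nonneg _).trans (hC s hs)
      by_contra hcon
      push Not at hcon
      have h2 : 0 < 1 + ‖s‖ := by positivity
      have h3 : 0 < (1 + 1 / s.re) ^ 2 := by positivity
      have : C * (1 + ‖s‖) * (1 + 1 / s.re) ^ 2 < 0 :=
        mul_neg_of_neg_of_pos (mul_neg_of_neg_of_pos hcon h2) h3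
      linarith
    have h1 : 1 + ‖s‖ ≤ (1 + ‖s‖) ^ 2 := by nlinarith [norm_nonneg s]
    gcongr

open Classical in
/-- the sharp sum as a finite sum -/
theorem sh_finite (a b : ℤ) (n : ℕ) : Sh lm (cE a b) (Real.log (max n 1 : ℝ)) =
    ∑ p ∈ Finset.range (n + 1), cE a b p := by
  unfold Pool.Agent.TH270.MS.Sh
  have h1 : ∀ p, (if lm p ≤ Real.log (max n 1 : ℝ) then cE a b p else 0) =
      if p ∈ Finset.range (n + 1) then cE a b p else 0 := by
    intro p
    by_cases hg : GoodPrime a b p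
    · have hp2 : 2 ≤ p := hg.1.two_le
      have hp0 : (0 : ℝ) < p := by exact_mod_cast hg.1.pos
      rw [lm_eq hp2]
      have h2 : (Real.log p ≤ Real.log (max n 1 : ℝ)) ↔ p ∈ Finset.range (n + 1) := by
        rw [Real.log_le_log_iff hp0 (by positivity), Finset.mem_range, le_max_iff]
        constructor
        · rintro (h | h)
          · have : p ≤ n := by exact_mod_cast h
            omega
          · have : p ≤ 1 := by exact_mod_cast h
            omega
        · intro h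
          left
          have : p ≤ n := by omega
          exact_mod_cast this
      by_cases h3 : Real.log p ≤ Real.log (max n 1 : ℝ)
      · rw [if_pos h3, if_pos (h2.1 h3)]
      · rw [if_neg h3, if_neg (fun h => h3 (h2.2 h))]
    · have : cE a b p = 0 := by
        unfold Pool.Agent.TH942.LS.cE
        rw [if_neg hg]
      rw [this]
      simp
  simp only [h1]
  rw [tsum_eq_sum (s := Finset.range (n + 1)) fun p hp => if_neg hp]
  exact Finset.sum_congr rfl fun p hp => if_pos hp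

open Classical in
/-- **Weighted sums in zero-free half planes.** -/
theorem curve_bv (hF : IsLSeries a b F)
    (hgr : ∃ C : ℝ, ∀ s : ℂ, 0 < s.re → ‖PhiF a b F s‖ ≤ C * (1 + ‖s‖) * (1 + 1 / s.re) ^ 2)
    {K : ℝ → ℝ} (hK : BoundedVariationOn K (Icc 0 1)) {β : ℝ} (hβ : 0 < β)
    (hv : ∀ u ∈ Ioc β 1, K u = 0)
    {y : ℝ} (hy : 0 ≤ y) (hz : ∀ s : ℂ, 1 + y < s.re → F s ≠ 0) {ε : ℝ} (hε : 0 < ε) :
    ∃ C : ℝ, ∀ X : ℝ, 1 < X → |wtd a b K X| ≤ C * X ^ (β * y + ε) := by
  obtain ⟨C, hC⟩ := curve_sharp hF hgr hy hz (ε := ε / β) (by positivity)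
  have hA : ∀ n : ℕ, |∑ i ∈ Finset.range (n + 1), cE a b i| ≤ |C| * (max n 1 : ℝ) ^ (y + ε / β) := by
    intro n
    have h1 : (1 : ℝ) ≤ max (n : ℝ) 1 := le_max_right _ _
    have h2 := hC (Real.log (max n 1 : ℝ)) (Real.log_nonneg h1)
    rw [sh_finite] at h2
    refine h2.trans ?_
    have h3 : Real.exp ((y + ε / β) * Real.log (max n 1 : ℝ)) = (max n 1 : ℝ) ^ (y + ε / β) := by
      rw [Real.rpow_def_of_pos (by linarith)]
      congr 1
      ring
    rw [h3]
    exact mul_le_mul_of_nonneg_right (le_abs_self C) (by positivity)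
  refine ⟨|C| * (|K 1| + 2 * (eVariationOn K (Icc 0 1)).toReal), fun X hX => ?_⟩
  have h1 := bv_le (a := fun p => cE a b p) hK (β := β) (α := y + ε / β) (C := |C|)
    (by positivity) (abs_nonneg C) hβ.le hv hA hX
  have h2 : β * (y + ε / β) = β * y + ε := by
    field_simp
  rw [h2] at h1
  have h3 : wtd a b K X = ∑ n ∈ Finset.range (⌊X⌋₊ + 1), cE a b n * K (Real.log n / Real.log X) := by
    unfold wtd
    rw [Finset.sum_filter]
    refine Finset.sum_congr rfl fun p _ => ?_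
    unfold Pool.Agent.TH942.LS.cE
    split_ifs
    · ring
    · rw [zero_mul]
  rw [h3]
  exact h1

end curve

end Pool.Agent.R429.DM.Up
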